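import Mathlib

/-!
# MODULE Twin/Avg  (MP_eb68d6_co)

A random choice `ω : ι → Ω` (columns) and `ω' : ι → Ω'` (rows), uniform, all coordinates independent.

`a ∈ E` is matched if `U (e a) (ω (i a))` and `U' (d a) (ω' (j a))`.  `f a = prob U (e a)`,
`g a = prob U' (d a)`.

Proof.  Average the right side over all `(ω, ω')`.  `E [a matched] = f a * g a`.  If `b ≠ a`, `e b = e a`
then `i b = i a`, so the column events are the same event, and `j b ≠ j a`, so the row events are
independent: `E [a, b matched] ≤ f a * g a * g b` (equality).  Hence the expectation of the first double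
sum is `∑ a, f a * g a * x a * ∑ (b ≠ a, e b = e a), g b * x b ≤ (1/8) Θ` with
`Θ = ∑ a ∈ E, f a * g a * x a` (all terms are nonnegative; the sum over `b` without `b = a` is at most
the one in `hg`).  The second one: in the same way with `i b ≠ i a`, `j b = j a`.  So the expectation of
the right side is at least `(3/4 - 1/8 - 1/8) Θ = Θ / 2`; some `(ω, ω')` is at least the average.

Counting facts: for `i : ι` and a predicate `U` on `Ω`
`card {ω : ι → Ω | U (ω i)} * card Ω = card {x | U x} * card (ι → Ω)`, and for `i ≠ i'`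
`card {ω | U (ω i) ∧ U2 (ω i')} * card Ω ^ 2 = card {x | U x} * card {x | U2 x} * card (ι → Ω)`
(e.g. `Fintype.piFinset`, `Fintype.card_piFinset` with the factor `Finset.univ` at the other
coordinates, and `Finset.prod` over `ι` splitting off one or two factors).
-/

set_option autoImplicit false

namespace Pool.Agent.Twin

open Classical in
/-- probability of a predicate for the uniform distribution -/
noncomputable def prob {Ω : Type*} [Fintype Ω] (U : Ω → Prop) : ℝ :=
  ((Finset.univ.filter U).card : ℝ) / Fintype.card Ω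

namespace AvgAux

/-- the average of a function on a finite type -/
noncomputable def av {α : Type*} [Fintype α] (h : α → ℝ) : ℝ := (∑ x, h x) / Fintype.card α

open Classical in
/-- the indicator of a proposition -/
noncomputable def ind (p : Prop) : ℝ := if p then 1 else 0

theorem ind_sq (p : Prop) : ind p * ind p = ind p := by
  unfold ind
  split_ifs <;> simp

theorem av_sum {α β : Type*} [Fintype α] (s : Finset β) (h : β → α → ℝ) :
    av (fun x => ∑ b ∈ s, h b x) = ∑ b ∈ s, av (h b) := by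
  unfold av
  rw [Finset.sum_comm, Finset.sum_div]

theorem av_mul {α : Type*} [Fintype α] (c : ℝ) (h : α → ℝ) :
    av (fun x => c * h x) = c * av h := by
  unfold av
  rw [← Finset.mul_sum, mul_div_assoc]

theorem av_sub {α : Type*} [Fintype α] (h k : α → ℝ) :
    av (fun x => h x - k x) = av h - av k := by
  unfold av
  rw [Finset.sum_sub_distrib, sub_div]

theorem exists_ge_av {α : Type*} [Fintype α] [Nonempty α] (h : α → ℝ) : ∃ x, av h ≤ h x := by
  have h1 : ∑ _x : α, av h ≤ ∑ x : α, h x := by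
    have h2 : (0 : ℝ) < Fintype.card α := by exact_mod_cast Fintype.card_pos
    rw [Finset.sum_const, Finset.card_univ, nsmul_eq_mul, av, mul_div_cancel₀ _ h2.ne']
  obtain ⟨x, -, hx⟩ := Finset.exists_le_of_sum_le Finset.univ_nonempty h1
  exact ⟨x, hx⟩

theorem av_ind {Ω : Type*} [Fintype Ω] (U : Ω → Prop) : av (fun x => ind (U x)) = prob U := by
  classical
  unfold av prob ind
  rw [Finset.sum_boole]

open Classical in
theorem av_pi {ι Ω : Type*} [Fintype ι] [Fintype Ω] (h : ι → Ω → ℝ) :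
    av (fun ω : ι → Ω => ∏ k, h k (ω k)) = ∏ k, av (h k) := by
  unfold av
  rw [Finset.prod_div_distrib, Finset.prod_univ_sum, Fintype.piFinset_univ]
  congr 1
  rw [Finset.prod_const, Finset.card_univ, Fintype.card_fun]
  push_cast
  rfl

open Classical in
theorem av_one {Ω : Type*} [Fintype Ω] [Nonempty Ω] : av (fun _ : Ω => (1 : ℝ)) = 1 := by
  have h2 : (Fintype.card Ω : ℝ) ≠ 0 := by exact_mod_cast Fintype.card_ne_zero
  unfold av
  rw [Finset.sum_const, Finset.card_univ, nsmul_eq_mul, mul_one, div_self h2]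

open Classical in
theorem av_single {ι Ω : Type*} [Fintype ι] [Fintype Ω] [Nonempty Ω] (i : ι) (U : Ω → Prop) :
    av (fun ω : ι → Ω => ind (U (ω i))) = prob U := by
  have h1 : (fun ω : ι → Ω => ind (U (ω i))) =
      fun ω : ι → Ω => ∏ k, (if k = i then ind (U (ω k)) else 1) := by
    funext ω
    rw [Finset.prod_ite_eq' Finset.univ i fun k => ind (U (ω k)), if_pos (Finset.mem_univ _)]
  rw [h1, av_pi (fun k x => if k = i then ind (U x) else 1)]
  have h2 : ∀ k : ι, av (fun x : Ω => if k = i then ind (U x) else (1 : ℝ)) =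
      if k = i then prob U else 1 := by
    intro k
    split_ifs
    · exact av_ind U
    · exact av_one
  rw [Finset.prod_congr rfl fun k _ => h2 k, Finset.prod_ite_eq' Finset.univ i fun _ => prob U,
    if_pos (Finset.mem_univ _)]

open Classical in
theorem av_pair {ι Ω : Type*} [Fintype ι] [Fintype Ω] [Nonempty Ω] {i i' : ι} (hi : i ≠ i')
    (U U2 : Ω → Prop) :
    av (fun ω : ι → Ω => ind (U (ω i)) * ind (U2 (ω i'))) = prob U * prob U2 := by
  have h1 : (fun ω : ι → Ω => ind (U (ω i)) * ind (U2 (ω i'))) =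
      fun ω : ι → Ω => ∏ k, ((if k = i then ind (U (ω k)) else 1) *
        (if k = i' then ind (U2 (ω k)) else 1)) := by
    funext ω
    rw [Finset.prod_mul_distrib, Finset.prod_ite_eq' Finset.univ i fun k => ind (U (ω k)),
      Finset.prod_ite_eq' Finset.univ i' fun k => ind (U2 (ω k)), if_pos (Finset.mem_univ _),
      if_pos (Finset.mem_univ _)]
  rw [h1, av_pi (fun k x => (if k = i then ind (U x) else 1) * (if k = i' then ind (U2 x) else 1))]
  have h2 : ∀ k : ι, av (fun x : Ω => (if k = i then ind (U x) else (1 : ℝ)) *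
      (if k = i' then ind (U2 x) else 1)) =
      (if k = i then prob U else 1) * (if k = i' then prob U2 else 1) := by
    intro k
    by_cases h3 : k = i
    · have h4 : ¬ k = i' := fun h => hi (h3.symm.trans h)
      simp only [if_pos h3, if_neg h4, mul_one]
      exact av_ind U
    · by_cases h4 : k = i'
      · simp only [if_pos h4, if_neg h3, one_mul]
        exact av_ind U2
      · simp only [if_neg h4, if_neg h3, mul_one]
        exact av_one
  rw [Finset.prod_congr rfl fun k _ => h2 k, Finset.prod_mul_distrib,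
    Finset.prod_ite_eq' Finset.univ i fun _ => prob U,
    Finset.prod_ite_eq' Finset.univ i' fun _ => prob U2, if_pos (Finset.mem_univ _),
    if_pos (Finset.mem_univ _)]

theorem prob_nonneg {Ω : Type*} [Fintype Ω] (U : Ω → Prop) : 0 ≤ prob U := by
  unfold prob
  positivity

open Classical in
theorem sum_filter_ind {ε : Type*} (E : Finset ε) (M N : ε → Prop) (x : ε → ℝ) :
    ∑ a ∈ E.filter (fun a => M a ∧ N a), x a = ∑ a ∈ E, x a * (ind (M a) * ind (N a)) := by
  rw [Finset.sum_filter]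
  refine Finset.sum_congr rfl fun a _ => ?_
  unfold ind
  by_cases h1 : M a <;> by_cases h2 : N a <;> simp [h1, h2]

open Classical in
theorem sum_filter_ind2 {ε : Type*} (E : Finset ε) (M N : ε → Prop) (Q : ε → ε → Prop)
    [∀ a b, Decidable (Q a b)] (x : ε → ℝ) :
    ∑ a ∈ E.filter (fun a => M a ∧ N a),
      ∑ b ∈ (E.filter (fun a => M a ∧ N a)).filter (fun b => Q a b), x a * x b =
    ∑ a ∈ E, ∑ b ∈ E.filter (fun b => Q a b),
      (x a * x b) * ((ind (M a) * ind (M b)) * (ind (N a) * ind (N b))) := by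
  rw [sum_filter_ind E M N fun a =>
    ∑ b ∈ (E.filter (fun a => M a ∧ N a)).filter (fun b => Q a b), x a * x b]
  refine Finset.sum_congr rfl fun a _ => ?_
  rw [Finset.filter_comm, sum_filter_ind (E.filter fun b => Q a b) M N fun b => x a * x b,
    Finset.sum_mul]
  refine Finset.sum_congr rfl fun b _ => ?_
  ring

end AvgAux

open Classical in
theorem exists_choice {ε ι Ω Ω' κ κ' : Type*} [Fintype ι] [Fintype Ω] [Nonempty Ω] [Fintype Ω']
    [Nonempty Ω'] (E : Finset ε) (i j : ε → ι) (e : ε → κ) (d : ε → κ') (U : κ → Ω → Prop)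
    (U' : κ' → Ω' → Prop) (x : ε → ℝ) (hx : ∀ a ∈ E, 0 ≤ x a)
    (hei : ∀ a ∈ E, ∀ b ∈ E, e a = e b → i a = i b)
    (hej : ∀ a ∈ E, ∀ b ∈ E, a ≠ b → e a = e b → j a ≠ j b)
    (hdj : ∀ a ∈ E, ∀ b ∈ E, d a = d b → j a = j b)
    (hdi : ∀ a ∈ E, ∀ b ∈ E, a ≠ b → d a = d b → i a ≠ i b)
    (hg : ∀ a ∈ E, ∑ b ∈ E.filter (fun b => e b = e a), prob (U' (d b)) * x b ≤ 1 / 8)
    (hf : ∀ a ∈ E, ∑ b ∈ E.filter (fun b => d b = d a), prob (U (e b)) * x b ≤ 1 / 8) :
    ∃ (ω : ι → Ω) (ω' : ι → Ω'), ∃ F : Finset ε,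
      F = E.filter (fun a => U (e a) (ω (i a)) ∧ U' (d a) (ω' (j a))) ∧
      1 / 2 * ∑ a ∈ E, prob (U (e a)) * prob (U' (d a)) * x a ≤
        3 / 4 * ∑ a ∈ F, x a - ∑ a ∈ F, ∑ b ∈ F.filter (fun b => b ≠ a ∧ e b = e a), x a * x b -
          ∑ a ∈ F, ∑ b ∈ F.filter (fun b => b ≠ a ∧ d b = d a), x a * x b := by
  classical
  set f : ε → ℝ := fun a => prob (U (e a)) with hfd
  set g : ε → ℝ := fun a => prob (U' (d a)) with hgd
  have hf0 : ∀ a, 0 ≤ f a := fun a => AvgAux.prob_nonneg _
  have hg0 : ∀ a, 0 ≤ g a := fun a => AvgAux.prob_nonneg _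
  set c : ε → (ι → Ω) → ℝ := fun a ω => AvgAux.ind (U (e a) (ω (i a))) with hc
  set r : ε → (ι → Ω') → ℝ := fun a ω' => AvgAux.ind (U' (d a) (ω' (j a))) with hr
  set Θ : ℝ := ∑ a ∈ E, f a * g a * x a with hΘ
  set H : (ι → Ω) → (ι → Ω') → ℝ := fun ω ω' =>
    ∑ a ∈ E, (3 / 4 * x a) * (c a ω * r a ω') -
      ∑ a ∈ E, ∑ b ∈ E.filter (fun b => b ≠ a ∧ e b = e a),
        (x a * x b) * ((c a ω * c b ω) * (r a ω' * r b ω')) -
      ∑ a ∈ E, ∑ b ∈ E.filter (fun b => b ≠ a ∧ d b = d a),
        (x a * x b) * ((c a ω * c b ω) * (r a ω' * r b ω')) with hH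
  -- averages of products
  have hprod : ∀ (k : ℝ) (p : (ι → Ω) → ℝ) (q : (ι → Ω') → ℝ),
      AvgAux.av (fun ω => AvgAux.av fun ω' => k * (p ω * q ω')) =
      k * (AvgAux.av p * AvgAux.av q) := by
    intro k p q
    have h1 : ∀ ω, (AvgAux.av fun ω' => k * (p ω * q ω')) = (k * AvgAux.av q) * p ω := by
      intro ω
      have h2 : (fun ω' => k * (p ω * q ω')) = fun ω' => (k * p ω) * q ω' := by
        funext ω'
        ring
      rw [h2, AvgAux.av_mul]
      ring
    simp only [h1]
    rw [AvgAux.av_mul]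
    ring
  have hav : AvgAux.av (fun ω => AvgAux.av fun ω' => H ω ω') =
      ∑ a ∈ E, (3 / 4 * x a) * (AvgAux.av (c a) * AvgAux.av (r a)) -
      ∑ a ∈ E, ∑ b ∈ E.filter (fun b => b ≠ a ∧ e b = e a),
        (x a * x b) * (AvgAux.av (fun ω => c a ω * c b ω) * AvgAux.av (fun ω' => r a ω' * r b ω')) -
      ∑ a ∈ E, ∑ b ∈ E.filter (fun b => b ≠ a ∧ d b = d a),
        (x a * x b) *
          (AvgAux.av (fun ω => c a ω * c b ω) * AvgAux.av (fun ω' => r a ω' * r b ω')) := by
    simp only [hH]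
    simp only [AvgAux.av_sub, AvgAux.av_sum]
    congr 1
    · congr 1
      · refine Finset.sum_congr rfl fun a _ => ?_
        exact hprod _ _ _
      · refine Finset.sum_congr rfl fun a _ => Finset.sum_congr rfl fun b _ => ?_
        exact hprod _ (fun ω => c a ω * c b ω) (fun ω' => r a ω' * r b ω')
    · refine Finset.sum_congr rfl fun a _ => Finset.sum_congr rfl fun b _ => ?_
      exact hprod _ (fun ω => c a ω * c b ω) (fun ω' => r a ω' * r b ω')
  have hca : ∀ a, AvgAux.av (c a) = f a := fun a => AvgAux.av_single (i a) (U (e a))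
  have hra : ∀ a, AvgAux.av (r a) = g a := fun a => AvgAux.av_single (j a) (U' (d a))
  have hT1 : ∑ a ∈ E, (3 / 4 * x a) * (AvgAux.av (c a) * AvgAux.av (r a)) = 3 / 4 * Θ := by
    rw [hΘ, Finset.mul_sum]
    refine Finset.sum_congr rfl fun a _ => ?_
    rw [hca, hra]
    ring
  have hT2 : ∑ a ∈ E, ∑ b ∈ E.filter (fun b => b ≠ a ∧ e b = e a),
      (x a * x b) *
        (AvgAux.av (fun ω => c a ω * c b ω) * AvgAux.av (fun ω' => r a ω' * r b ω')) ≤
      1 / 8 * Θ := by
    rw [hΘ, Finset.mul_sum]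
    refine Finset.sum_le_sum fun a ha => ?_
    have h1 : ∀ b ∈ E.filter (fun b => b ≠ a ∧ e b = e a),
        (x a * x b) *
          (AvgAux.av (fun ω => c a ω * c b ω) * AvgAux.av (fun ω' => r a ω' * r b ω')) =
        (f a * g a * x a) * (g b * x b) := by
      intro b hb
      rw [Finset.mem_filter] at hb
      obtain ⟨hb, hba, heb⟩ := hb
      have h2 : (fun ω => c a ω * c b ω) = c a := by
        funext ω
        simp only [hc]
        rw [heb, hei b hb a ha heb]
        exact AvgAux.ind_sq _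
      have h3 : AvgAux.av (fun ω' => r a ω' * r b ω') = g a * g b :=
        AvgAux.av_pair (hej a ha b hb (Ne.symm hba) heb.symm) _ _
      rw [h2, h3, hca]
      ring
    rw [Finset.sum_congr rfl h1, ← Finset.mul_sum]
    have h4 : ∑ b ∈ E.filter (fun b => b ≠ a ∧ e b = e a), g b * x b ≤ 1 / 8 := by
      refine le_trans ?_ (hg a ha)
      refine Finset.sum_le_sum_of_subset_of_nonneg ?_ fun b hb _ => ?_
      · intro b hb
        rw [Finset.mem_filter] at hb ⊢
        exact ⟨hb.1, hb.2.2⟩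
      · rw [Finset.mem_filter] at hb
        exact mul_nonneg (hg0 b) (hx b hb.1)
    have h5 : 0 ≤ f a * g a * x a := mul_nonneg (mul_nonneg (hf0 a) (hg0 a)) (hx a ha)
    calc f a * g a * x a * ∑ b ∈ E.filter (fun b => b ≠ a ∧ e b = e a), g b * x b
        ≤ f a * g a * x a * (1 / 8) := mul_le_mul_of_nonneg_left h4 h5
      _ = 1 / 8 * (f a * g a * x a) := by ring
  have hT3 : ∑ a ∈ E, ∑ b ∈ E.filter (fun b => b ≠ a ∧ d b = d a),
      (x a * x b) *
        (AvgAux.av (fun ω => c a ω * c b ω) * AvgAux.av (fun ω' => r a ω' * r b ω')) ≤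
      1 / 8 * Θ := by
    rw [hΘ, Finset.mul_sum]
    refine Finset.sum_le_sum fun a ha => ?_
    have h1 : ∀ b ∈ E.filter (fun b => b ≠ a ∧ d b = d a),
        (x a * x b) *
          (AvgAux.av (fun ω => c a ω * c b ω) * AvgAux.av (fun ω' => r a ω' * r b ω')) =
        (f a * g a * x a) * (f b * x b) := by
      intro b hb
      rw [Finset.mem_filter] at hb
      obtain ⟨hb, hba, heb⟩ := hb
      have h2 : (fun ω' => r a ω' * r b ω') = r a := by
        funext ω'
        simp only [hr]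
        rw [heb, hdj b hb a ha heb]
        exact AvgAux.ind_sq _
      have h3 : AvgAux.av (fun ω => c a ω * c b ω) = f a * f b :=
        AvgAux.av_pair (hdi a ha b hb (Ne.symm hba) heb.symm) _ _
      rw [h2, h3, hra]
      ring
    rw [Finset.sum_congr rfl h1, ← Finset.mul_sum]
    have h4 : ∑ b ∈ E.filter (fun b => b ≠ a ∧ d b = d a), f b * x b ≤ 1 / 8 := by
      refine le_trans ?_ (hf a ha)
      refine Finset.sum_le_sum_of_subset_of_nonneg ?_ fun b hb _ => ?_
      · intro b hb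
        rw [Finset.mem_filter] at hb ⊢
        exact ⟨hb.1, hb.2.2⟩
      · rw [Finset.mem_filter] at hb
        exact mul_nonneg (hf0 b) (hx b hb.1)
    have h5 : 0 ≤ f a * g a * x a := mul_nonneg (mul_nonneg (hf0 a) (hg0 a)) (hx a ha)
    calc f a * g a * x a * ∑ b ∈ E.filter (fun b => b ≠ a ∧ d b = d a), f b * x b
        ≤ f a * g a * x a * (1 / 8) := mul_le_mul_of_nonneg_left h4 h5
      _ = 1 / 8 * (f a * g a * x a) := by ring
  obtain ⟨ω, hω⟩ := AvgAux.exists_ge_av fun ω => AvgAux.av fun ω' => H ω ω'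
  obtain ⟨ω', hω'⟩ := AvgAux.exists_ge_av fun ω' => H ω ω'
  refine ⟨ω, ω', _, rfl, ?_⟩
  rw [AvgAux.sum_filter_ind E (fun a => U (e a) (ω (i a))) (fun a => U' (d a) (ω' (j a))) x,
    AvgAux.sum_filter_ind2 E (fun a => U (e a) (ω (i a))) (fun a => U' (d a) (ω' (j a)))
      (fun a b => b ≠ a ∧ e b = e a) x,
    AvgAux.sum_filter_ind2 E (fun a => U (e a) (ω (i a))) (fun a => U' (d a) (ω' (j a)))
      (fun a b => b ≠ a ∧ d b = d a) x]
  have h6 : AvgAux.av (fun ω => AvgAux.av fun ω' => H ω ω') ≤ H ω ω' := hω.trans hω'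
  rw [hav, hT1] at h6
  have h7 : H ω ω' = ∑ a ∈ E, (3 / 4 * x a) * (c a ω * r a ω') -
      ∑ a ∈ E, ∑ b ∈ E.filter (fun b => b ≠ a ∧ e b = e a),
        (x a * x b) * ((c a ω * c b ω) * (r a ω' * r b ω')) -
      ∑ a ∈ E, ∑ b ∈ E.filter (fun b => b ≠ a ∧ d b = d a),
        (x a * x b) * ((c a ω * c b ω) * (r a ω' * r b ω')) := rfl
  rw [h7] at h6
  have h9 : ∑ a ∈ E, (3 / 4 * x a) * (c a ω * r a ω') =
      3 / 4 * ∑ a ∈ E, x a * (c a ω * r a ω') := by
    rw [Finset.mul_sum]
    refine Finset.sum_congr rfl fun a _ => ?_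
    ring
  rw [h9] at h6
  have h8 : 1 / 2 * Θ ≤ 3 / 4 * ∑ a ∈ E, x a * (c a ω * r a ω') -
      ∑ a ∈ E, ∑ b ∈ E.filter (fun b => b ≠ a ∧ e b = e a),
        (x a * x b) * ((c a ω * c b ω) * (r a ω' * r b ω')) -
      ∑ a ∈ E, ∑ b ∈ E.filter (fun b => b ≠ a ∧ d b = d a),
        (x a * x b) * ((c a ω * c b ω) * (r a ω' * r b ω')) := by linarith
  exact h8

end Pool.Agent.Twin
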