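import Mathlib

/-!
# Definitions for the twin theorem (MP_eb68d6_co)

A permutation is a finite set `P` of points of the plane `ℕ × ℕ` with distinct abscissas and distinct
ordinates.  A column strip of width `w` is `{p | p.1 / w = c}`, a column window of width `h` is
`{p | p.1 / h = i}`, a row window is `{p | p.2 / h = j}`.  A box is a pair of a column window and a row
window.
-/

set_option autoImplicit false

namespace Pool.Agent.Twin

/-- points -/
abbrev Pt := ℕ × ℕ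

/-- distinct abscissas and distinct ordinates -/
def IsPP (P : Finset Pt) : Prop :=
  Set.InjOn Prod.fst (P : Set Pt) ∧ Set.InjOn Prod.snd (P : Set Pt)

/-- a twin with at least `k` pairs -/
def HasTwin (P : Finset Pt) (k : ℕ) : Prop :=
  ∃ M : Finset (Pt × Pt), k ≤ M.card ∧ (∀ a ∈ M, a.1 ∈ P ∧ a.2 ∈ P) ∧
    (∀ a ∈ M, ∀ b ∈ M, (a.1.1 < b.1.1 ↔ a.2.1 < b.2.1) ∧ (a.1.2 < b.1.2 ↔ a.2.2 < b.2.2)) ∧
    ∀ a ∈ M, ∀ b ∈ M, a.1 ≠ b.2

theorem HasTwin.mono {P Q : Finset Pt} {k l : ℕ} (h : HasTwin P k) (hPQ : P ⊆ Q) (hl : l ≤ k) :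
    HasTwin Q l := by
  obtain ⟨M, h1, h2, h3, h4⟩ := h
  exact ⟨M, hl.trans h1, fun a ha => ⟨hPQ (h2 a ha).1, hPQ (h2 a ha).2⟩, h3, h4⟩

/-- exchange of rows and columns -/
def sw (P : Finset Pt) : Finset Pt := P.image Prod.swap

/-- exchange of rows and columns for pairs of points -/
def swG (G : Finset (Pt × Pt)) : Finset (Pt × Pt) := G.image fun a => (a.1.swap, a.2.swap)

/-- the box of `p` -/
def box (h : ℕ) (P : Finset Pt) (p : Pt) : Finset Pt :=
  P.filter fun p' => p'.1 / h = p.1 / h ∧ p'.2 / h = p.2 / h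

/-- pairs of points in the same box -/
def pairs2 (h : ℕ) (P : Finset Pt) : Finset (Pt × Pt) :=
  (P ×ˢ P).filter fun a => a.2.1 / h = a.1.1 / h ∧ a.2.2 / h = a.1.2 / h

/-- triples of points in the same box -/
def trip3 (h : ℕ) (P : Finset Pt) : Finset (Pt × Pt × Pt) :=
  (P ×ˢ P ×ˢ P).filter fun t =>
    (t.2.1.1 / h = t.1.1 / h ∧ t.2.1.2 / h = t.1.2 / h) ∧
      (t.2.2.1 / h = t.1.1 / h ∧ t.2.2.2 / h = t.1.2 / h)

/-- triples of distinct points of the same box without a pair in `G` -/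
def badT (h : ℕ) (P : Finset Pt) (G : Finset (Pt × Pt)) : Finset (Pt × Pt × Pt) :=
  (trip3 h P).filter fun t => (t.1 ≠ t.2.1 ∧ t.1 ≠ t.2.2 ∧ t.2.1 ≠ t.2.2) ∧
    ((t.1, t.2.1) ∉ G ∧ (t.1, t.2.2) ∉ G ∧ (t.2.1, t.2.2) ∉ G)

/-! ### Peeling -/

/-- pairs of points, one in the strip `c` and one in the strip `c'`, in the same box -/
def JJ (h w : ℕ) (P : Finset Pt) (c c' : ℕ) : Finset (Pt × Pt) :=
  (pairs2 h P).filter fun a => a.1.1 / w = c ∧ a.2.1 / w = c'

/-- chains of pairs: the substrips (of width `u`) increase strictly together -/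
def IsCh (u : ℕ) (C : Finset (Pt × Pt)) : Prop :=
  ∀ a ∈ C, ∀ b ∈ C, (a.1.1 / u < b.1.1 / u ↔ a.2.1 / u < b.2.1 / u) ∧
    (a.1.1 / u = b.1.1 / u → a = b)

/-- `K c c' m`, `m < M`, are disjoint chains of `JJ c c'`, and the rest has only short chains -/
structure Peeled (h w u M : ℕ) (P : Finset Pt) (K : ℕ → ℕ → ℕ → Finset (Pt × Pt)) : Prop where
  sub : ∀ c c' m, K c c' m ⊆ JJ h w P c c'
  ch : ∀ c c' m, IsCh u (K c c' m)
  disj : ∀ c c' m m', m ≠ m' → Disjoint (K c c' m) (K c c' m')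
  rest : ∀ c c', ∀ C : Finset (Pt × Pt),
    C ⊆ JJ h w P c c' \ (Finset.range M).biUnion (K c c') → IsCh u C →
      M * C.card ≤ (JJ h w P c c').card

/-- good pairs: peeled, in one of the two orders -/
def Gd (h w M : ℕ) (P : Finset Pt) (K : ℕ → ℕ → ℕ → Finset (Pt × Pt)) : Finset (Pt × Pt) :=
  (pairs2 h P).filter fun a =>
    (a.1.1 / w < a.2.1 / w ∧ a ∈ (Finset.range M).biUnion (K (a.1.1 / w) (a.2.1 / w))) ∨
    (a.2.1 / w < a.1.1 / w ∧ (a.2, a.1) ∈ (Finset.range M).biUnion (K (a.2.1 / w) (a.1.1 / w)))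

/-- sample space of one window: direction, mode, shift of substrips, shift of strips, number of the
chain -/
abbrev Om (k q M : ℕ) := Bool × Bool × Fin (k * q) × Fin k × Fin M

/-- the matching of substrips given by a sample, from left to right -/
def Fw (k q u M : ℕ) (K : ℕ → ℕ → ℕ → Finset (Pt × Pt)) (ω : Om k q M) (e e' : ℕ) : Prop :=
  e / (k * q) = e' / (k * q) ∧
    ((ω.2.1 = true ∧ e' = e + ω.2.2.1 + 1) ∨
      (ω.2.1 = false ∧ e' / q = e / q + ω.2.2.2.1 + 1 ∧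
        ∃ a ∈ K (e / q) (e' / q) ω.2.2.2.2, a.1.1 / u = e ∧ a.2.1 / u = e'))

/-- the matching of substrips given by a sample -/
def Mat (k q u M : ℕ) (K : ℕ → ℕ → ℕ → Finset (Pt × Pt)) (ω : Om k q M) (e e' : ℕ) : Prop :=
  (ω.1 = true ∧ Fw k q u M K ω e e') ∨ (ω.1 = false ∧ Fw k q u M K ω e' e)

/-! ### The properties of one side -/

open Classical in
/-- good pairs `G` and random matchings `Mt` of substrips: what is used of one side -/
structure Side (h u k q M : ℕ) (P : Finset Pt) (G : Finset (Pt × Pt))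
    (Mt : Om k q M → ℕ → ℕ → Prop) : Prop where
  mem : ∀ a ∈ G, a ∈ pairs2 h P ∧ a.1 ≠ a.2
  symm : ∀ a ∈ G, (a.2, a.1) ∈ G
  win : ∀ ω e e', Mt ω e e' → e / (k * q) = e' / (k * q)
  mono : ∀ ω e e' f f', e / (k * q) = f / (k * q) → Mt ω e e' → Mt ω f f' → (e < f ↔ e' < f')
  pop1 : ∀ a ∈ G, Fintype.card (Om k q M) ≤ 4 * (k * q) *
    (Finset.univ.filter fun ω => Mt ω (a.1.1 / u) (a.2.1 / u)).card
  pop2 : ∀ a ∈ G, Fintype.card (Om k q M) *
      (G.filter fun b => b.1.1 / u = a.1.1 / u ∧ b.2.1 / u = a.2.1 / u).card ≤ 4 * (k * M) *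
    (Finset.univ.filter fun ω => Mt ω (a.1.1 / u) (a.2.1 / u)).card
  trip : M ^ 3 * (badT h P G).card ≤ 18 * u * (q * u) ^ 2 * (trip3 h P).card

end Pool.Agent.Twin
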