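import Mathlib

/-!
# MODULE Twin/Es  (MP_eb68d6_co)

Erdős–Szekeres for three orders.

Proof.  For a pair of indices (`0 < 1`, `0 < 2`, `1 < 2`) and `i ∈ K` let `u i` be the largest size of a
subset `C ⊆ K` such that the two functions increase together on `C` and every element of `C` is `≤ i`
in the first (hence in both) of them, `i ∈ C`.  So `1 ≤ u i ≤ L`.  If `i ≠ j` in `K`, then for two of the
three functions `i` and `j` are ordered in the same way (three comparisons of distinct numbers, two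
of them agree), and then `u i ≠ u j` for that pair (`u i + 1 ≤ u j` if `i` is before `j`).  Hence
`i ↦ (u01 i, u02 i, u12 i)` is injective into a set with `L01 * L02 * L12` elements.

It is enough to prove first: for two functions `α`, `β`, injective on `K`, such that every subset of `K`
on which they increase together has at most `L` elements, there is `u : ι → ℕ` with `u i < L` for
`i ∈ K` and `u i < u j` whenever `i, j ∈ K`, `α i < α j` and `β i < β j`.
-/

set_option autoImplicit false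

namespace Pool.Agent.Twin

namespace EsAux

variable {α : Type*}

/-- the two labelings induce the same order on `T` -/
def Ch (f g : α → ℕ) (T : Finset α) : Prop := ∀ s ∈ T, ∀ t ∈ T, (f s < f t ↔ g s < g t)

open Classical in
/-- the largest size of a chain in `S` with maximum `s` -/
noncomputable def Lc (S : Finset α) (f g : α → ℕ) (s : α) : ℕ :=
  (S.powerset.filter (fun T => Ch f g T ∧ s ∈ T ∧ ∀ t ∈ T, f t ≤ f s)).sup Finset.card

theorem sing {S : Finset α} {f g : α → ℕ} {s : α} (hs : s ∈ S) :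
    ({s} : Finset α) ⊆ S ∧ Ch f g {s} ∧ s ∈ ({s} : Finset α) ∧ ∀ t ∈ ({s} : Finset α), f t ≤ f s := by
  refine ⟨by simpa using hs, ?_, by simp, ?_⟩
  · intro x hx y hy
    rw [Finset.mem_singleton] at hx hy
    subst hx; subst hy
    simp
  · intro t ht
    rw [Finset.mem_singleton] at ht
    rw [ht]

theorem le_Lc {S : Finset α} {f g : α → ℕ} {s : α} {T : Finset α} (h1 : T ⊆ S) (h2 : Ch f g T)
    (h3 : s ∈ T) (h4 : ∀ t ∈ T, f t ≤ f s) : T.card ≤ Lc S f g s := by
  classical
  unfold Lc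
  apply Finset.le_sup (f := Finset.card)
  rw [Finset.mem_filter, Finset.mem_powerset]
  exact ⟨h1, h2, h3, h4⟩

theorem Lc_pos {S : Finset α} {f g : α → ℕ} {s : α} (hs : s ∈ S) : 1 ≤ Lc S f g s := by
  obtain ⟨h1, h2, h3, h4⟩ := sing (f := f) (g := g) hs
  have := le_Lc h1 h2 h3 h4
  simpa using this

theorem Lc_le {S : Finset α} {f g : α → ℕ} {s : α} {l : ℕ}
    (h : ∀ T ⊆ S, Ch f g T → T.card ≤ l) : Lc S f g s ≤ l := by
  classical
  unfold Lc
  apply Finset.sup_le
  intro T hT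
  rw [Finset.mem_filter, Finset.mem_powerset] at hT
  exact h T hT.1 hT.2.1

theorem exists_Lc {S : Finset α} {f g : α → ℕ} {s : α} (hs : s ∈ S) :
    ∃ T ⊆ S, Ch f g T ∧ s ∈ T ∧ (∀ t ∈ T, f t ≤ f s) ∧ T.card = Lc S f g s := by
  classical
  obtain ⟨h1, h2, h3, h4⟩ := sing (f := f) (g := g) hs
  have hne : (S.powerset.filter (fun T => Ch f g T ∧ s ∈ T ∧ ∀ t ∈ T, f t ≤ f s)).Nonempty :=
    ⟨{s}, by rw [Finset.mem_filter, Finset.mem_powerset]; exact ⟨h1, h2, h3, h4⟩⟩
  obtain ⟨T, hT, he⟩ := Finset.exists_mem_eq_sup _ hne Finset.card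
  rw [Finset.mem_filter, Finset.mem_powerset] at hT
  refine ⟨T, hT.1, hT.2.1, hT.2.2.1, hT.2.2.2, ?_⟩
  unfold Lc
  convert he.symm using 2

theorem Lc_lt [DecidableEq α] {S : Finset α} {f g : α → ℕ}
    (hf : ∀ s ∈ S, ∀ t ∈ S, f s = f t → s = t) {s t : α} (hs : s ∈ S) (ht : t ∈ S)
    (h1 : f s < f t) (h2 : g s < g t) : Lc S f g s < Lc S f g t := by
  obtain ⟨T, hT, hch, hsT, hmax, hcard⟩ := exists_Lc (f := f) (g := g) hs
  have htT : t ∉ T := fun h => absurd (hmax t h) (by omega)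
  have hg : ∀ x ∈ T, g x ≤ g s := by
    intro x hx
    rcases Nat.lt_or_ge (f x) (f s) with h | h
    · exact ((hch x hx s hsT).mp h).le
    · have := hf x (hT hx) s hs (le_antisymm (hmax x hx) h)
      rw [this]
  have h3 : Ch f g (insert t T) := by
    intro x hx y hy
    rw [Finset.mem_insert] at hx hy
    rcases hx with rfl | hx <;> rcases hy with rfl | hy
    · simp
    · have e1 := hmax y hy
      have e2 := hg y hy
      constructor <;> intro h <;> omega
    · have e1 := hmax x hx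
      have e2 := hg x hx
      constructor <;> intro h <;> omega
    · exact hch x hx y hy
  have h4 : ∀ x ∈ insert t T, f x ≤ f t := by
    intro x hx
    rw [Finset.mem_insert] at hx
    rcases hx with rfl | hx
    · exact le_rfl
    · exact (hmax x hx).trans h1.le
  have h5 := le_Lc (Finset.insert_subset ht hT) h3 (Finset.mem_insert_self t T) h4
  rw [Finset.card_insert_of_notMem htT, hcard] at h5
  omega

theorem Lc_ne [DecidableEq α] {S : Finset α} {f g : α → ℕ}
    (hf : ∀ s ∈ S, ∀ t ∈ S, f s = f t → s = t) {s t : α} (hs : s ∈ S) (ht : t ∈ S)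
    (h : (f s < f t ∧ g s < g t) ∨ (f t < f s ∧ g t < g s)) : Lc S f g s ≠ Lc S f g t := by
  rcases h with h | h
  · exact (Lc_lt hf hs ht h.1 h.2).ne
  · exact (Lc_lt hf ht hs h.1 h.2).ne'

end EsAux

open EsAux in
theorem es3 {ι : Type*} [DecidableEq ι] (K : Finset ι) (α : Fin 3 → ι → ℕ)
    (hinj : ∀ s, Set.InjOn (α s) (K : Set ι)) (L01 L02 L12 : ℕ)
    (h01 : ∀ C ⊆ K, (∀ i ∈ C, ∀ j ∈ C, α 0 i < α 0 j ↔ α 1 i < α 1 j) → C.card ≤ L01)
    (h02 : ∀ C ⊆ K, (∀ i ∈ C, ∀ j ∈ C, α 0 i < α 0 j ↔ α 2 i < α 2 j) → C.card ≤ L02)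
    (h12 : ∀ C ⊆ K, (∀ i ∈ C, ∀ j ∈ C, α 1 i < α 1 j ↔ α 2 i < α 2 j) → C.card ≤ L12) :
    K.card ≤ L01 * L02 * L12 := by
  classical
  have hi : ∀ s, ∀ x ∈ K, ∀ y ∈ K, α s x = α s y → x = y := fun s x hx y hy h =>
    hinj s (Finset.mem_coe.2 hx) (Finset.mem_coe.2 hy) h
  have hcard : K.card ≤
      (Finset.range L01 ×ˢ (Finset.range L02 ×ˢ Finset.range L12)).card := by
    apply Finset.card_le_card_of_injOn
      (fun i => (Lc K (α 0) (α 1) i - 1, Lc K (α 0) (α 2) i - 1, Lc K (α 1) (α 2) i - 1))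
    · intro i hi0
      have hiK : i ∈ K := Finset.mem_coe.1 hi0
      have a1 := Lc_pos (f := α 0) (g := α 1) hiK
      have a2 := Lc_pos (f := α 0) (g := α 2) hiK
      have a3 := Lc_pos (f := α 1) (g := α 2) hiK
      have b1 := Lc_le (S := K) (s := i) h01
      have b2 := Lc_le (S := K) (s := i) h02
      have b3 := Lc_le (S := K) (s := i) h12
      rw [Finset.mem_coe, Finset.mem_product, Finset.mem_product, Finset.mem_range,
        Finset.mem_range, Finset.mem_range]
      dsimp only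
      refine ⟨?_, ?_, ?_⟩ <;> omega
    · intro x hx0 y hy0 hxy
      have hx : x ∈ K := Finset.mem_coe.1 hx0
      have hy : y ∈ K := Finset.mem_coe.1 hy0
      by_contra hne
      have n0 : α 0 x ≠ α 0 y := fun h => hne (hi 0 x hx y hy h)
      have n1 : α 1 x ≠ α 1 y := fun h => hne (hi 1 x hx y hy h)
      have n2 : α 2 x ≠ α 2 y := fun h => hne (hi 2 x hx y hy h)
      simp only [Prod.mk.injEq] at hxy
      obtain ⟨e1, e2, e3⟩ := hxy
      have a1 := Lc_pos (f := α 0) (g := α 1) hx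
      have a2 := Lc_pos (f := α 0) (g := α 2) hx
      have a3 := Lc_pos (f := α 1) (g := α 2) hx
      have c1 := Lc_pos (f := α 0) (g := α 1) hy
      have c2 := Lc_pos (f := α 0) (g := α 2) hy
      have c3 := Lc_pos (f := α 1) (g := α 2) hy
      rcases Nat.lt_or_gt_of_ne n0 with h0 | h0 <;> rcases Nat.lt_or_gt_of_ne n1 with h1 | h1 <;>
        rcases Nat.lt_or_gt_of_ne n2 with h2 | h2
      · exact Lc_ne (hi 0) hx hy (Or.inl ⟨h0, h1⟩) (by omega)
      · exact Lc_ne (hi 0) hx hy (Or.inl ⟨h0, h1⟩) (by omega)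
      · exact Lc_ne (hi 0) hx hy (Or.inl ⟨h0, h2⟩) (by omega)
      · exact Lc_ne (hi 1) hx hy (Or.inr ⟨h1, h2⟩) (by omega)
      · exact Lc_ne (hi 1) hx hy (Or.inl ⟨h1, h2⟩) (by omega)
      · exact Lc_ne (hi 0) hx hy (Or.inr ⟨h0, h2⟩) (by omega)
      · exact Lc_ne (hi 0) hx hy (Or.inr ⟨h0, h1⟩) (by omega)
      · exact Lc_ne (hi 0) hx hy (Or.inr ⟨h0, h1⟩) (by omega)
  rw [Finset.card_product, Finset.card_product, Finset.card_range, Finset.card_range,
    Finset.card_range] at hcard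
  rw [mul_assoc]
  exact hcard

/-- one of the three pairs of functions has a long chain -/
theorem es3' {ι : Type*} [DecidableEq ι] (K : Finset ι) (α : Fin 3 → ι → ℕ)
    (hinj : ∀ s, Set.InjOn (α s) (K : Set ι)) :
    ∃ s t : Fin 3, s ≠ t ∧ ∃ C ⊆ K, (∀ i ∈ C, ∀ j ∈ C, α s i < α s j ↔ α t i < α t j) ∧
      K.card ≤ C.card ^ 3 := by
  by_contra hcon
  push Not at hcon
  obtain ⟨L, hL⟩ : ∃ L : ℕ, L = ((Finset.range (K.card + 1)).filter fun l => l ^ 3 < K.card).sup id :=
    ⟨_, rfl⟩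
  have key : ∀ C ⊆ K, C.card ^ 3 < K.card → C.card ≤ L := by
    intro C hC h
    rw [hL]
    refine Finset.le_sup (f := id) (Finset.mem_filter.2 ⟨Finset.mem_range.2 ?_, h⟩)
    exact Nat.lt_succ_of_le (Finset.card_le_card hC)
  have h0 : 0 < K.card := by
    have := hcon 0 1 (by decide) ∅ (Finset.empty_subset _) (by simp)
    omega
  have hL3 : L ^ 3 < K.card := by
    have hne : ((Finset.range (K.card + 1)).filter fun l => l ^ 3 < K.card).Nonempty :=
      ⟨0, Finset.mem_filter.2 ⟨Finset.mem_range.2 (by omega), by simpa using h0⟩⟩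
    obtain ⟨l, hl, hle⟩ := Finset.exists_mem_eq_sup _ hne id
    rw [hL, hle]
    exact (Finset.mem_filter.1 hl).2
  have := es3 K α hinj L L L
    (fun C hC h => key C hC (hcon 0 1 (by decide) C hC h))
    (fun C hC h => key C hC (hcon 0 2 (by decide) C hC h))
    (fun C hC h => key C hC (hcon 1 2 (by decide) C hC h))
  have h3 : L * L * L = L ^ 3 := by ring
  omega

end Pool.Agent.Twin
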