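import Mathlib
import Pool.Agent.Twin.Defs
import Pool.Agent.Twin.Es

/-!
# MODULE Twin/BrSel  (MP_eb68d6_co)

The Bukh–Rudenko selection.  `R` is a set of pairs (column strip `c` of width `w`, row window `v` of
height `8 ^ t`); for each of them three points of `P` in the box are given.

Proof.  Induction on a set `W` of row windows: there is `Mf : Finset (Pt × Pt)` such that
(i) for `a ∈ Mf`: `a.1, a.2 ∈ P`, `a.1 ≠ a.2`, same column strip `a.1.1 / w = a.2.1 / w`, same row
window, and this row window is in `W`;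
(ii) different elements of `Mf` are in different column strips;
(iii) `a.1.2 < b.1.2 ↔ a.2.2 < b.2.2` for `a, b ∈ Mf`;
(iv) the number of the `r ∈ R` with `r.2 ∈ W` and `r.1` not a column strip of an element of `Mf` is at
most `4 ^ t * Mf.card`.
Step `W ∪ {v}`: let `D` be the set of the `c` with `(c, v) ∈ R`, not a strip of `Mf`.  Apply `es3'` to `D`
and `α s c = (tr (c, v) s).2` (injective on `D`: different strips, different points, different
ordinates): `s ≠ t'` and a chain `C ⊆ D` with `D.card ≤ C.card ^ 3`.  Add the pairs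
`(tr (c, v) s, tr (c, v) t')`, `c ∈ C`.  Since `D.card ≤ 8 ^ t` (the ordinates `(tr (c, v) 0).2` are
distinct and lie in an interval of length `8 ^ t`) we get
`D.card ^ 3 ≤ C.card ^ 3 * (8 ^ t) ^ 2 = (C.card * 4 ^ t) ^ 3`, so `D.card ≤ C.card * 4 ^ t`.
(iii): inside `v` from the chain; for different windows the order of the ordinates is the order of the
windows.
At the end (`W` = all windows) `R.card ≤ 4 ^ t * Mf.card + Mf.card * w`: a column strip contains at most
`w` points, so at most `w` of the pairs `r ∈ R` have `r.1 = c` (the points `tr r 0` are distinct for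
distinct `r`).
`Mf` is a twin: for `a ≠ b` in `Mf` the strips are different, so `a.1.1 < b.1.1 ↔ a.1.1 / w < b.1.1 / w ↔
a.2.1 < b.2.1`, and `a.1 ≠ b.2` (different strips, or `a = b` and (i)).
-/

set_option autoImplicit false

namespace Pool.Agent.Twin

lemma br_cube {b T H Hq : ℕ} (hHq : Hq ^ 3 = H ^ 2) (h1 : T ≤ b ^ 3) (h2 : T ≤ H) :
    T ≤ b * Hq := by
  have h3 : T ^ 3 ≤ (b * Hq) ^ 3 := by
    calc T ^ 3 = T * T ^ 2 := by ring
      _ ≤ b ^ 3 * H ^ 2 := Nat.mul_le_mul h1 (Nat.pow_le_pow_left h2 2)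
      _ = (b * Hq) ^ 3 := by rw [← hHq]; ring
  exact (Nat.pow_le_pow_iff_left (by norm_num)).mp h3

lemma br_ico {h c : ℕ} (hh : 0 < h) {x : ℕ} (hx : x / h = c) :
    x ∈ Finset.Ico (c * h) (c * h + h) := by
  rw [Finset.mem_Ico]
  have h1 := Nat.div_add_mod x h
  have h2 := Nat.mod_lt x hh
  rw [hx] at h1
  rw [Nat.mul_comm c h]
  omega

lemma br_core {w t : ℕ} {P : Finset Pt} (hP : IsPP P) (R : Finset (ℕ × ℕ))
    (tr : ℕ × ℕ → Fin 3 → Pt)
    (htr : ∀ r ∈ R, ∀ s, tr r s ∈ P ∧ (tr r s).1 / w = r.1 ∧ (tr r s).2 / 8 ^ t = r.2)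
    (W : Finset ℕ) :
    ∃ (B : Finset (ℕ × ℕ)) (ty : ℕ → Fin 3 × Fin 3), B ⊆ R ∧ (∀ r ∈ B, r.2 ∈ W) ∧
      (∀ v, (ty v).1 ≠ (ty v).2) ∧ (∀ r ∈ B, ∀ r' ∈ B, r.1 = r'.1 → r = r') ∧
      (∀ r ∈ B, ∀ r' ∈ B, r.2 = r'.2 → ((tr r (ty r.2).1).2 < (tr r' (ty r.2).1).2 ↔
        (tr r (ty r.2).2).2 < (tr r' (ty r.2).2).2)) ∧
      (R.filter fun r => r.2 ∈ W ∧ ∀ b ∈ B, b.1 ≠ r.1).card ≤ 4 ^ t * B.card := by
  have hinj2 : ∀ s, ∀ r ∈ R, ∀ r' ∈ R, (tr r s).2 = (tr r' s).2 → r = r' := by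
    intro s r hr r' hr' h
    have h1 : tr r s = tr r' s := hP.2 (htr r hr s).1 (htr r' hr' s).1 h
    have h2 : r.1 = r'.1 := by rw [← (htr r hr s).2.1, ← (htr r' hr' s).2.1, h1]
    have h3 : r.2 = r'.2 := by rw [← (htr r hr s).2.2, ← (htr r' hr' s).2.2, h1]
    exact Prod.ext h2 h3
  induction W using Finset.induction_on with
  | empty =>
    exact ⟨∅, fun _ => (0, 1), Finset.empty_subset _, by simp, fun _ => by simp, by simp, by simp,
      by simp⟩
  | insert v W hv ih =>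
    obtain ⟨B, ty, hBR, hBW, hty, hcol, hch, hcard⟩ := ih
    set D := R.filter fun r => r.2 = v ∧ ∀ b ∈ B, b.1 ≠ r.1 with hD
    have hDR : ∀ r ∈ D, r ∈ R ∧ r.2 = v ∧ ∀ b ∈ B, b.1 ≠ r.1 := fun r hr => by
      rw [hD, Finset.mem_filter] at hr
      exact hr
    obtain ⟨s, s', hss, C, hCD, hC, hCc⟩ := es3' D (fun s r => (tr r s).2) (by
      intro s r hr r' hr' h
      exact hinj2 s r (hDR r hr).1 r' (hDR r' hr').1 h)
    have hDc : D.card ≤ 8 ^ t := by
      have h1 : D.card ≤ (Finset.Ico (v * 8 ^ t) (v * 8 ^ t + 8 ^ t)).card := by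
        refine Finset.card_le_card_of_injOn (fun r => (tr r 0).2) ?_ ?_
        · intro r hr
          have hr' := hDR r hr
          exact br_ico (by positivity) ((htr r hr'.1 0).2.2.trans hr'.2.1)
        · intro r hr r' hr' h
          exact hinj2 0 r (hDR r hr).1 r' (hDR r' hr').1 h
      simpa using h1
    have hDc' : D.card ≤ C.card * 4 ^ t := by
      refine br_cube ?_ hCc hDc
      rw [← pow_mul, ← pow_mul]
      have : (4 : ℕ) ^ (t * 3) = (4 ^ 3) ^ t := by rw [← pow_mul, Nat.mul_comm]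
      rw [this]
      have : (8 : ℕ) ^ (t * 2) = (8 ^ 2) ^ t := by rw [← pow_mul, Nat.mul_comm]
      rw [this]
      norm_num
    have hCR : ∀ r ∈ C, r ∈ R ∧ r.2 = v ∧ ∀ b ∈ B, b.1 ≠ r.1 := fun r hr => hDR r (hCD hr)
    have hBv : ∀ r ∈ B, r.2 ≠ v := fun r hr h => hv (h ▸ hBW r hr)
    have hdis : Disjoint B C := by
      rw [Finset.disjoint_left]
      intro r hr hr'
      exact hBv r hr (hCR r hr').2.1
    refine ⟨B ∪ C, Function.update ty v (s, s'), ?_, ?_, ?_, ?_, ?_, ?_⟩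
    · intro r hr
      rcases Finset.mem_union.1 hr with h | h
      · exact hBR h
      · exact (hCR r h).1
    · intro r hr
      rcases Finset.mem_union.1 hr with h | h
      · exact Finset.mem_insert_of_mem (hBW r h)
      · rw [(hCR r h).2.1]
        exact Finset.mem_insert_self _ _
    · intro x
      by_cases hx : x = v
      · subst hx
        rw [Function.update_self]
        exact hss
      · rw [Function.update_of_ne hx]
        exact hty x
    · intro r hr r' hr' h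
      rcases Finset.mem_union.1 hr with h1 | h1 <;> rcases Finset.mem_union.1 hr' with h2 | h2
      · exact hcol r h1 r' h2 h
      · exact absurd h ((hCR r' h2).2.2 r h1)
      · exact absurd h.symm ((hCR r h1).2.2 r' h2)
      · exact Prod.ext h ((hCR r h1).2.1.trans (hCR r' h2).2.1.symm)
    · intro r hr r' hr' h
      rcases Finset.mem_union.1 hr with h1 | h1 <;> rcases Finset.mem_union.1 hr' with h2 | h2
      · rw [Function.update_of_ne (hBv r h1)]
        exact hch r h1 r' h2 h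
      · exact absurd (h.trans (hCR r' h2).2.1) (hBv r h1)
      · exact absurd (h.symm.trans (hCR r h1).2.1) (hBv r' h2)
      · rw [(hCR r h1).2.1, Function.update_self]
        exact hC r h1 r' h2
    · have hsub : (R.filter fun r => r.2 ∈ insert v W ∧ ∀ b ∈ B ∪ C, b.1 ≠ r.1) ⊆
          (R.filter fun r => r.2 ∈ W ∧ ∀ b ∈ B, b.1 ≠ r.1) ∪ D := by
        intro r hr
        rw [Finset.mem_filter] at hr
        obtain ⟨hrR, hrW, hrb⟩ := hr
        have hrb' : ∀ b ∈ B, b.1 ≠ r.1 := fun b hb => hrb b (Finset.mem_union_left _ hb)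
        rcases Finset.mem_insert.1 hrW with h | h
        · exact Finset.mem_union_right _ (by
            rw [hD, Finset.mem_filter]
            exact ⟨hrR, h, hrb'⟩)
        · exact Finset.mem_union_left _ (Finset.mem_filter.2 ⟨hrR, h, hrb'⟩)
      have h1 := (Finset.card_le_card hsub).trans (Finset.card_union_le _ _)
      rw [Finset.card_union_of_disjoint hdis, Nat.mul_add]
      have h2 : C.card * 4 ^ t = 4 ^ t * C.card := Nat.mul_comm _ _
      omega

theorem br_select {w t : ℕ} (hw : 0 < w) {P : Finset Pt} (hP : IsPP P) (R : Finset (ℕ × ℕ))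
    (tr : ℕ × ℕ → Fin 3 → Pt)
    (htr : ∀ r ∈ R, ∀ s, tr r s ∈ P ∧ (tr r s).1 / w = r.1 ∧ (tr r s).2 / 8 ^ t = r.2)
    (hinj : ∀ r ∈ R, Function.Injective (tr r)) :
    ∃ T, HasTwin P T ∧ R.card ≤ T * (4 ^ t + w) := by
  obtain ⟨B, ty, hBR, -, hty, hcol, hch, hcard⟩ := br_core hP R tr htr (R.image Prod.snd)
  have hinj1 : ∀ s, ∀ r ∈ R, ∀ r' ∈ R, (tr r s).1 = (tr r' s).1 → r = r' := by
    intro s r hr r' hr' h
    have h1 : tr r s = tr r' s := hP.1 (htr r hr s).1 (htr r' hr' s).1 h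
    have h2 : r.1 = r'.1 := by rw [← (htr r hr s).2.1, ← (htr r' hr' s).2.1, h1]
    have h3 : r.2 = r'.2 := by rw [← (htr r hr s).2.2, ← (htr r' hr' s).2.2, h1]
    exact Prod.ext h2 h3
  have hlt1 : ∀ r ∈ R, ∀ r' ∈ R, ∀ s s' : Fin 3, r.1 < r'.1 → (tr r s).1 < (tr r' s').1 := by
    intro r hr r' hr' s s' h
    by_contra hn
    have h1 : (tr r' s').1 / w ≤ (tr r s).1 / w := Nat.div_le_div_right (not_lt.mp hn)
    rw [(htr r hr s).2.1, (htr r' hr' s').2.1] at h1
    omega
  have hlt2 : ∀ r ∈ R, ∀ r' ∈ R, ∀ s s' : Fin 3, r.2 < r'.2 → (tr r s).2 < (tr r' s').2 := by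
    intro r hr r' hr' s s' h
    by_contra hn
    have h1 : (tr r' s').2 / 8 ^ t ≤ (tr r s).2 / 8 ^ t := Nat.div_le_div_right (not_lt.mp hn)
    rw [(htr r hr s).2.2, (htr r' hr' s').2.2] at h1
    omega
  have hBB : ∀ r ∈ B, ∀ r' ∈ B, ∀ s s' : Fin 3, tr r s = tr r' s' → r = r' := by
    intro r hr r' hr' s s' h
    apply hcol r hr r' hr'
    rw [← (htr r (hBR hr) s).2.1, ← (htr r' (hBR hr') s').2.1, h]
  refine ⟨B.card, ⟨B.image fun r => (tr r (ty r.2).1, tr r (ty r.2).2), ?_, ?_, ?_, ?_⟩, ?_⟩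
  · rw [Finset.card_image_of_injOn]
    intro r hr r' hr' h
    exact hBB r hr r' hr' _ _ (congrArg Prod.fst h)
  · intro a ha
    obtain ⟨r, hr, rfl⟩ := Finset.mem_image.1 ha
    exact ⟨(htr r (hBR hr) _).1, (htr r (hBR hr) _).1⟩
  · intro a ha b hb
    obtain ⟨r, hr, rfl⟩ := Finset.mem_image.1 ha
    obtain ⟨r', hr', rfl⟩ := Finset.mem_image.1 hb
    constructor
    · rcases lt_trichotomy r.1 r'.1 with h | h | h
      · exact ⟨fun _ => hlt1 r (hBR hr) r' (hBR hr') _ _ h,
          fun _ => hlt1 r (hBR hr) r' (hBR hr') _ _ h⟩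
      · have h1 := hcol r hr r' hr' h
        subst h1
        simp
      · exact ⟨fun hh => absurd hh (lt_asymm (hlt1 r' (hBR hr') r (hBR hr) _ _ h)),
          fun hh => absurd hh (lt_asymm (hlt1 r' (hBR hr') r (hBR hr) _ _ h))⟩
    · rcases lt_trichotomy r.2 r'.2 with h | h | h
      · exact ⟨fun _ => hlt2 r (hBR hr) r' (hBR hr') _ _ h,
          fun _ => hlt2 r (hBR hr) r' (hBR hr') _ _ h⟩
      · have h1 := hch r hr r' hr' h
        show (tr r (ty r.2).1).2 < (tr r' (ty r'.2).1).2 ↔ (tr r (ty r.2).2).2 < (tr r' (ty r'.2).2).2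
        rw [← h]
        exact h1
      · exact ⟨fun hh => absurd hh (lt_asymm (hlt2 r' (hBR hr') r (hBR hr) _ _ h)),
          fun hh => absurd hh (lt_asymm (hlt2 r' (hBR hr') r (hBR hr) _ _ h))⟩
  · intro a ha b hb h
    obtain ⟨r, hr, rfl⟩ := Finset.mem_image.1 ha
    obtain ⟨r', hr', rfl⟩ := Finset.mem_image.1 hb
    have h' : tr r (ty r.2).1 = tr r' (ty r'.2).2 := h
    have h1 := hBB r hr r' hr' _ _ h'
    subst h1
    exact hty r.2 (hinj r (hBR hr) h')
  · have h1 := Finset.card_filter_add_card_filter_not (s := R) (fun r => ∃ b ∈ B, b.1 = r.1)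
    have h2 : (R.filter (fun r => ∃ b ∈ B, b.1 = r.1)).card ≤ B.card * w := by
      have h3 : R.filter (fun r => ∃ b ∈ B, b.1 = r.1) ⊆
          B.biUnion (fun b => R.filter (fun r => r.1 = b.1)) := by
        intro r hr
        rw [Finset.mem_filter] at hr
        obtain ⟨h, b, hb, hc⟩ := hr
        rw [Finset.mem_biUnion]
        exact ⟨b, hb, Finset.mem_filter.mpr ⟨h, hc.symm⟩⟩
      refine (Finset.card_le_card h3).trans ?_
      refine Finset.card_biUnion_le_card_mul _ _ _ fun b _ => ?_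
      have h4 : (R.filter (fun r => r.1 = b.1)).card ≤
          (Finset.Ico (b.1 * w) (b.1 * w + w)).card := by
        refine Finset.card_le_card_of_injOn (fun r => (tr r 0).1) ?_ ?_
        · intro r hr
          have hr' := Finset.mem_filter.1 hr
          exact br_ico hw ((htr r hr'.1 0).2.1.trans hr'.2)
        · intro r hr r' hr' h
          exact hinj1 0 r (Finset.mem_filter.1 hr).1 r' (Finset.mem_filter.1 hr').1 h
      simpa using h4
    have h5 : (R.filter (fun r => ¬ ∃ b ∈ B, b.1 = r.1)).card ≤ 4 ^ t * B.card := by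
      refine le_trans (Finset.card_le_card ?_) hcard
      intro r hr
      rw [Finset.mem_filter] at hr ⊢
      exact ⟨hr.1, Finset.mem_image_of_mem _ hr.1, fun b hb h => hr.2 ⟨b, hb, h⟩⟩
    have h6 : B.card * (4 ^ t + w) = 4 ^ t * B.card + B.card * w := by ring
    omega

end Pool.Agent.Twin
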