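import Mathlib
import Pool.Agent.Twin.Defs
import Pool.Agent.Twin.BrSel

/-!
# MODULE Twin/Br  (MP_eb68d6_co)

Half of the points lie in few cells `4 ^ B × 8 ^ B`.

Proof.  Put `w = 4 ^ B`.  For `b ≤ B` the key of level `b` of `p` is `(p.1 / w, p.2 / 8 ^ (B - b))` and
`Rb = {p ∈ Q | at least 3 points of Q have the same key of level b as p}`.  `R0` misses at most
`2 * (number of keys) ≤ n / 4` points of `Q`, so `4 * R0.card ≥ n` (from `n ≤ 2 * Q.card`,
`8 * keys ≤ n`).  `RB = ∅`: the key of level `B` contains the ordinate.  `R(b+1) ⊆ Rb`.  Telescoping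
there is `b < B` with `4 * B * (Rb \ R(b+1)).card ≥ n`.  Let `R` be the set of the keys of level `b` of
the points of `Rb`.  Each such key splits into at most `8` keys of level `b + 1`
(`p.2 / 8 ^ (B - b) = p.2 / 8 ^ (B - b - 1) / 8`), and a key of level `b + 1` contains at most `2` points of
`Rb \ R(b+1)`; so `(Rb \ R(b+1)).card ≤ 16 * R.card` and `n ≤ 64 * B * R.card`.  For each key in `R` choose
three points of `Q` with this key and apply `br_select` with `t = B - b`:
`R.card ≤ T * (4 ^ (B - b) + 4 ^ B) ≤ T * (2 * 4 ^ B)`.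
-/

set_option autoImplicit false

namespace Pool.Agent.Twin

/-- the key of a point at the level `b` -/
def brKey (B b : ℕ) (p : Pt) : ℕ × ℕ := (p.1 / 4 ^ B, p.2 / 8 ^ (B - b))

/-- points of `Q` with the key `κ` -/
def brFib (B b : ℕ) (Q : Finset Pt) (κ : ℕ × ℕ) : Finset Pt := Q.filter fun q => brKey B b q = κ

/-- points whose key is the key of at least three points -/
def brR (B b : ℕ) (Q : Finset Pt) : Finset Pt :=
  Q.filter fun p => 3 ≤ (brFib B b Q (brKey B b p)).card

theorem brR_zero (B : ℕ) (Q : Finset Pt) :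
    Q.card ≤ (brR B 0 Q).card + 2 * (Q.image (brKey B 0)).card := by
  have h1 : (Q \ brR B 0 Q).card ≤ 2 * ((Q \ brR B 0 Q).image (brKey B 0)).card := by
    apply Finset.card_le_mul_card_image
    intro κ hκ
    obtain ⟨p, hp, rfl⟩ := Finset.mem_image.1 hκ
    obtain ⟨hp1, hp2⟩ := Finset.mem_sdiff.1 hp
    have h2 : ¬ 3 ≤ (brFib B 0 Q (brKey B 0 p)).card := fun h =>
      hp2 (Finset.mem_filter.2 ⟨hp1, h⟩)
    have h3 : ((Q \ brR B 0 Q).filter fun x => brKey B 0 x = brKey B 0 p).card ≤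
        (brFib B 0 Q (brKey B 0 p)).card := by
      apply Finset.card_le_card
      intro x hx
      obtain ⟨hx1, hx2⟩ := Finset.mem_filter.1 hx
      exact Finset.mem_filter.2 ⟨(Finset.mem_sdiff.1 hx1).1, hx2⟩
    omega
  have h2 : ((Q \ brR B 0 Q).image (brKey B 0)).card ≤ (Q.image (brKey B 0)).card :=
    Finset.card_le_card (Finset.image_subset_image Finset.sdiff_subset)
  have h3 : (Q \ brR B 0 Q).card + (brR B 0 Q).card = Q.card :=
    Finset.card_sdiff_add_card_eq_card (Finset.filter_subset _ _)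
  omega

theorem brR_top {B : ℕ} {P Q : Finset Pt} (hP : IsPP P) (hQ : Q ⊆ P) :
    (brR B B Q).card = 0 := by
  rw [Finset.card_eq_zero, Finset.eq_empty_iff_forall_notMem]
  intro p hp
  obtain ⟨hp1, hp2⟩ := Finset.mem_filter.1 hp
  have h1 : (brFib B B Q (brKey B B p)).card ≤ 1 := by
    rw [Finset.card_le_one]
    intro a ha b hb
    obtain ⟨ha1, ha2⟩ := Finset.mem_filter.1 ha
    obtain ⟨hb1, hb2⟩ := Finset.mem_filter.1 hb
    have h2 : a.2 = b.2 := by
      have h3 := congrArg Prod.snd (ha2.trans hb2.symm)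
      simpa [brKey] using h3
    exact hP.2 (hQ ha1) (hQ hb1) h2
  omega

theorem brR_tel (B : ℕ) (Q : Finset Pt) (m : ℕ) : (brR B 0 Q).card ≤
    ∑ b ∈ Finset.range m, (brR B b Q \ brR B (b + 1) Q).card + (brR B m Q).card := by
  induction m with
  | zero => simp
  | succ m ih =>
    rw [Finset.sum_range_succ]
    have h1 : (brR B m Q).card ≤ (brR B m Q \ brR B (m + 1) Q).card + (brR B (m + 1) Q).card := by
      have h2 := Finset.card_le_card (show brR B m Q ⊆
        (brR B m Q \ brR B (m + 1) Q) ∪ brR B (m + 1) Q by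
          rw [Finset.sdiff_union_self_eq_union]
          exact Finset.subset_union_left)
      exact h2.trans (Finset.card_union_le _ _)
    omega

theorem brR_step {B b : ℕ} (hb : b < B) (Q : Finset Pt) :
    (brR B b Q \ brR B (b + 1) Q).card ≤ 16 * ((brR B b Q).image (brKey B b)).card := by
  obtain ⟨S, hS⟩ : ∃ S, S = brR B b Q \ brR B (b + 1) Q := ⟨_, rfl⟩
  rw [← hS]
  have h1 : S.card ≤ 2 * (S.image (brKey B (b + 1))).card := by
    apply Finset.card_le_mul_card_image
    intro κ hκ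
    obtain ⟨p, hp, rfl⟩ := Finset.mem_image.1 hκ
    rw [hS] at hp
    obtain ⟨hp1, hp2⟩ := Finset.mem_sdiff.1 hp
    have hpQ : p ∈ Q := (Finset.mem_filter.1 hp1).1
    have h2 : ¬ 3 ≤ (brFib B (b + 1) Q (brKey B (b + 1) p)).card := fun h =>
      hp2 (Finset.mem_filter.2 ⟨hpQ, h⟩)
    have h3 : (S.filter fun x => brKey B (b + 1) x = brKey B (b + 1) p).card ≤
        (brFib B (b + 1) Q (brKey B (b + 1) p)).card := by
      apply Finset.card_le_card
      intro x hx
      obtain ⟨hx1, hx2⟩ := Finset.mem_filter.1 hx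
      rw [hS] at hx1
      exact Finset.mem_filter.2 ⟨(Finset.mem_filter.1 (Finset.mem_sdiff.1 hx1).1).1, hx2⟩
    omega
  have h2 : S.image (brKey B (b + 1)) ⊆
      (((brR B b Q).image (brKey B b)) ×ˢ Finset.range 8).image
        (fun x => (x.1.1, 8 * x.1.2 + x.2)) := by
    intro κ hκ
    obtain ⟨p, hp, rfl⟩ := Finset.mem_image.1 hκ
    rw [hS] at hp
    have hp1 := (Finset.mem_sdiff.1 hp).1
    refine Finset.mem_image.2 ⟨(brKey B b p, p.2 / 8 ^ (B - (b + 1)) % 8),
      Finset.mem_product.2 ⟨Finset.mem_image_of_mem _ hp1,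
        Finset.mem_range.2 (Nat.mod_lt _ (by norm_num))⟩, ?_⟩
    have h3 : B - b = B - (b + 1) + 1 := by omega
    have h4 : p.2 / 8 ^ (B - b) = p.2 / 8 ^ (B - (b + 1)) / 8 := by
      rw [h3, pow_succ, Nat.div_div_eq_div_mul]
    simp only [brKey, Prod.mk.injEq, true_and]
    rw [h4]
    exact Nat.div_add_mod _ _
  have h3 : (S.image (brKey B (b + 1))).card ≤ ((brR B b Q).image (brKey B b)).card * 8 := by
    refine (Finset.card_le_card h2).trans (Finset.card_image_le.trans ?_)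
    rw [Finset.card_product, Finset.card_range]
  omega

theorem brR_three {B b : ℕ} {Q : Finset Pt} (κ : ℕ × ℕ) (hκ : κ ∈ (brR B b Q).image (brKey B b)) :
    ∃ f : Fin 3 → Pt, Function.Injective f ∧ ∀ s, f s ∈ Q ∧ brKey B b (f s) = κ := by
  obtain ⟨p, hp, rfl⟩ := Finset.mem_image.1 hκ
  obtain ⟨hp1, hp2⟩ := Finset.mem_filter.1 hp
  obtain ⟨t, ht, ht3⟩ := Finset.exists_subset_card_eq hp2
  refine ⟨fun s => ((Finset.equivFinOfCardEq ht3).symm s : Pt), ?_, ?_⟩
  · exact Subtype.val_injective.comp (Equiv.injective _)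
  · intro s
    exact Finset.mem_filter.1 (ht ((Finset.equivFinOfCardEq ht3).symm s).2)

theorem br_twin {B n : ℕ} {P Q : Finset Pt} (hP : IsPP P) (hQ : Q ⊆ P) (hn : n ≤ 2 * Q.card)
    (hk : 8 * (Q.image fun p => (p.1 / 4 ^ B, p.2 / 8 ^ B)).card ≤ n) :
    ∃ T, HasTwin P T ∧ n ≤ 128 * B * 4 ^ B * T := by
  have k1 : (Q.image fun p => (p.1 / 4 ^ B, p.2 / 8 ^ B)) = Q.image (brKey B 0) := rfl
  rw [k1] at hk
  have h1 := brR_zero B Q
  have h2 := brR_top (B := B) hP hQ
  have h3 := brR_tel B Q B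
  rw [h2, add_zero] at h3
  rcases Nat.eq_zero_or_pos n with hn0 | hn0
  · refine ⟨0, ⟨∅, by simp, by simp, by simp, by simp⟩, ?_⟩
    omega
  have h4 : ∃ b ∈ Finset.range B, n ≤ 4 * B * (brR B b Q \ brR B (b + 1) Q).card := by
    by_contra hcon
    push Not at hcon
    have hB : 0 < B := by
      rcases Nat.eq_zero_or_pos B with hB | hB
      · exfalso
        subst hB
        simp only [Finset.range_zero, Finset.sum_empty] at h3
        omega
      · exact hB
    have h5 : ∑ b ∈ Finset.range B, 4 * B * (brR B b Q \ brR B (b + 1) Q).card <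
        ∑ _b ∈ Finset.range B, n :=
      Finset.sum_lt_sum_of_nonempty (Finset.nonempty_range_iff.2 hB.ne') hcon
    rw [← Finset.mul_sum, Finset.sum_const, Finset.card_range, smul_eq_mul] at h5
    have h6 : n ≤ 4 * (brR B 0 Q).card := by omega
    have h7 : B * n ≤ B * (4 * ∑ b ∈ Finset.range B, (brR B b Q \ brR B (b + 1) Q).card) :=
      Nat.mul_le_mul_left B (h6.trans (Nat.mul_le_mul_left 4 h3))
    have h8 : B * (4 * ∑ b ∈ Finset.range B, (brR B b Q \ brR B (b + 1) Q).card) =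
        4 * B * ∑ b ∈ Finset.range B, (brR B b Q \ brR B (b + 1) Q).card := by ring
    omega
  obtain ⟨b, hb, h5⟩ := h4
  have hbB := Finset.mem_range.1 hb
  have h6 := brR_step hbB Q
  obtain ⟨K, hK⟩ : ∃ K, K = (brR B b Q).image (brKey B b) := ⟨_, rfl⟩
  rw [← hK] at h6
  have hex : ∀ κ : ℕ × ℕ, ∃ f : Fin 3 → Pt, κ ∈ K →
      (Function.Injective f ∧ ∀ s, f s ∈ Q ∧ brKey B b (f s) = κ) := by
    intro κ
    by_cases h : κ ∈ K
    · rw [hK] at h
      obtain ⟨f, hf⟩ := brR_three κ h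
      exact ⟨f, fun _ => hf⟩
    · exact ⟨fun _ => (0, 0), fun h' => absurd h' h⟩
  choose tr htr using hex
  obtain ⟨T, hT, hT2⟩ := br_select (w := 4 ^ B) (t := B - b) (by positivity) hP K tr
    (fun r hr s => by
      obtain ⟨a1, a2⟩ := (htr r hr).2 s
      exact ⟨hQ a1, congrArg Prod.fst a2, congrArg Prod.snd a2⟩)
    (fun r hr => (htr r hr).1)
  refine ⟨T, hT, ?_⟩
  have h7 : 4 ^ (B - b) ≤ 4 ^ B := Nat.pow_le_pow_right (by norm_num) (Nat.sub_le _ _)
  have h8 : K.card ≤ T * (2 * 4 ^ B) := by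
    refine hT2.trans (Nat.mul_le_mul_left T ?_)
    omega
  calc n ≤ 4 * B * (brR B b Q \ brR B (b + 1) Q).card := h5
    _ ≤ 4 * B * (16 * (T * (2 * 4 ^ B))) :=
        Nat.mul_le_mul_left _ (h6.trans (Nat.mul_le_mul_left 16 h8))
    _ = 128 * B * 4 ^ B * T := by ring

end Pool.Agent.Twin
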