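import Mathlib

/-!
# MODULE Twin/Goodman  (MP_eb68d6_co)

Goodman's bound: a complete graph whose edges are coloured by two colours (`a`, `b`; the pairs of `G`
are not coloured) has many monochromatic triangles.

Proof.  Put `s u v = 1` if `u = v` or `(u, v) ∈ G` or `a u v`, else `s u v = -1`.  `s` is symmetric with
values `± 1`.  For signs `x y z`, `(1 + x y + y z + x z) / 4` is `1` if `x = y = z`, else `0`.  Sum over all
`(u, v, t) ∈ X³` of this expression with `x = s u v`, `y = s v t`, `z = s u t`: each of the three sums such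
as `∑ s u v * s v t = ∑_v (∑_u s u v)²` is `≥ 0` (symmetry), so the number of `(u, v, t)` with
`s u v = s v t = s u t` is at least `X.card ^ 3 / 4`.  Such a triple has two equal entries (at most
`3 * X.card ^ 2` triples), or one of its pairs in `G` (at most `3 * X.card * G'.card` with
`G' = (X ×ˢ X).filter (· ∈ G)`, using the symmetry of `G` for the pairs), or it is a triple of distinct
points without a pair in `G`, with all three pairs in `a` (sign `1`) or all three pairs not in `a`, hence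
in `b` by `hab` (sign `-1`).
-/

set_option autoImplicit false
set_option linter.all false

namespace Pool.Agent.Twin

open Classical in
/-- triples of distinct elements of `X` whose three pairs are in `r` -/
noncomputable def mono3 {α : Type*} (X : Finset α) (r : α → α → Prop) : Finset (α × α × α) :=
  (X ×ˢ X ×ˢ X).filter fun t => (t.1 ≠ t.2.1 ∧ t.1 ≠ t.2.2 ∧ t.2.1 ≠ t.2.2) ∧
    (r t.1 t.2.1 ∧ r t.1 t.2.2 ∧ r t.2.1 t.2.2)

theorem goodman_sum {α : Type*} (X : Finset α) (s : α → α → ℤ) (hs : ∀ u v, s u v = s v u) :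
    (X.card : ℤ) ^ 3 ≤ ∑ t ∈ X ×ˢ X ×ˢ X, (1 + s t.1 t.2.1 * s t.2.1 t.2.2 +
      s t.2.1 t.2.2 * s t.1 t.2.2 + s t.1 t.2.1 * s t.1 t.2.2) := by
  rw [Finset.sum_add_distrib, Finset.sum_add_distrib, Finset.sum_add_distrib]
  have h0 : ∑ t ∈ X ×ˢ X ×ˢ X, (1 : ℤ) = (X.card : ℤ) ^ 3 := by
    rw [Finset.sum_const, Finset.card_product, Finset.card_product]
    simp
    ring
  have h1 : 0 ≤ ∑ t ∈ X ×ˢ X ×ˢ X, s t.1 t.2.1 * s t.2.1 t.2.2 := by
    rw [Finset.sum_product, Finset.sum_congr rfl fun u _ => Finset.sum_product _ _ _,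
      Finset.sum_comm]
    apply Finset.sum_nonneg
    intro v _
    have e : ∑ u ∈ X, ∑ w ∈ X, s u v * s v w = (∑ u ∈ X, s u v) * (∑ u ∈ X, s u v) := by
      rw [Finset.sum_mul_sum]
      refine Finset.sum_congr rfl fun u _ => Finset.sum_congr rfl fun w _ => ?_
      rw [hs v w]
    rw [e]
    exact mul_self_nonneg _
  have h2 : 0 ≤ ∑ t ∈ X ×ˢ X ×ˢ X, s t.2.1 t.2.2 * s t.1 t.2.2 := by
    rw [Finset.sum_product, Finset.sum_congr rfl fun u _ => Finset.sum_product _ _ _,
      Finset.sum_congr rfl fun u _ => Finset.sum_comm, Finset.sum_comm]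
    apply Finset.sum_nonneg
    intro w _
    have e : ∑ u ∈ X, ∑ v ∈ X, s v w * s u w = (∑ u ∈ X, s u w) * (∑ u ∈ X, s u w) := by
      rw [Finset.sum_mul_sum]
      refine Finset.sum_congr rfl fun u _ => Finset.sum_congr rfl fun v _ => ?_
      rw [mul_comm]
    rw [e]
    exact mul_self_nonneg _
  have h3 : 0 ≤ ∑ t ∈ X ×ˢ X ×ˢ X, s t.1 t.2.1 * s t.1 t.2.2 := by
    rw [Finset.sum_product, Finset.sum_congr rfl fun u _ => Finset.sum_product _ _ _]
    apply Finset.sum_nonneg
    intro u _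
    have e : ∑ v ∈ X, ∑ w ∈ X, s u v * s u w = (∑ v ∈ X, s u v) * (∑ v ∈ X, s u v) := by
      rw [Finset.sum_mul_sum]
    rw [e]
    exact mul_self_nonneg _
  linarith

open Classical in
theorem goodman {α : Type*} (X : Finset α) (G : Finset (α × α)) (a b : α → α → Prop)
    (ha : ∀ u v, a u v → a v u) (hb : ∀ u v, b u v → b v u) (hG : ∀ u v, (u, v) ∈ G → (v, u) ∈ G)
    (hab : ∀ u ∈ X, ∀ v ∈ X, u ≠ v → (u, v) ∉ G → a u v ∨ b u v) :
    X.card ^ 3 ≤ 4 * ((mono3 X a).card + (mono3 X b).card) + 12 * X.card ^ 2 +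
      12 * X.card * ((X ×ˢ X).filter fun p => p ∈ G).card := by
  let s : α → α → ℤ := fun u v => if u = v ∨ (u, v) ∈ G ∨ a u v then 1 else -1
  have hsv : ∀ u v, s u v = 1 ∨ s u v = -1 := by
    intro u v
    simp only [s]
    split_ifs
    · exact Or.inl rfl
    · exact Or.inr rfl
  have hsym : ∀ u v, s u v = s v u := by
    intro u v
    have h : (u = v ∨ (u, v) ∈ G ∨ a u v) ↔ (v = u ∨ (v, u) ∈ G ∨ a v u) := by
      constructor
      · rintro (h | h | h)
        · exact Or.inl h.symm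
        · exact Or.inr (Or.inl (hG _ _ h))
        · exact Or.inr (Or.inr (ha _ _ h))
      · rintro (h | h | h)
        · exact Or.inl h.symm
        · exact Or.inr (Or.inl (hG _ _ h))
        · exact Or.inr (Or.inr (ha _ _ h))
    simp only [s]
    by_cases h1 : (u = v ∨ (u, v) ∈ G ∨ a u v)
    · rw [if_pos h1, if_pos (h.1 h1)]
    · rw [if_neg h1, if_neg (fun h2 => h1 (h.2 h2))]
  have hpos : ∀ u v, u ≠ v → (u, v) ∉ G → s u v = 1 → a u v := by
    intro u v huv hg h1
    simp only [s] at h1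
    by_contra hna
    rw [if_neg (by
      rintro (h | h | h)
      · exact huv h
      · exact hg h
      · exact hna h)] at h1
    norm_num at h1
  have hneg : ∀ u v, s u v = -1 → ¬ a u v := by
    intro u v h1 hau
    simp only [s] at h1
    rw [if_pos (Or.inr (Or.inr hau))] at h1
    norm_num at h1
  let N := (X ×ˢ X ×ˢ X).filter fun t => s t.1 t.2.1 = s t.2.1 t.2.2 ∧ s t.1 t.2.1 = s t.1 t.2.2
  have hN : (X.card : ℤ) ^ 3 ≤ 4 * (N.card : ℤ) := by
    refine (goodman_sum X s hsym).trans (le_of_eq ?_)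
    have e : (N.card : ℤ) = ∑ t ∈ X ×ˢ X ×ˢ X,
        (if s t.1 t.2.1 = s t.2.1 t.2.2 ∧ s t.1 t.2.1 = s t.1 t.2.2 then (1 : ℤ) else 0) := by
      rw [Finset.sum_boole]
    rw [e, Finset.mul_sum]
    refine Finset.sum_congr rfl fun t _ => ?_
    rcases hsv t.1 t.2.1 with h1 | h1 <;> rcases hsv t.2.1 t.2.2 with h2 | h2 <;>
      rcases hsv t.1 t.2.2 with h3 | h3 <;> rw [h1, h2, h3] <;> norm_num
  have hN' : X.card ^ 3 ≤ 4 * N.card := by exact_mod_cast hN
  let G' := (X ×ˢ X).filter fun p => p ∈ G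
  let E1 := (X ×ˢ X ×ˢ X).filter fun t => t.1 = t.2.1
  let E2 := (X ×ˢ X ×ˢ X).filter fun t => t.1 = t.2.2
  let E3 := (X ×ˢ X ×ˢ X).filter fun t => t.2.1 = t.2.2
  let G1 := (X ×ˢ X ×ˢ X).filter fun t => (t.1, t.2.1) ∈ G
  let G2 := (X ×ˢ X ×ˢ X).filter fun t => (t.1, t.2.2) ∈ G
  let G3 := (X ×ˢ X ×ˢ X).filter fun t => (t.2.1, t.2.2) ∈ G
  have cE1 : E1.card ≤ X.card ^ 2 := by
    rw [sq, ← Finset.card_product]
    apply Finset.card_le_card_of_injOn (fun t => (t.1, t.2.2))
    · intro t ht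
      have ht' := Finset.mem_coe.1 ht
      simp only [E1, Finset.mem_filter, Finset.mem_product] at ht'
      simp only [Finset.coe_product, Set.mem_prod, Finset.mem_coe]
      exact ⟨ht'.1.1, ht'.1.2.2⟩
    · intro t ht t' ht' h
      have h1 := (Finset.mem_filter.1 (Finset.mem_coe.1 ht)).2
      have h2 := (Finset.mem_filter.1 (Finset.mem_coe.1 ht')).2
      simp only [Prod.mk.injEq] at h
      refine Prod.ext h.1 (Prod.ext ?_ h.2)
      rw [← h1, ← h2]
      exact h.1
  have cE2 : E2.card ≤ X.card ^ 2 := by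
    rw [sq, ← Finset.card_product]
    apply Finset.card_le_card_of_injOn (fun t => (t.1, t.2.1))
    · intro t ht
      have ht' := Finset.mem_coe.1 ht
      simp only [E2, Finset.mem_filter, Finset.mem_product] at ht'
      simp only [Finset.coe_product, Set.mem_prod, Finset.mem_coe]
      exact ⟨ht'.1.1, ht'.1.2.1⟩
    · intro t ht t' ht' h
      have h1 := (Finset.mem_filter.1 (Finset.mem_coe.1 ht)).2
      have h2 := (Finset.mem_filter.1 (Finset.mem_coe.1 ht')).2
      simp only [Prod.mk.injEq] at h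
      refine Prod.ext h.1 (Prod.ext h.2 ?_)
      rw [← h1, ← h2]
      exact h.1
  have cE3 : E3.card ≤ X.card ^ 2 := by
    rw [sq, ← Finset.card_product]
    apply Finset.card_le_card_of_injOn (fun t => (t.1, t.2.1))
    · intro t ht
      have ht' := Finset.mem_coe.1 ht
      simp only [E3, Finset.mem_filter, Finset.mem_product] at ht'
      simp only [Finset.coe_product, Set.mem_prod, Finset.mem_coe]
      exact ⟨ht'.1.1, ht'.1.2.1⟩
    · intro t ht t' ht' h
      have h1 := (Finset.mem_filter.1 (Finset.mem_coe.1 ht)).2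
      have h2 := (Finset.mem_filter.1 (Finset.mem_coe.1 ht')).2
      simp only [Prod.mk.injEq] at h
      refine Prod.ext h.1 (Prod.ext h.2 ?_)
      rw [← h1, ← h2]
      exact h.2
  have cG1 : G1.card ≤ X.card * G'.card := by
    rw [mul_comm, ← Finset.card_product]
    apply Finset.card_le_card_of_injOn (fun t => ((t.1, t.2.1), t.2.2))
    · intro t ht
      have ht' := Finset.mem_coe.1 ht
      simp only [G1, Finset.mem_filter, Finset.mem_product] at ht'
      simp only [Finset.coe_product, Set.mem_prod, Finset.mem_coe, G', Finset.mem_filter,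
        Finset.mem_product]
      exact ⟨⟨⟨ht'.1.1, ht'.1.2.1⟩, ht'.2⟩, ht'.1.2.2⟩
    · intro t ht t' ht' h
      simp only [Prod.mk.injEq] at h
      exact Prod.ext h.1.1 (Prod.ext h.1.2 h.2)
  have cG2 : G2.card ≤ X.card * G'.card := by
    rw [mul_comm, ← Finset.card_product]
    apply Finset.card_le_card_of_injOn (fun t => ((t.1, t.2.2), t.2.1))
    · intro t ht
      have ht' := Finset.mem_coe.1 ht
      simp only [G2, Finset.mem_filter, Finset.mem_product] at ht'
      simp only [Finset.coe_product, Set.mem_prod, Finset.mem_coe, G', Finset.mem_filter,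
        Finset.mem_product]
      exact ⟨⟨⟨ht'.1.1, ht'.1.2.2⟩, ht'.2⟩, ht'.1.2.1⟩
    · intro t ht t' ht' h
      simp only [Prod.mk.injEq] at h
      exact Prod.ext h.1.1 (Prod.ext h.2 h.1.2)
  have cG3 : G3.card ≤ X.card * G'.card := by
    rw [mul_comm, ← Finset.card_product]
    apply Finset.card_le_card_of_injOn (fun t => ((t.2.1, t.2.2), t.1))
    · intro t ht
      have ht' := Finset.mem_coe.1 ht
      simp only [G3, Finset.mem_filter, Finset.mem_product] at ht'
      simp only [Finset.coe_product, Set.mem_prod, Finset.mem_coe, G', Finset.mem_filter,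
        Finset.mem_product]
      exact ⟨⟨⟨ht'.1.2.1, ht'.1.2.2⟩, ht'.2⟩, ht'.1.1⟩
    · intro t ht t' ht' h
      simp only [Prod.mk.injEq] at h
      exact Prod.ext h.2 (Prod.ext h.1.1 h.1.2)
  have hsub : N ⊆ (((E1 ∪ E2) ∪ (E3 ∪ G1)) ∪ (G2 ∪ G3)) ∪ (mono3 X a ∪ mono3 X b) := by
    intro t ht
    have ht1 : t ∈ X ×ˢ X ×ˢ X := (Finset.mem_filter.1 ht).1
    obtain ⟨ht2, ht3⟩ := (Finset.mem_filter.1 ht).2
    have htX := ht1
    simp only [Finset.mem_product] at htX
    by_cases e1 : t.1 = t.2.1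
    · have : t ∈ E1 := Finset.mem_filter.2 ⟨ht1, e1⟩
      simp only [Finset.mem_union]
      tauto
    by_cases e2 : t.1 = t.2.2
    · have : t ∈ E2 := Finset.mem_filter.2 ⟨ht1, e2⟩
      simp only [Finset.mem_union]
      tauto
    by_cases e3 : t.2.1 = t.2.2
    · have : t ∈ E3 := Finset.mem_filter.2 ⟨ht1, e3⟩
      simp only [Finset.mem_union]
      tauto
    by_cases g1 : (t.1, t.2.1) ∈ G
    · have : t ∈ G1 := Finset.mem_filter.2 ⟨ht1, g1⟩
      simp only [Finset.mem_union]
      tauto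
    by_cases g2 : (t.1, t.2.2) ∈ G
    · have : t ∈ G2 := Finset.mem_filter.2 ⟨ht1, g2⟩
      simp only [Finset.mem_union]
      tauto
    by_cases g3 : (t.2.1, t.2.2) ∈ G
    · have : t ∈ G3 := Finset.mem_filter.2 ⟨ht1, g3⟩
      simp only [Finset.mem_union]
      tauto
    rcases hsv t.1 t.2.1 with h1 | h1
    · have : t ∈ mono3 X a := by
        refine Finset.mem_filter.2 ⟨ht1, ⟨e1, e2, e3⟩, hpos _ _ e1 g1 h1, hpos _ _ e2 g2 ?_,
          hpos _ _ e3 g3 ?_⟩
        · rw [← ht3, h1]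
        · rw [← ht2, h1]
      simp only [Finset.mem_union]
      tauto
    · have : t ∈ mono3 X b := by
        refine Finset.mem_filter.2 ⟨ht1, ⟨e1, e2, e3⟩, ?_, ?_, ?_⟩
        · exact (hab _ htX.1 _ htX.2.1 e1 g1).resolve_left (hneg _ _ h1)
        · exact (hab _ htX.1 _ htX.2.2 e2 g2).resolve_left (hneg _ _ (by rw [← ht3, h1]))
        · exact (hab _ htX.2.1 _ htX.2.2 e3 g3).resolve_left (hneg _ _ (by rw [← ht2, h1]))
      simp only [Finset.mem_union]
      tauto
  have hcard := Finset.card_le_card hsub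
  have u1 := Finset.card_union_le (((E1 ∪ E2) ∪ (E3 ∪ G1)) ∪ (G2 ∪ G3)) (mono3 X a ∪ mono3 X b)
  have u2 := Finset.card_union_le ((E1 ∪ E2) ∪ (E3 ∪ G1)) (G2 ∪ G3)
  have u3 := Finset.card_union_le (E1 ∪ E2) (E3 ∪ G1)
  have u4 := Finset.card_union_le E1 E2
  have u5 := Finset.card_union_le E3 G1
  have u6 := Finset.card_union_le G2 G3
  have u7 := Finset.card_union_le (mono3 X a) (mono3 X b)
  change X.card ^ 3 ≤ 4 * ((mono3 X a).card + (mono3 X b).card) + 12 * X.card ^ 2 +
      12 * X.card * G'.card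
  have e : 12 * X.card * G'.card = 12 * (X.card * G'.card) := by ring
  rw [e]
  omega

end Pool.Agent.Twin
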