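import Mathlib
import Pool.Agent.Twin.Defs
import Pool.Agent.Twin.Goodman

/-!
# MODULE Twin/Cnt  (MP_eb68d6_co)

Many pairs are good for both sides.

Proof.  For a box `X = box h P p` with `N` points apply `goodman` to `G = Gc ∩ Gr`,
`a u v := (u, v) ∉ Gc`, `b u v := (u, v) ∉ Gr`:
`N ^ 3 ≤ 4 * (Ta + Tb) + 12 * N ^ 2 + 12 * N * E` where `Ta` (`Tb`) is the number of the triples of
`badT h P Gc` (`badT h P Gr`) in the box and `E` the number of the pairs of `G` in the box.  Since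
`N ≥ N0 ≥ 24`, `12 * N ^ 2 ≤ N ^ 3 / 2`, so `N ^ 2 / 2 ≤ 4 (Ta + Tb) / N + 12 E`, i.e.
`N ^ 2 ≤ 8 * (Ta + Tb) / N0 + 24 * E`.  Sum over the boxes (the sum over the distinct boxes, e.g. over
the image of `P` under `p ↦ (p.1 / h, p.2 / h)`; `∑ N ^ 2 = (pairs2 h P).card`,
`∑ N ^ 3 = (trip3 h P).card`): with `Π2`, `Π3` these numbers, `T` the number of bad triples for both
sides, `E` the number of the pairs of `Gc ∩ Gr`:
`N0 * Π2 ≤ 8 * T + 24 * N0 * E`, and `Π3 ≤ 2 * N0 * Π2`,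
`M ^ 3 * T ≤ 36 * u * w ^ 2 * Π3 ≤ M ^ 3 * Π3 / 32`, so `8 * T ≤ Π3 / 4 ≤ N0 * Π2 / 2` and
`Π2 / 2 ≤ 24 * E`.
-/

set_option autoImplicit false
set_option linter.unusedVariables false

namespace Pool.Agent.Twin

namespace CntAux

/-- the box number of a point -/
def key (h : ℕ) (p : Pt) : ℕ × ℕ := (p.1 / h, p.2 / h)

/-- the points of a box -/
def XX (h : ℕ) (P : Finset Pt) (κ : ℕ × ℕ) : Finset Pt := P.filter fun p => key h p = κ

theorem mem_XX {h : ℕ} {P : Finset Pt} {κ : ℕ × ℕ} {p : Pt} :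
    p ∈ XX h P κ ↔ p ∈ P ∧ key h p = κ := Finset.mem_filter

theorem key_eq {h : ℕ} {p p' : Pt} : key h p = key h p' ↔ p.1 / h = p'.1 / h ∧ p.2 / h = p'.2 / h :=
  Prod.mk.injEq _ _ _ _ ▸ Iff.rfl

theorem XX_key (h : ℕ) (P : Finset Pt) (p : Pt) : XX h P (key h p) = box h P p := by
  unfold XX box
  refine Finset.filter_congr fun q _ => ?_
  exact key_eq

theorem card_pairs2 (h : ℕ) (P : Finset Pt) :
    (pairs2 h P).card = ∑ κ ∈ P.image (key h), (XX h P κ).card ^ 2 := by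
  classical
  rw [Finset.card_eq_sum_card_fiberwise (f := fun a => key h a.1) (t := P.image (key h))]
  · refine Finset.sum_congr rfl fun κ _ => ?_
    rw [sq, ← Finset.card_product]
    congr 1
    ext a
    simp only [pairs2, Finset.mem_filter, Finset.mem_product, mem_XX]
    rw [← key_eq]
    constructor
    · rintro ⟨⟨⟨h1, h2⟩, h3⟩, h4⟩
      exact ⟨⟨h1, h4⟩, h2, h3.trans h4⟩
    · rintro ⟨⟨h1, h4⟩, h2, h3⟩
      exact ⟨⟨⟨h1, h2⟩, h3.trans h4.symm⟩, h4⟩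
  · intro a ha
    have h1 := Finset.mem_coe.1 ha
    simp only [pairs2, Finset.mem_filter, Finset.mem_product] at h1
    exact Finset.mem_coe.2 (Finset.mem_image_of_mem _ h1.1.1)

theorem card_trip3 (h : ℕ) (P : Finset Pt) :
    (trip3 h P).card = ∑ κ ∈ P.image (key h), (XX h P κ).card ^ 3 := by
  classical
  rw [Finset.card_eq_sum_card_fiberwise (f := fun a => key h a.1) (t := P.image (key h))]
  · refine Finset.sum_congr rfl fun κ _ => ?_
    have e : (XX h P κ).card ^ 3 = (XX h P κ ×ˢ XX h P κ ×ˢ XX h P κ).card := by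
      rw [Finset.card_product, Finset.card_product]
      ring
    rw [e]
    congr 1
    ext a
    simp only [trip3, Finset.mem_filter, Finset.mem_product, mem_XX]
    rw [← key_eq, ← key_eq]
    constructor
    · rintro ⟨⟨⟨h1, h2, h3⟩, h4, h5⟩, h6⟩
      exact ⟨⟨h1, h6⟩, ⟨h2, h4.trans h6⟩, h3, h5.trans h6⟩
    · rintro ⟨⟨h1, h6⟩, ⟨h2, h4⟩, h3, h5⟩
      exact ⟨⟨⟨h1, h2, h3⟩, h4.trans h6.symm, h5.trans h6.symm⟩, h6⟩
  · intro a ha
    have h1 := Finset.mem_coe.1 ha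
    simp only [trip3, Finset.mem_filter, Finset.mem_product] at h1
    exact Finset.mem_coe.2 (Finset.mem_image_of_mem _ h1.1.1)

theorem card_badT (h : ℕ) (P : Finset Pt) (G : Finset (Pt × Pt)) :
    ∑ κ ∈ P.image (key h), (mono3 (XX h P κ) (fun u v => (u, v) ∉ G)).card =
      (badT h P G).card := by
  classical
  rw [Finset.card_eq_sum_card_fiberwise (s := badT h P G) (f := fun a => key h a.1)
    (t := P.image (key h))]
  · refine Finset.sum_congr rfl fun κ _ => ?_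
    congr 1
    ext a
    simp only [badT, mono3, trip3, Finset.mem_filter, Finset.mem_product, mem_XX]
    rw [← key_eq, ← key_eq]
    constructor
    · rintro ⟨⟨⟨h1, h6⟩, ⟨h2, h4⟩, h3, h5⟩, h7⟩
      exact ⟨⟨⟨⟨h1, h2, h3⟩, h4.trans h6.symm, h5.trans h6.symm⟩, h7⟩, h6⟩
    · rintro ⟨⟨⟨⟨h1, h2, h3⟩, h4, h5⟩, h7⟩, h6⟩
      exact ⟨⟨⟨h1, h6⟩, ⟨h2, h4.trans h6⟩, h3, h5.trans h6⟩, h7⟩
  · intro a ha
    have h1 := Finset.mem_coe.1 ha
    simp only [badT, trip3, Finset.mem_filter, Finset.mem_product] at h1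
    exact Finset.mem_coe.2 (Finset.mem_image_of_mem _ h1.1.1.1)

open Classical in
theorem card_G (h : ℕ) (P : Finset Pt) (G : Finset (Pt × Pt)) (hG : ∀ a ∈ G, a ∈ pairs2 h P) :
    ∑ κ ∈ P.image (key h), ((XX h P κ ×ˢ XX h P κ).filter fun p => p ∈ G).card = G.card := by
  rw [Finset.card_eq_sum_card_fiberwise (s := G) (f := fun a => key h a.1)
    (t := P.image (key h))]
  · refine Finset.sum_congr rfl fun κ _ => ?_
    congr 1
    ext a
    simp only [Finset.mem_filter, Finset.mem_product, mem_XX]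
    constructor
    · rintro ⟨⟨⟨_, h2⟩, _⟩, h5⟩
      exact ⟨h5, h2⟩
    · rintro ⟨h5, h2⟩
      have h1 := hG a h5
      simp only [pairs2, Finset.mem_filter, Finset.mem_product] at h1
      rw [← key_eq] at h1
      exact ⟨⟨⟨h1.1.1, h2⟩, h1.1.2, h1.2.trans h2⟩, h5⟩
  · intro a ha
    have h1 := hG a (Finset.mem_coe.1 ha)
    simp only [pairs2, Finset.mem_filter, Finset.mem_product] at h1
    exact Finset.mem_coe.2 (Finset.mem_image_of_mem _ h1.1.1)

/-- the inequality in one box -/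
theorem one_box {N N0 T E : ℕ} (h24 : 24 ≤ N0) (hN : N0 ≤ N)
    (h : N ^ 3 ≤ 4 * T + 12 * N ^ 2 + 12 * N * E) : N0 * N ^ 2 ≤ 8 * T + 24 * N0 * E := by
  have h1 : 24 * N ^ 2 ≤ N ^ 3 := by
    have : N ^ 3 = N * N ^ 2 := by ring
    rw [this]
    exact Nat.mul_le_mul_right _ (h24.trans hN)
  have h2 : N ^ 3 ≤ 8 * T + 24 * (N * E) := by
    have e : 12 * N * E = 12 * (N * E) := by ring
    rw [e] at h
    omega
  have hN0 : 0 < N := by omega
  refine Nat.le_of_mul_le_mul_left (c := N) ?_ hN0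
  calc N * (N0 * N ^ 2) = N0 * N ^ 3 := by ring
    _ ≤ N0 * (8 * T + 24 * (N * E)) := Nat.mul_le_mul_left _ h2
    _ = N0 * (8 * T) + N * (24 * N0 * E) := by ring
    _ ≤ N * (8 * T) + N * (24 * N0 * E) := Nat.add_le_add_right (Nat.mul_le_mul_right _ hN) _
    _ = N * (8 * T + 24 * N0 * E) := by ring

end CntAux

open CntAux

theorem count_good {h M u w N0 : ℕ} {P : Finset Pt} {Gc Gr : Finset (Pt × Pt)} (hM : 0 < M)
    (hc : ∀ a ∈ Gc, a ∈ pairs2 h P ∧ a.1 ≠ a.2) (hcs : ∀ a ∈ Gc, (a.2, a.1) ∈ Gc)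
    (hr : ∀ a ∈ Gr, a ∈ pairs2 h P ∧ a.1 ≠ a.2) (hrs : ∀ a ∈ Gr, (a.2, a.1) ∈ Gr)
    (h24 : 24 ≤ N0) (hN : ∀ p ∈ P, N0 ≤ (box h P p).card ∧ (box h P p).card < 2 * N0)
    (hcb : M ^ 3 * (badT h P Gc).card ≤ 18 * u * w ^ 2 * (trip3 h P).card)
    (hrb : M ^ 3 * (badT h P Gr).card ≤ 18 * u * w ^ 2 * (trip3 h P).card)
    (hMM : 1152 * u * w ^ 2 ≤ M ^ 3) :
    (pairs2 h P).card ≤ 48 * (Gc ∩ Gr).card := by
  classical
  set G := Gc ∩ Gr with hG
  have hNκ : ∀ κ ∈ P.image (key h), N0 ≤ (XX h P κ).card ∧ (XX h P κ).card < 2 * N0 := by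
    intro κ hκ
    obtain ⟨p, hp, rfl⟩ := Finset.mem_image.1 hκ
    rw [XX_key]
    exact hN p hp
  set P2 := (pairs2 h P).card with hP2
  set P3 := (trip3 h P).card with hP3
  set Tc := (badT h P Gc).card with hTc
  set Tr := (badT h P Gr).card with hTr
  set E := G.card with hE
  have hsum : N0 * P2 ≤ 8 * (Tc + Tr) + 24 * N0 * E := by
    have e1 : N0 * P2 = ∑ κ ∈ P.image (key h), N0 * (XX h P κ).card ^ 2 := by
      rw [hP2, card_pairs2, Finset.mul_sum]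
    have e2 : 8 * (Tc + Tr) + 24 * N0 * E = ∑ κ ∈ P.image (key h),
        (8 * ((mono3 (XX h P κ) (fun u v => (u, v) ∉ Gc)).card +
          (mono3 (XX h P κ) (fun u v => (u, v) ∉ Gr)).card) +
          24 * N0 * ((XX h P κ ×ˢ XX h P κ).filter fun p => p ∈ G).card) := by
      rw [Finset.sum_add_distrib, ← Finset.mul_sum, ← Finset.mul_sum, Finset.sum_add_distrib,
        card_badT, card_badT, card_G h P G (fun a ha => (hc a (Finset.mem_inter.1 ha).1).1)]
    rw [e1, e2]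
    refine Finset.sum_le_sum fun κ hκ => ?_
    refine one_box h24 (hNκ κ hκ).1 ?_
    have hg := goodman (XX h P κ) G (fun u v => (u, v) ∉ Gc) (fun u v => (u, v) ∉ Gr) ?_ ?_ ?_ ?_
    · convert hg
    · intro a b hab hba
      exact hab (hcs _ hba)
    · intro a b hab hba
      exact hab (hrs _ hba)
    · intro a b hab
      rw [hG, Finset.mem_inter] at hab ⊢
      exact ⟨hcs _ hab.1, hrs _ hab.2⟩
    · intro a _ b _ _ hab
      rw [hG, Finset.mem_inter, not_and_or] at hab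
      exact hab
  have h3 : P3 ≤ 2 * N0 * P2 := by
    rw [hP3, hP2, card_pairs2, card_trip3, Finset.mul_sum]
    refine Finset.sum_le_sum fun κ hκ => ?_
    have e : (XX h P κ).card ^ 3 = (XX h P κ).card * (XX h P κ).card ^ 2 := by ring
    rw [e]
    exact Nat.mul_le_mul_right _ (hNκ κ hκ).2.le
  have hM3 : 0 < M ^ 3 := pow_pos hM 3
  have h4 : 32 * (Tc + Tr) ≤ P3 := by
    refine Nat.le_of_mul_le_mul_left (c := M ^ 3) ?_ hM3
    calc M ^ 3 * (32 * (Tc + Tr)) = 32 * (M ^ 3 * Tc + M ^ 3 * Tr) := by ring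
      _ ≤ 32 * (18 * u * w ^ 2 * P3 + 18 * u * w ^ 2 * P3) :=
        Nat.mul_le_mul_left _ (Nat.add_le_add hcb hrb)
      _ = 1152 * u * w ^ 2 * P3 := by ring
      _ ≤ M ^ 3 * P3 := Nat.mul_le_mul_right _ hMM
  have hN0 : 0 < N0 := by omega
  refine Nat.le_of_mul_le_mul_left (c := N0) ?_ hN0
  have e5 : 2 * N0 * P2 = 2 * (N0 * P2) := by ring
  have e6 : 24 * N0 * E = 24 * (N0 * E) := by ring
  have e7 : N0 * (48 * E) = 48 * (N0 * E) := by ring
  rw [e5] at h3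
  rw [e6] at hsum
  rw [e7]
  omega

end Pool.Agent.Twin
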