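import Mathlib
import Pool.Agent.Twin.Defs

/-!
# Exchange of rows and columns
-/

set_option autoImplicit false

namespace Pool.Agent.Twin

theorem mem_sw {P : Finset Pt} {p : Pt} : p ∈ sw P ↔ p.swap ∈ P := by
  unfold sw
  rw [Finset.mem_image]
  constructor
  · rintro ⟨a, ha, rfl⟩
    simpa using ha
  · intro h
    exact ⟨_, h, Prod.swap_swap _⟩

theorem mem_swG {G : Finset (Pt × Pt)} {a : Pt × Pt} : a ∈ swG G ↔ (a.1.swap, a.2.swap) ∈ G := by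
  unfold swG
  rw [Finset.mem_image]
  constructor
  · rintro ⟨b, hb, rfl⟩
    simpa using hb
  · intro h
    exact ⟨_, h, by simp⟩

theorem sw_sw (P : Finset Pt) : sw (sw P) = P := by
  ext p
  rw [mem_sw, mem_sw, Prod.swap_swap]

theorem IsPP.sw {P : Finset Pt} (h : IsPP P) : IsPP (sw P) := by
  refine ⟨fun p hp q hq hpq => ?_, fun p hp q hq hpq => ?_⟩
  · have h1 := h.2 (mem_sw.1 hp) (mem_sw.1 hq) hpq
    exact Prod.swap_injective h1
  · have h1 := h.1 (mem_sw.1 hp) (mem_sw.1 hq) hpq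
    exact Prod.swap_injective h1

theorem IsPP.subset {P Q : Finset Pt} (h : IsPP P) (hQ : Q ⊆ P) : IsPP Q :=
  ⟨h.1.mono (by exact_mod_cast hQ), h.2.mono (by exact_mod_cast hQ)⟩

theorem HasTwin.sw {P : Finset Pt} {k : ℕ} (h : HasTwin (sw P) k) : HasTwin P k := by
  obtain ⟨M, h1, h2, h3, h4⟩ := h
  refine ⟨swG M, ?_, fun a ha => ?_, fun a ha b hb => ?_, fun a ha b hb => ?_⟩
  · refine h1.trans (le_of_eq ?_)
    unfold swG
    rw [Finset.card_image_of_injective]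
    intro a b hab
    simp only [Prod.mk.injEq] at hab
    exact Prod.ext (Prod.swap_injective hab.1) (Prod.swap_injective hab.2)
  · have := h2 _ (mem_swG.1 ha)
    exact ⟨by simpa using mem_sw.1 this.1, by simpa using mem_sw.1 this.2⟩
  · have := h3 _ (mem_swG.1 ha) _ (mem_swG.1 hb)
    exact ⟨this.2, this.1⟩
  · have := h4 _ (mem_swG.1 ha) _ (mem_swG.1 hb)
    intro hab
    exact this (by rw [hab])

theorem card_sw (P : Finset Pt) : (sw P).card = P.card :=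
  Finset.card_image_of_injective _ Prod.swap_injective

theorem mem_pairs2 {h : ℕ} {P : Finset Pt} {a : Pt × Pt} : a ∈ pairs2 h P ↔
    (a.1 ∈ P ∧ a.2 ∈ P) ∧ (a.2.1 / h = a.1.1 / h ∧ a.2.2 / h = a.1.2 / h) := by
  unfold pairs2
  rw [Finset.mem_filter, Finset.mem_product]

theorem mem_trip3 {h : ℕ} {P : Finset Pt} {t : Pt × Pt × Pt} : t ∈ trip3 h P ↔
    (t.1 ∈ P ∧ t.2.1 ∈ P ∧ t.2.2 ∈ P) ∧
    ((t.2.1.1 / h = t.1.1 / h ∧ t.2.1.2 / h = t.1.2 / h) ∧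
      (t.2.2.1 / h = t.1.1 / h ∧ t.2.2.2 / h = t.1.2 / h)) := by
  unfold trip3
  rw [Finset.mem_filter, Finset.mem_product, Finset.mem_product]

theorem mem_badT {h : ℕ} {P : Finset Pt} {G : Finset (Pt × Pt)} {t : Pt × Pt × Pt} :
    t ∈ badT h P G ↔ t ∈ trip3 h P ∧ (t.1 ≠ t.2.1 ∧ t.1 ≠ t.2.2 ∧ t.2.1 ≠ t.2.2) ∧
    ((t.1, t.2.1) ∉ G ∧ (t.1, t.2.2) ∉ G ∧ (t.2.1, t.2.2) ∉ G) := by
  unfold badT
  rw [Finset.mem_filter]

/-- exchange of rows and columns for triples -/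
def sw3 (t : Pt × Pt × Pt) : Pt × Pt × Pt := (t.1.swap, t.2.1.swap, t.2.2.swap)

theorem sw3_sw3 (t : Pt × Pt × Pt) : sw3 (sw3 t) = t := by
  obtain ⟨⟨a, b⟩, ⟨c, d⟩, ⟨e, f⟩⟩ := t
  rfl

theorem sw3_mem_trip3 {h : ℕ} {P : Finset Pt} {t : Pt × Pt × Pt} :
    sw3 t ∈ trip3 h P ↔ t ∈ trip3 h (sw P) := by
  rw [mem_trip3, mem_trip3, mem_sw, mem_sw, mem_sw]
  simp only [sw3, Prod.fst_swap, Prod.snd_swap]
  tauto

theorem card_trip3_sw (h : ℕ) (P : Finset Pt) : (trip3 h (sw P)).card = (trip3 h P).card := by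
  refine Finset.card_bij' (fun t _ => sw3 t) (fun t _ => sw3 t) ?_ ?_ ?_ ?_
  · intro t ht
    exact sw3_mem_trip3.2 ht
  · intro t ht
    refine sw3_mem_trip3.1 ?_
    rwa [sw3_sw3]
  · intro t _
    exact sw3_sw3 t
  · intro t _
    exact sw3_sw3 t

theorem sw3_mem_badT {h : ℕ} {P : Finset Pt} {G : Finset (Pt × Pt)} {t : Pt × Pt × Pt} :
    sw3 t ∈ badT h P (swG G) ↔ t ∈ badT h (sw P) G := by
  rw [mem_badT, mem_badT, sw3_mem_trip3, mem_swG, mem_swG, mem_swG]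
  simp only [sw3, Prod.swap_swap, ne_eq, Prod.swap_inj]

theorem card_badT_sw (h : ℕ) (P : Finset Pt) (G : Finset (Pt × Pt)) :
    (badT h (sw P) G).card = (badT h P (swG G)).card := by
  refine Finset.card_bij' (fun t _ => sw3 t) (fun t _ => sw3 t) ?_ ?_ ?_ ?_
  · intro t ht
    exact sw3_mem_badT.2 ht
  · intro t ht
    refine sw3_mem_badT.1 ?_
    rwa [sw3_sw3]
  · intro t _
    exact sw3_sw3 t
  · intro t _
    exact sw3_sw3 t

theorem swG_mem {h : ℕ} {P : Finset Pt} {G : Finset (Pt × Pt)}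
    (hG : ∀ a ∈ G, a ∈ pairs2 h (sw P) ∧ a.1 ≠ a.2) (a : Pt × Pt) (ha : a ∈ swG G) :
    a ∈ pairs2 h P ∧ a.1 ≠ a.2 := by
  obtain ⟨h1, h2⟩ := hG _ (mem_swG.1 ha)
  rw [mem_pairs2] at h1 ⊢
  simp only [mem_sw, Prod.swap_swap, Prod.fst_swap, Prod.snd_swap] at h1
  refine ⟨⟨h1.1, h1.2.2, h1.2.1⟩, fun h => h2 ?_⟩
  simp only
  rw [h]

theorem swG_symm {G : Finset (Pt × Pt)} (hG : ∀ a ∈ G, (a.2, a.1) ∈ G) (a : Pt × Pt)
    (ha : a ∈ swG G) : (a.2, a.1) ∈ swG G := by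
  rw [mem_swG] at ha ⊢
  exact hG _ ha

end Pool.Agent.Twin
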