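import Mathlib
import Pool.Agent.Twin.Defs
import Pool.Agent.Twin.Swap

/-!
# MODULE Twin/CombA  (MP_eb68d6_co)

Matched edges and twins.  Windows have width `k * q * u`, strips `q * u`, substrips `u`;
`x / (k * q * u) = x / u / (k * q)` and `x / (q * u) = x / u / q` (`Nat.div_div_eq_div_mul`).

Proofs.
* `matched_key`: `a.1`, `b.1` are in the same window (their substrips are equal), so both edges are
  matched by the same sample `ωc i`; by `Side.mono` (applied twice, once with the roles exchanged)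
  neither `a.2.1 / u < b.2.1 / u` nor `>`.
* `matched_inj1`: by `matched_key` `a.2.1 / u = b.2.1 / u`, so `a.2`, `b.2` are in the same strip; they are in
  the row window of `a.1 = b.1` (`Sc.mem`, `mem_pairs2`); `hb1`.
* `matched_inj2`: `a.1`, `b.1` are in the box of `a.2 = b.2`; by `Side.mono` their substrips are equal
  (`a.1.1 / u < b.1.1 / u ↔ a.2.1 / u < b.2.1 / u`), so the strips too; `hb1`.
* `twin_of_indep`: `M = I`.  For `a ≠ b` in `I`: `a.1.1 / u ≠ b.1.1 / u` (else `ek u a = ek u b` by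
  `matched_key`).  If `a.1`, `b.1` are in different column windows, then (the points of an edge are in the
  same window) `a.1.1 < b.1.1 ↔ window a < window b ↔ a.2.1 < b.2.1`.  If the windows are equal, `Side.mono`
  for `(a, b)` and `(b, a)`: `a.1.1 / u < b.1.1 / u ↔ a.2.1 / u < b.2.1 / u` and the other way round; the
  substrips of `a.1`, `b.1` differ, hence those of `a.2`, `b.2` differ, and the order of the
  abscissas is the order of the substrips.  Rows: the same with `Sr`, for `(a.1.swap, a.2.swap) ∈ Gr`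
  (`mem_swG`), `dk u a ≠ dk u b`.  `a = b`: trivial.  Disjointness: hypothesis `hI` and `Sc.mem`.
-/

set_option autoImplicit false

namespace Pool.Agent.Twin

/-- column substrips of an edge -/
def ek (u : ℕ) (a : Pt × Pt) : ℕ × ℕ := (a.1.1 / u, a.2.1 / u)

/-- row substrips of an edge -/
def dk (u : ℕ) (a : Pt × Pt) : ℕ × ℕ := (a.1.2 / u, a.2.2 / u)

/-- the edge `a` is matched by the samples `ωc i`, `ωr j` of its windows -/
def Matched {k q M : ℕ} (u : ℕ) (Gc Gr : Finset (Pt × Pt)) (Mc Mr : Om k q M → ℕ → ℕ → Prop)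
    (ωc ωr : ℕ → Om k q M) (a : Pt × Pt) : Prop :=
  (a ∈ Gc ∧ a ∈ swG Gr) ∧ Mc (ωc (a.1.1 / (k * q * u))) (a.1.1 / u) (a.2.1 / u) ∧
    Mr (ωr (a.1.2 / (k * q * u))) (a.1.2 / u) (a.2.2 / u)

theorem div_win (k q u x : ℕ) : x / (k * q * u) = x / u / (k * q) := by
  rw [Nat.div_div_eq_div_mul, Nat.mul_comm u]

theorem div_strip (q u x : ℕ) : x / (q * u) = x / u / q := by
  rw [Nat.div_div_eq_div_mul, Nat.mul_comm u]

theorem lt_iff_div {w x y : ℕ} (h : x / w ≠ y / w) : x < y ↔ x / w < y / w := by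
  constructor
  · intro h1
    exact lt_of_le_of_ne (Nat.div_le_div_right h1.le) h
  · intro h1
    by_contra h2
    push Not at h2
    have := Nat.div_le_div_right (c := w) h2
    omega

theorem order_aux {H u x1 x2 y1 y2 : ℕ} (hx : x1 / H = x2 / H) (hy : y1 / H = y2 / H)
    (h : x1 / H = y1 / H → (x1 / u < y1 / u ↔ x2 / u < y2 / u) ∧
      (y1 / u < x1 / u ↔ y2 / u < x2 / u))
    (hne : (x1 / u, x2 / u) ≠ (y1 / u, y2 / u)) : x1 < y1 ↔ x2 < y2 := by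
  by_cases hw : x1 / H = y1 / H
  · obtain ⟨h1, h2⟩ := h hw
    have h3 : x1 / u ≠ y1 / u := by
      intro h4
      apply hne
      rw [Prod.mk.injEq]
      refine ⟨h4, ?_⟩
      omega
    have h5 : x2 / u ≠ y2 / u := by omega
    rw [lt_iff_div h3, lt_iff_div h5]
    exact h1
  · have hw2 : x2 / H ≠ y2 / H := by omega
    rw [lt_iff_div hw, lt_iff_div hw2, hx, hy]

variable {k q u M : ℕ} {P : Finset Pt} {Gc Gr : Finset (Pt × Pt)}
  {Mc Mr : Om k q M → ℕ → ℕ → Prop} {ωc ωr : ℕ → Om k q M}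

theorem mono_c (Sc : Side (k * q * u) u k q M P Gc Mc) {a b : Pt × Pt}
    (ha : Matched u Gc Gr Mc Mr ωc ωr a) (hb : Matched u Gc Gr Mc Mr ωc ωr b)
    (h : a.1.1 / (k * q * u) = b.1.1 / (k * q * u)) :
    a.1.1 / u < b.1.1 / u ↔ a.2.1 / u < b.2.1 / u := by
  have h1 := ha.2.1
  have h2 := hb.2.1
  rw [← h] at h2
  rw [div_win, div_win] at h
  exact Sc.mono _ _ _ _ _ h h1 h2

theorem mono_r (Sr : Side (k * q * u) u k q M (sw P) Gr Mr) {a b : Pt × Pt}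
    (ha : Matched u Gc Gr Mc Mr ωc ωr a) (hb : Matched u Gc Gr Mc Mr ωc ωr b)
    (h : a.1.2 / (k * q * u) = b.1.2 / (k * q * u)) :
    a.1.2 / u < b.1.2 / u ↔ a.2.2 / u < b.2.2 / u := by
  have h1 := ha.2.2
  have h2 := hb.2.2
  rw [← h] at h2
  rw [div_win, div_win] at h
  exact Sr.mono _ _ _ _ _ h h1 h2

theorem matched_mem (Sc : Side (k * q * u) u k q M P Gc Mc) {a : Pt × Pt}
    (ha : Matched u Gc Gr Mc Mr ωc ωr a) :
    ((a.1 ∈ P ∧ a.2 ∈ P) ∧ (a.2.1 / (k * q * u) = a.1.1 / (k * q * u) ∧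
      a.2.2 / (k * q * u) = a.1.2 / (k * q * u))) ∧ a.1 ≠ a.2 := by
  obtain ⟨h1, h2⟩ := Sc.mem a ha.1.1
  exact ⟨mem_pairs2.1 h1, h2⟩

theorem matched_key (hu : 0 < u) (hk : 0 < k) (hq : 0 < q)
    (Sc : Side (k * q * u) u k q M P Gc Mc) {a b : Pt × Pt}
    (ha : Matched u Gc Gr Mc Mr ωc ωr a) (hb : Matched u Gc Gr Mc Mr ωc ωr b)
    (h : a.1.1 / u = b.1.1 / u) : ek u a = ek u b := by
  have hw : a.1.1 / (k * q * u) = b.1.1 / (k * q * u) := by rw [div_win, div_win, h]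
  have h1 := mono_c Sc ha hb hw
  have h2 := mono_c Sc hb ha hw.symm
  unfold ek
  rw [Prod.mk.injEq]
  refine ⟨h, ?_⟩
  omega

theorem matched_key' (hu : 0 < u) (hk : 0 < k) (hq : 0 < q)
    (Sr : Side (k * q * u) u k q M (sw P) Gr Mr) {a b : Pt × Pt}
    (ha : Matched u Gc Gr Mc Mr ωc ωr a) (hb : Matched u Gc Gr Mc Mr ωc ωr b)
    (h : a.1.2 / u = b.1.2 / u) : dk u a = dk u b := by
  have hw : a.1.2 / (k * q * u) = b.1.2 / (k * q * u) := by rw [div_win, div_win, h]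
  have h1 := mono_r Sr ha hb hw
  have h2 := mono_r Sr hb ha hw.symm
  unfold dk
  rw [Prod.mk.injEq]
  refine ⟨h, ?_⟩
  omega

theorem matched_inj1 (hu : 0 < u) (hk : 0 < k) (hq : 0 < q)
    (hb1 : ∀ p ∈ P, ∀ p' ∈ P, p.1 / (q * u) = p'.1 / (q * u) →
      p.2 / (k * q * u) = p'.2 / (k * q * u) → p = p')
    (Sc : Side (k * q * u) u k q M P Gc Mc) {a b : Pt × Pt}
    (ha : Matched u Gc Gr Mc Mr ωc ωr a) (hb : Matched u Gc Gr Mc Mr ωc ωr b)
    (h : a.1 = b.1) : a = b := by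
  have h1 := matched_key hu hk hq Sc ha hb (by rw [h])
  unfold ek at h1
  rw [Prod.mk.injEq] at h1
  obtain ⟨⟨ma, ma'⟩, ⟨wa, wa'⟩, -⟩ : _ ∧ _ ∧ _ := ⟨(matched_mem Sc ha).1.1,
    (matched_mem Sc ha).1.2, (matched_mem Sc ha).2⟩
  obtain ⟨⟨mb, mb'⟩, ⟨wb, wb'⟩, -⟩ : _ ∧ _ ∧ _ := ⟨(matched_mem Sc hb).1.1,
    (matched_mem Sc hb).1.2, (matched_mem Sc hb).2⟩
  refine Prod.ext h (hb1 _ ma' _ mb' ?_ ?_)
  · rw [div_strip, div_strip, h1.2]
  · rw [wa', wb', h]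

theorem matched_inj2 (hu : 0 < u) (hk : 0 < k) (hq : 0 < q)
    (hb1 : ∀ p ∈ P, ∀ p' ∈ P, p.1 / (q * u) = p'.1 / (q * u) →
      p.2 / (k * q * u) = p'.2 / (k * q * u) → p = p')
    (Sc : Side (k * q * u) u k q M P Gc Mc) {a b : Pt × Pt}
    (ha : Matched u Gc Gr Mc Mr ωc ωr a) (hb : Matched u Gc Gr Mc Mr ωc ωr b)
    (h : a.2 = b.2) : a = b := by
  obtain ⟨⟨ma, ma'⟩, ⟨wa, wa'⟩, -⟩ : _ ∧ _ ∧ _ := ⟨(matched_mem Sc ha).1.1,
    (matched_mem Sc ha).1.2, (matched_mem Sc ha).2⟩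
  obtain ⟨⟨mb, mb'⟩, ⟨wb, wb'⟩, -⟩ : _ ∧ _ ∧ _ := ⟨(matched_mem Sc hb).1.1,
    (matched_mem Sc hb).1.2, (matched_mem Sc hb).2⟩
  have hw : a.1.1 / (k * q * u) = b.1.1 / (k * q * u) := by rw [← wa, ← wb, h]
  have h1 := mono_c Sc ha hb hw
  have h2 := mono_c Sc hb ha hw.symm
  rw [h] at h1 h2
  have h3 : a.1.1 / u = b.1.1 / u := by omega
  refine Prod.ext (hb1 _ ma _ mb ?_ ?_) h
  · rw [div_strip, div_strip, h3]
  · rw [← wa', ← wb', h]

theorem twin_of_indep (hu : 0 < u) (hk : 0 < k) (hq : 0 < q)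
    (Sc : Side (k * q * u) u k q M P Gc Mc) (Sr : Side (k * q * u) u k q M (sw P) Gr Mr)
    (I : Finset (Pt × Pt)) (hM : ∀ a ∈ I, Matched u Gc Gr Mc Mr ωc ωr a)
    (hI : ∀ a ∈ I, ∀ b ∈ I, a ≠ b →
      ek u a ≠ ek u b ∧ dk u a ≠ dk u b ∧ a.2 ≠ b.1 ∧ a.1 ≠ b.2) : HasTwin P I.card := by
  refine ⟨I, le_rfl, fun a ha => (matched_mem Sc (hM a ha)).1.1, fun a ha b hb => ?_,
    fun a ha b hb => ?_⟩
  · by_cases hab : a = b
    · rw [hab]
      exact ⟨⟨fun h => absurd h (lt_irrefl _), fun h => absurd h (lt_irrefl _)⟩,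
        ⟨fun h => absurd h (lt_irrefl _), fun h => absurd h (lt_irrefl _)⟩⟩
    · obtain ⟨h1, h2, -, -⟩ := hI a ha b hb hab
      obtain ⟨wa, wa'⟩ := (matched_mem Sc (hM a ha)).1.2
      obtain ⟨wb, wb'⟩ := (matched_mem Sc (hM b hb)).1.2
      exact ⟨order_aux wa.symm wb.symm (fun hw => ⟨mono_c Sc (hM a ha) (hM b hb) hw,
          mono_c Sc (hM b hb) (hM a ha) hw.symm⟩) h1,
        order_aux wa'.symm wb'.symm (fun hw => ⟨mono_r Sr (hM a ha) (hM b hb) hw,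
          mono_r Sr (hM b hb) (hM a ha) hw.symm⟩) h2⟩
  · by_cases hab : a = b
    · rw [hab]
      exact (matched_mem Sc (hM b hb)).2
    · exact (hI a ha b hb hab).2.2.2

end Pool.Agent.Twin
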