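import Mathlib
import Pool.Agent.Twin.Defs
import Pool.Agent.Twin.Swap
import Pool.Agent.Twin.Avg
import Pool.Agent.Twin.CombA

/-!
# MODULE Twin/CombB  (MP_eb68d6_co)

The weights of the edges `E = Gc ∩ swG Gr`.

Proof.  For `a ∈ E` let `f = prob (Uc (ek u a))`, `g = prob (Uc' (dk u a))`,
`A = (Gc.filter (ek u · = ek u a)).card ≥ 1`, `B = ((swG Gr).filter (dk u · = dk u a)).card ≥ 1`.
`Sc.pop1`: `f ≥ 1 / (4 k q)`; `Sc.pop2`: `f ≥ A / (4 k M)` (the filter in `pop2` is the one of `A`; for the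
rows `Sr` is used for `(a.1.swap, a.2.swap) ∈ Gr`, and the cardinality of the filter of `Gr` is the one of
the filter of `swG Gr`, by the injection `b ↦ (b.1.swap, b.2.swap)`).
`x a = 1/8 * min 1 (min (1 / (g * A)) (1 / (f * B)))`.  Then `0 ≤ x ≤ 1/8`,
`f * g * x = 1/8 * min (f * g) (min (f / A) (g / B))` with `f * g ≥ 1 / (16 (k q)^2)`,
`f / A ≥ 1 / (4 k M)`, `g / B ≥ 1 / (4 k M)`.  In the sum of `hg` all `b` have `ek u b = ek u a`, so
`A b = A a` and `g b * x b ≤ 1 / (8 * A a)`, and there are at most `A a` terms.  In the same way for the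
rows.
-/

set_option autoImplicit false

namespace Pool.Agent.Twin

open Classical in
private theorem cb_low1 {k q M : ℕ} (hk : 0 < k) (hq : 0 < q) (hM : 0 < M) (U : Om k q M → Prop)
    (h : Fintype.card (Om k q M) ≤ 4 * (k * q) * (Finset.univ.filter fun ω => U ω).card) :
    1 / (4 * ((k : ℝ) * q)) ≤ prob U := by
  have hk' : (0 : ℝ) < k := by exact_mod_cast hk
  have hq' : (0 : ℝ) < q := by exact_mod_cast hq
  have : Nonempty (Om k q M) :=
    ⟨(true, true, ⟨0, Nat.mul_pos hk hq⟩, ⟨0, hk⟩, ⟨0, hM⟩)⟩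
  have hc : (0 : ℝ) < Fintype.card (Om k q M) := by exact_mod_cast Fintype.card_pos
  have h' : (Fintype.card (Om k q M) : ℝ) ≤
      4 * (k * q) * ((Finset.univ.filter fun ω => U ω).card : ℝ) := by exact_mod_cast h
  unfold prob
  rw [div_le_div_iff₀ (by positivity) hc, one_mul]
  calc (Fintype.card (Om k q M) : ℝ) ≤
      4 * (k * q) * ((Finset.univ.filter fun ω => U ω).card : ℝ) := h'
    _ = _ := by
      rw [mul_comm]

open Classical in
private theorem cb_low2 {k q M : ℕ} (hk : 0 < k) (hq : 0 < q) (hM : 0 < M) (U : Om k q M → Prop)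
    (A : ℕ) (h : Fintype.card (Om k q M) * A ≤
      4 * (k * M) * (Finset.univ.filter fun ω => U ω).card) :
    (A : ℝ) / (4 * ((k : ℝ) * M)) ≤ prob U := by
  have hk' : (0 : ℝ) < k := by exact_mod_cast hk
  have hM' : (0 : ℝ) < M := by exact_mod_cast hM
  have : Nonempty (Om k q M) :=
    ⟨(true, true, ⟨0, Nat.mul_pos hk hq⟩, ⟨0, hk⟩, ⟨0, hM⟩)⟩
  have hc : (0 : ℝ) < Fintype.card (Om k q M) := by exact_mod_cast Fintype.card_pos
  have h' : (Fintype.card (Om k q M) : ℝ) * A ≤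
      4 * (k * M) * ((Finset.univ.filter fun ω => U ω).card : ℝ) := by exact_mod_cast h
  unfold prob
  rw [div_le_div_iff₀ (by positivity) hc]
  calc (A : ℝ) * Fintype.card (Om k q M) = Fintype.card (Om k q M) * A := mul_comm _ _
    _ ≤ 4 * (k * M) * ((Finset.univ.filter fun ω => U ω).card : ℝ) := h'
    _ = _ := by
      rw [mul_comm]

private theorem cb_prob_nonneg {Ω : Type*} [Fintype Ω] (U : Ω → Prop) : 0 ≤ prob U := by
  unfold prob
  positivity

private theorem cb_final {f g A B c1 c2 : ℝ} (hf : 0 < f) (hg : 0 < g) (hA : 0 < A) (hB : 0 < B)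
    (h1 : c1 ≤ f * g) (h2 : c2 * A ≤ f) (h3 : c2 * B ≤ g) :
    1 / 8 * min c1 c2 ≤ f * g * (1 / 8 * min 1 (min (1 / (g * A)) (1 / (f * B)))) := by
  have hfg : 0 < f * g := mul_pos hf hg
  have m1 : min c1 c2 / (f * g) ≤ 1 := by
    rw [div_le_one hfg]
    exact (min_le_left _ _).trans h1
  have m2 : min c1 c2 / (f * g) ≤ 1 / (g * A) := by
    rw [div_le_div_iff₀ hfg (mul_pos hg hA), one_mul]
    have : min c1 c2 * A ≤ f := (mul_le_mul_of_nonneg_right (min_le_right _ _) hA.le).trans h2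
    calc min c1 c2 * (g * A) = (min c1 c2 * A) * g := by ring
      _ ≤ f * g := mul_le_mul_of_nonneg_right this hg.le
  have m3 : min c1 c2 / (f * g) ≤ 1 / (f * B) := by
    rw [div_le_div_iff₀ hfg (mul_pos hf hB), one_mul]
    have : min c1 c2 * B ≤ g := (mul_le_mul_of_nonneg_right (min_le_right _ _) hB.le).trans h3
    calc min c1 c2 * (f * B) = (min c1 c2 * B) * f := by ring
      _ ≤ g * f := mul_le_mul_of_nonneg_right this hf.le
      _ = f * g := mul_comm _ _
  have m4 : min c1 c2 / (f * g) ≤ min 1 (min (1 / (g * A)) (1 / (f * B))) :=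
    le_min m1 (le_min m2 m3)
  rw [div_le_iff₀ hfg] at m4
  calc 1 / 8 * min c1 c2 ≤ 1 / 8 * (min 1 (min (1 / (g * A)) (1 / (f * B))) * (f * g)) :=
        mul_le_mul_of_nonneg_left m4 (by norm_num)
    _ = _ := by ring

/-- one term of the sums -/
private theorem cb_term {g A m : ℝ} (hg : 0 < g) (hA : 0 < A) (hm : m ≤ 1 / (g * A)) :
    g * (1 / 8 * m) ≤ 1 / 8 * (1 / A) := by
  calc g * (1 / 8 * m) ≤ g * (1 / 8 * (1 / (g * A))) :=
        mul_le_mul_of_nonneg_left (mul_le_mul_of_nonneg_left hm (by norm_num)) hg.le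
    _ = 1 / 8 * (1 / A) := by
      field_simp

open Classical in
theorem exists_weights {k q u M : ℕ} (hk : 0 < k) (hq : 0 < q) (hM : 0 < M) {P : Finset Pt}
    {Gc Gr : Finset (Pt × Pt)} {Mc Mr : Om k q M → ℕ → ℕ → Prop}
    (Sc : Side (k * q * u) u k q M P Gc Mc) (Sr : Side (k * q * u) u k q M (sw P) Gr Mr) :
    ∃ x : Pt × Pt → ℝ, (∀ a, 0 ≤ x a ∧ x a ≤ 1 / 8) ∧
      (∀ a ∈ Gc ∩ swG Gr, ∑ b ∈ (Gc ∩ swG Gr).filter (fun b => ek u b = ek u a),
        prob (fun ω => Mr ω (dk u b).1 (dk u b).2) * x b ≤ 1 / 8) ∧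
      (∀ a ∈ Gc ∩ swG Gr, ∑ b ∈ (Gc ∩ swG Gr).filter (fun b => dk u b = dk u a),
        prob (fun ω => Mc ω (ek u b).1 (ek u b).2) * x b ≤ 1 / 8) ∧
      ∀ a ∈ Gc ∩ swG Gr, 1 / 8 * min (1 / (16 * ((k : ℝ) * q) ^ 2)) (1 / (4 * ((k : ℝ) * M))) ≤
        prob (fun ω => Mc ω (ek u a).1 (ek u a).2) * prob (fun ω => Mr ω (dk u a).1 (dk u a).2) *
          x a := by
  have hk' : (0 : ℝ) < k := by exact_mod_cast hk
  have hq' : (0 : ℝ) < q := by exact_mod_cast hq
  have hM' : (0 : ℝ) < M := by exact_mod_cast hM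
  obtain ⟨f, hf⟩ : ∃ f : Pt × Pt → ℝ, f = fun a =>
      prob (fun ω : Om k q M => Mc ω (ek u a).1 (ek u a).2) := ⟨_, rfl⟩
  obtain ⟨g, hg⟩ : ∃ g : Pt × Pt → ℝ, g = fun a =>
      prob (fun ω : Om k q M => Mr ω (dk u a).1 (dk u a).2) := ⟨_, rfl⟩
  obtain ⟨A, hA⟩ : ∃ A : Pt × Pt → ℝ, A = fun a =>
      ((Gc.filter (fun b => ek u b = ek u a)).card : ℝ) := ⟨_, rfl⟩
  obtain ⟨B, hB⟩ : ∃ B : Pt × Pt → ℝ, B = fun a =>
      (((swG Gr).filter (fun b => dk u b = dk u a)).card : ℝ) := ⟨_, rfl⟩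
  have hf0 : ∀ a, 0 ≤ f a := fun a => by rw [hf]; exact cb_prob_nonneg _
  have hg0 : ∀ a, 0 ≤ g a := fun a => by rw [hg]; exact cb_prob_nonneg _
  have hA0 : ∀ a, 0 ≤ A a := fun a => by rw [hA]; exact Nat.cast_nonneg _
  have hB0 : ∀ a, 0 ≤ B a := fun a => by rw [hB]; exact Nat.cast_nonneg _
  have hA1 : ∀ a ∈ Gc, 1 ≤ A a := by
    intro a ha
    rw [hA]
    have : 0 < (Gc.filter (fun b => ek u b = ek u a)).card :=
      Finset.card_pos.2 ⟨a, Finset.mem_filter.2 ⟨ha, rfl⟩⟩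
    simp only
    exact_mod_cast this
  have hB1 : ∀ a ∈ swG Gr, 1 ≤ B a := by
    intro a ha
    rw [hB]
    have : 0 < ((swG Gr).filter (fun b => dk u b = dk u a)).card :=
      Finset.card_pos.2 ⟨a, Finset.mem_filter.2 ⟨ha, rfl⟩⟩
    simp only
    exact_mod_cast this
  have hfl : ∀ a ∈ Gc, 1 / (4 * ((k : ℝ) * q)) ≤ f a := by
    intro a ha
    rw [hf]
    exact cb_low1 hk hq hM _ (Sc.pop1 a ha)
  have hgl : ∀ a ∈ swG Gr, 1 / (4 * ((k : ℝ) * q)) ≤ g a := by
    intro a ha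
    rw [hg]
    exact cb_low1 hk hq hM _ (Sr.pop1 _ (mem_swG.1 ha))
  have hfA : ∀ a ∈ Gc, A a / (4 * ((k : ℝ) * M)) ≤ f a := by
    intro a ha
    rw [hf, hA]
    refine cb_low2 hk hq hM _ _ ?_
    have h1 := Sc.pop2 a ha
    have h2 : (Gc.filter (fun b => ek u b = ek u a)) =
        (Gc.filter fun b => b.1.1 / u = a.1.1 / u ∧ b.2.1 / u = a.2.1 / u) := by
      apply Finset.filter_congr
      intro b _
      unfold ek
      rw [Prod.mk.injEq]
    rw [h2]
    exact h1
  have hgB : ∀ a ∈ swG Gr, B a / (4 * ((k : ℝ) * M)) ≤ g a := by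
    intro a ha
    rw [hg, hB]
    refine cb_low2 hk hq hM _ _ ?_
    have h1 := Sr.pop2 _ (mem_swG.1 ha)
    have h2 : ((swG Gr).filter (fun b => dk u b = dk u a)).card ≤
        (Gr.filter fun b => b.1.1 / u = (a.1.swap, a.2.swap).1.1 / u ∧
          b.2.1 / u = (a.1.swap, a.2.swap).2.1 / u).card := by
      apply Finset.card_le_card_of_injOn (fun b => (b.1.swap, b.2.swap))
      · intro b hb
        rw [Finset.mem_coe, Finset.mem_filter] at hb
        rw [Finset.mem_coe, Finset.mem_filter]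
        refine ⟨mem_swG.1 hb.1, ?_⟩
        have h3 := hb.2
        unfold dk at h3
        rw [Prod.mk.injEq] at h3
        exact h3
      · intro b _ c _ hbc
        simp only [Prod.mk.injEq] at hbc
        exact Prod.ext (Prod.swap_injective hbc.1) (Prod.swap_injective hbc.2)
    exact (Nat.mul_le_mul_left _ h2).trans h1
  have hkq : 0 < 1 / (4 * ((k : ℝ) * q)) := by positivity
  have hfpos : ∀ a ∈ Gc, 0 < f a := fun a ha => lt_of_lt_of_le hkq (hfl a ha)
  have hgpos : ∀ a ∈ swG Gr, 0 < g a := fun a ha => lt_of_lt_of_le hkq (hgl a ha)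
  obtain ⟨x, hx⟩ : ∃ x : Pt × Pt → ℝ, x = fun a =>
      1 / 8 * min 1 (min (1 / (g a * A a)) (1 / (f a * B a))) := ⟨_, rfl⟩
  refine ⟨x, ?_, ?_, ?_, ?_⟩
  · intro a
    have h1 : 0 ≤ 1 / (g a * A a) := by
      have := mul_nonneg (hg0 a) (hA0 a)
      positivity
    have h2 : 0 ≤ 1 / (f a * B a) := by
      have := mul_nonneg (hf0 a) (hB0 a)
      positivity
    have h3 : 0 ≤ min 1 (min (1 / (g a * A a)) (1 / (f a * B a))) :=
      le_min zero_le_one (le_min h1 h2)
    have h4 : min 1 (min (1 / (g a * A a)) (1 / (f a * B a))) ≤ 1 := min_le_left _ _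
    rw [hx]
    constructor
    · positivity
    · simp only
      linarith
  · intro a ha
    rw [Finset.mem_inter] at ha
    have hApos : 0 < A a := lt_of_lt_of_le one_pos (hA1 a ha.1)
    have h1 : ∀ b ∈ (Gc ∩ swG Gr).filter (fun b => ek u b = ek u a),
        prob (fun ω => Mr ω (dk u b).1 (dk u b).2) * x b ≤ 1 / 8 * (1 / A a) := by
      intro b hb
      rw [Finset.mem_filter, Finset.mem_inter] at hb
      obtain ⟨⟨hb1, hb2⟩, hb3⟩ := hb
      have hAb : A b = A a := by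
        rw [hA]
        simp only
        rw [hb3]
      have h2 : prob (fun ω => Mr ω (dk u b).1 (dk u b).2) = g b := by rw [hg]
      rw [h2, hx]
      refine (cb_term (hgpos b hb2) (hA := lt_of_lt_of_le one_pos (hA1 b hb1)) ?_).trans
        (le_of_eq ?_)
      · exact (min_le_right _ _).trans (min_le_left _ _)
      · rw [hAb]
    refine (Finset.sum_le_sum h1).trans ?_
    rw [Finset.sum_const, nsmul_eq_mul]
    have h3 : ((((Gc ∩ swG Gr).filter (fun b => ek u b = ek u a)).card : ℕ) : ℝ) ≤ A a := by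
      rw [hA]
      simp only
      have : ((Gc ∩ swG Gr).filter (fun b => ek u b = ek u a)).card ≤
          (Gc.filter (fun b => ek u b = ek u a)).card :=
        Finset.card_le_card (Finset.filter_subset_filter _ Finset.inter_subset_left)
      exact_mod_cast this
    calc ((((Gc ∩ swG Gr).filter (fun b => ek u b = ek u a)).card : ℕ) : ℝ) *
          (1 / 8 * (1 / A a)) ≤ A a * (1 / 8 * (1 / A a)) :=
          mul_le_mul_of_nonneg_right h3 (by positivity)
      _ = 1 / 8 := by field_simp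
  · intro a ha
    rw [Finset.mem_inter] at ha
    have hBpos : 0 < B a := lt_of_lt_of_le one_pos (hB1 a ha.2)
    have h1 : ∀ b ∈ (Gc ∩ swG Gr).filter (fun b => dk u b = dk u a),
        prob (fun ω => Mc ω (ek u b).1 (ek u b).2) * x b ≤ 1 / 8 * (1 / B a) := by
      intro b hb
      rw [Finset.mem_filter, Finset.mem_inter] at hb
      obtain ⟨⟨hb1, hb2⟩, hb3⟩ := hb
      have hBb : B b = B a := by
        rw [hB]
        simp only
        rw [hb3]
      have h2 : prob (fun ω => Mc ω (ek u b).1 (ek u b).2) = f b := by rw [hf]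
      rw [h2, hx]
      refine (cb_term (hfpos b hb1) (hA := lt_of_lt_of_le one_pos (hB1 b hb2)) ?_).trans
        (le_of_eq ?_)
      · exact (min_le_right _ _).trans (min_le_right _ _)
      · rw [hBb]
    refine (Finset.sum_le_sum h1).trans ?_
    rw [Finset.sum_const, nsmul_eq_mul]
    have h3 : ((((Gc ∩ swG Gr).filter (fun b => dk u b = dk u a)).card : ℕ) : ℝ) ≤ B a := by
      rw [hB]
      simp only
      have : ((Gc ∩ swG Gr).filter (fun b => dk u b = dk u a)).card ≤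
          ((swG Gr).filter (fun b => dk u b = dk u a)).card :=
        Finset.card_le_card (Finset.filter_subset_filter _ Finset.inter_subset_right)
      exact_mod_cast this
    calc ((((Gc ∩ swG Gr).filter (fun b => dk u b = dk u a)).card : ℕ) : ℝ) *
          (1 / 8 * (1 / B a)) ≤ B a * (1 / 8 * (1 / B a)) :=
          mul_le_mul_of_nonneg_right h3 (by positivity)
      _ = 1 / 8 := by field_simp
  · intro a ha
    rw [Finset.mem_inter] at ha
    have h2 : prob (fun ω => Mc ω (ek u a).1 (ek u a).2) = f a := by rw [hf]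
    have h3 : prob (fun ω => Mr ω (dk u a).1 (dk u a).2) = g a := by rw [hg]
    rw [h2, h3, hx]
    apply cb_final (hfpos a ha.1) (hgpos a ha.2) (lt_of_lt_of_le one_pos (hA1 a ha.1))
      (lt_of_lt_of_le one_pos (hB1 a ha.2))
    · calc 1 / (16 * ((k : ℝ) * q) ^ 2) = 1 / (4 * ((k : ℝ) * q)) * (1 / (4 * ((k : ℝ) * q))) := by
            field_simp
            norm_num
        _ ≤ f a * g a := mul_le_mul (hfl a ha.1) (hgl a ha.2) hkq.le (hf0 a)
    · have := hfA a ha.1
      calc 1 / (4 * ((k : ℝ) * M)) * A a = A a / (4 * ((k : ℝ) * M)) := by ring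
        _ ≤ f a := this
    · have := hgB a ha.2
      calc 1 / (4 * ((k : ℝ) * M)) * B a = B a / (4 * ((k : ℝ) * M)) := by ring
        _ ≤ g a := this

end Pool.Agent.Twin
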