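import Mathlib

/-!
# MODULE Twin/Ind  (MP_eb68d6_co)

Independent sets from fractional weights.

Proof.  Strong induction on `A.card`, with all sums over ordered pairs.  If `A = ∅` take `∅`.
Otherwise take `v ∈ A` and put `s = ∑ b ∈ A.filter (b ≠ v ∧ R v b), x b`.  The left side is
`L A = x v * (1 - 2 * s) + L (A.erase v)`.  If `2 * s ≥ 1`: take `I` from `A.erase v`, since
`x v (1 - 2 s) ≤ 0`.  If `2 * s < 1`: let `A' = (A.erase v).filter (¬ R v ·)`; then
`L (A.erase v) ≤ s + L A'` (drop the pairs that meet a neighbour of `v`, all terms are nonnegative) and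
`x v (1 - 2 s) + s ≤ 1 - 2 s + s ≤ 1`; take `I = insert v I'` with `I' ⊆ A'` from the induction
hypothesis.
-/

set_option autoImplicit false

namespace Pool.Agent.Twin

open Classical in
theorem exists_indep {V : Type*} (R : V → V → Prop) (hR : ∀ a b, R a b → R b a) (x : V → ℝ)
    (hx : ∀ a, 0 ≤ x a ∧ x a ≤ 1) (A : Finset V) :
    ∃ I ⊆ A, (∀ a ∈ I, ∀ b ∈ I, a ≠ b → ¬ R a b) ∧
      ∑ a ∈ A, x a - ∑ a ∈ A, ∑ b ∈ A.filter (fun b => b ≠ a ∧ R a b), x a * x b ≤ I.card := by
  induction A using Finset.strongInduction with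
  | H A ih =>
    rcases A.eq_empty_or_nonempty with rfl | ⟨v, hv⟩
    · exact ⟨∅, subset_rfl, by simp, by simp⟩
    set s := ∑ b ∈ A.filter (fun b => b ≠ v ∧ R v b), x b with hs
    have hs0 : 0 ≤ s := Finset.sum_nonneg fun b _ => (hx b).1
    have hss : A.erase v ⊂ A := Finset.erase_ssubset hv
    -- removing `v`
    have hfil : ∀ a, a ≠ v → A.filter (fun b => b ≠ a ∧ R a b) =
        if R v a then insert v ((A.erase v).filter (fun b => b ≠ a ∧ R a b))
        else (A.erase v).filter (fun b => b ≠ a ∧ R a b) := by
      intro a hav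
      ext b
      split_ifs with h
      · simp only [Finset.mem_filter, Finset.mem_insert, Finset.mem_erase]
        constructor
        · rintro ⟨h1, h2, h3⟩
          by_cases hb : b = v
          · exact Or.inl hb
          · exact Or.inr ⟨⟨hb, h1⟩, h2, h3⟩
        · rintro (rfl | ⟨⟨h1, h2⟩, h3, h4⟩)
          · exact ⟨hv, hav.symm, hR _ _ h⟩
          · exact ⟨h2, h3, h4⟩
      · simp only [Finset.mem_filter, Finset.mem_erase]
        constructor
        · rintro ⟨h1, h2, h3⟩
          refine ⟨⟨?_, h1⟩, h2, h3⟩
          rintro rfl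
          exact h (hR _ _ h3)
        · rintro ⟨⟨h1, h2⟩, h3, h4⟩
          exact ⟨h2, h3, h4⟩
    have hL : ∑ a ∈ A, x a - ∑ a ∈ A, ∑ b ∈ A.filter (fun b => b ≠ a ∧ R a b), x a * x b =
        x v * (1 - 2 * s) + (∑ a ∈ A.erase v, x a -
          ∑ a ∈ A.erase v, ∑ b ∈ (A.erase v).filter (fun b => b ≠ a ∧ R a b), x a * x b) := by
      rw [← Finset.add_sum_erase A x hv, ← Finset.add_sum_erase A
        (fun a => ∑ b ∈ A.filter (fun b => b ≠ a ∧ R a b), x a * x b) hv]
      have h1 : ∑ b ∈ A.filter (fun b => b ≠ v ∧ R v b), x v * x b = x v * s := by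
        rw [hs, Finset.mul_sum]
      have h2 : ∑ a ∈ A.erase v, ∑ b ∈ A.filter (fun b => b ≠ a ∧ R a b), x a * x b =
          x v * s + ∑ a ∈ A.erase v,
            ∑ b ∈ (A.erase v).filter (fun b => b ≠ a ∧ R a b), x a * x b := by
        have h3 : ∀ a ∈ A.erase v, ∑ b ∈ A.filter (fun b => b ≠ a ∧ R a b), x a * x b =
            (if R v a then x a * x v else 0) +
              ∑ b ∈ (A.erase v).filter (fun b => b ≠ a ∧ R a b), x a * x b := by
          intro a ha
          rw [hfil a (Finset.mem_erase.1 ha).1]
          split_ifs with h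
          · rw [Finset.sum_insert (by simp)]
          · rw [zero_add]
        rw [Finset.sum_congr rfl h3, Finset.sum_add_distrib]
        congr 1
        rw [← Finset.sum_filter, hs, Finset.mul_sum]
        refine Finset.sum_congr ?_ fun a _ => mul_comm _ _
        ext a
        simp only [Finset.mem_filter, Finset.mem_erase]
        tauto
      rw [h1, h2]
      ring
    rw [hL]
    by_cases h : 1 ≤ 2 * s
    · obtain ⟨I, hI, h1, h2⟩ := ih _ hss
      refine ⟨I, hI.trans (Finset.erase_subset _ _), h1, ?_⟩
      have : x v * (1 - 2 * s) ≤ 0 := mul_nonpos_of_nonneg_of_nonpos (hx v).1 (by linarith)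
      linarith
    · push Not at h
      set A' := (A.erase v).filter (fun b => ¬ R v b) with hA'
      have hA'A : A' ⊂ A := Finset.ssubset_of_subset_of_ssubset (Finset.filter_subset _ _) hss
      obtain ⟨I, hI, h1, h2⟩ := ih _ hA'A
      have hvI : v ∉ I := by
        intro hvI
        have := hI hvI
        rw [hA', Finset.mem_filter, Finset.mem_erase] at this
        exact this.1.1 rfl
      refine ⟨insert v I, ?_, ?_, ?_⟩
      · intro a ha
        rcases Finset.mem_insert.1 ha with rfl | ha
        · exact hv
        · exact hA'A.1 (hI ha)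
      · intro a ha b hb hab
        rcases Finset.mem_insert.1 ha with ha' | ha'
        · rcases Finset.mem_insert.1 hb with hb' | hb'
          · exact absurd (ha'.trans hb'.symm) hab
          · rw [ha']
            exact (Finset.mem_filter.1 (hI hb')).2
        · rcases Finset.mem_insert.1 hb with hb' | hb'
          · rw [hb']
            exact fun h => (Finset.mem_filter.1 (hI ha')).2 (hR _ _ h)
          · exact h1 a ha' b hb' hab
      · rw [Finset.card_insert_of_notMem hvI]
        push_cast
        have hsplit : ∑ a ∈ A.erase v, x a = s + ∑ a ∈ A', x a := by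
          rw [hA', hs, ← Finset.sum_filter_add_sum_filter_not (A.erase v) (fun b => R v b)]
          congr 1
          refine Finset.sum_congr ?_ fun a _ => rfl
          ext a
          simp only [Finset.mem_filter, Finset.mem_erase]
          tauto
        have hdrop : ∑ a ∈ A', ∑ b ∈ A'.filter (fun b => b ≠ a ∧ R a b), x a * x b ≤
            ∑ a ∈ A.erase v, ∑ b ∈ (A.erase v).filter (fun b => b ≠ a ∧ R a b), x a * x b := by
          have hnn : ∀ a b, 0 ≤ x a * x b := fun a b => mul_nonneg (hx a).1 (hx b).1
          refine (Finset.sum_le_sum fun a _ => ?_).trans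
            (Finset.sum_le_sum_of_subset_of_nonneg (Finset.filter_subset _ _)
              fun a _ _ => Finset.sum_nonneg fun b _ => hnn a b)
          exact Finset.sum_le_sum_of_subset_of_nonneg
            (Finset.filter_subset_filter _ (Finset.filter_subset _ _)) fun b _ _ => hnn a b
        have h3 : x v * (1 - 2 * s) ≤ 1 * (1 - 2 * s) :=
          mul_le_mul_of_nonneg_right (hx v).2 (by linarith)
        linarith

end Pool.Agent.Twin
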