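import Mathlib
import Pool.Agent.Twin.Defs
import Pool.Agent.Twin.Ind
import Pool.Agent.Twin.Avg
import Pool.Agent.Twin.CombA
import Pool.Agent.Twin.CombB

/-!
# From the two sides to a twin  (MP_eb68d6_co)
-/

set_option autoImplicit false

namespace Pool.Agent.Twin

open Classical in
theorem comb {k q u M : ℕ} (hu : 0 < u) (hk : 0 < k) (hq : 0 < q) (hM : 0 < M) {P : Finset Pt}
    (hb1 : ∀ p ∈ P, ∀ p' ∈ P, p.1 / (q * u) = p'.1 / (q * u) →
      p.2 / (k * q * u) = p'.2 / (k * q * u) → p = p')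
    (hb2 : ∀ p ∈ P, ∀ p' ∈ P, p.2 / (q * u) = p'.2 / (q * u) →
      p.1 / (k * q * u) = p'.1 / (k * q * u) → p = p')
    {Gc Gr : Finset (Pt × Pt)} {Mc Mr : Om k q M → ℕ → ℕ → Prop}
    (Sc : Side (k * q * u) u k q M P Gc Mc) (Sr : Side (k * q * u) u k q M (sw P) Gr Mr) :
    ∃ T, HasTwin P T ∧
      ((Gc ∩ swG Gr).card : ℝ) * min (1 / (16 * ((k : ℝ) * q) ^ 2)) (1 / (4 * ((k : ℝ) * M))) ≤
        16 * T := by
  obtain ⟨x, hx, hg, hf, hlow⟩ := exists_weights hk hq hM Sc Sr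
  -- a bound for the windows
  obtain ⟨N, hN⟩ : ∃ N : ℕ, ∀ a ∈ Gc ∩ swG Gr, a.1.1 / (k * q * u) ≤ N ∧ a.1.2 / (k * q * u) ≤ N := by
    refine ⟨(Gc ∩ swG Gr).sup (fun a => a.1.1 / (k * q * u) + a.1.2 / (k * q * u)), fun a ha => ?_⟩
    have := Finset.le_sup (f := fun a : Pt × Pt => a.1.1 / (k * q * u) + a.1.2 / (k * q * u)) ha
    exact ⟨(Nat.le_add_right _ _).trans this, (Nat.le_add_left _ _).trans this⟩
  have hfin : ∀ m m' : ℕ, m ≤ N → m' ≤ N → Fin.ofNat (N + 1) m = Fin.ofNat (N + 1) m' → m = m' := by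
    intro m m' h h' he
    have := congrArg Fin.val he
    simp only [Fin.ofNat] at this
    rwa [Nat.mod_eq_of_lt (by omega), Nat.mod_eq_of_lt (by omega)] at this
  have : Nonempty (Om k q M) := ⟨(true, true, ⟨0, by positivity⟩, ⟨0, hk⟩, ⟨0, hM⟩)⟩
  have hd : ∀ y : ℕ, y / (k * q * u) = y / u / (k * q) := fun y => by
    rw [Nat.div_div_eq_div_mul, mul_comm u]
  have hd' : ∀ y : ℕ, y / (q * u) = y / u / q := fun y => by
    rw [Nat.div_div_eq_div_mul, mul_comm u]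
  have hmc : ∀ a ∈ Gc ∩ swG Gr, a ∈ pairs2 (k * q * u) P ∧ a.1 ≠ a.2 := fun a ha =>
    Sc.mem a (Finset.mem_inter.1 ha).1
  obtain ⟨ω, ω', F, hF, hsum⟩ := exists_choice (Gc ∩ swG Gr)
    (fun a => Fin.ofNat (N + 1) (a.1.1 / (k * q * u)))
    (fun a => Fin.ofNat (N + 1) (a.1.2 / (k * q * u))) (ek u) (dk u)
    (fun κ ω => Mc ω κ.1 κ.2) (fun κ ω => Mr ω κ.1 κ.2) x (fun a _ => (hx a).1)
    (by
      intro a _ b _ hab
      simp only [ek, Prod.mk.injEq] at hab
      simp only [hd, hab.1])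
    (by
      intro a ha b hb hne hab hj
      apply hne
      have hj' := hfin _ _ (hN a ha).2 (hN b hb).2 hj
      obtain ⟨⟨a1, a2⟩, a3, a4⟩ := mem_pairs2.1 (hmc a ha).1
      obtain ⟨⟨b1, b2⟩, b3, b4⟩ := mem_pairs2.1 (hmc b hb).1
      simp only [ek, Prod.mk.injEq] at hab
      refine Prod.ext (hb1 _ a1 _ b1 ?_ hj') (hb1 _ a2 _ b2 ?_ ?_)
      · simp only [hd', hab.1]
      · simp only [hd', hab.2]
      · rw [a4, b4, hj'])
    (by
      intro a _ b _ hab
      simp only [dk, Prod.mk.injEq] at hab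
      simp only [hd, hab.1])
    (by
      intro a ha b hb hne hab hj
      apply hne
      have hj' := hfin _ _ (hN a ha).1 (hN b hb).1 hj
      obtain ⟨⟨a1, a2⟩, a3, a4⟩ := mem_pairs2.1 (hmc a ha).1
      obtain ⟨⟨b1, b2⟩, b3, b4⟩ := mem_pairs2.1 (hmc b hb).1
      simp only [dk, Prod.mk.injEq] at hab
      refine Prod.ext (hb2 _ a1 _ b1 ?_ hj') (hb2 _ a2 _ b2 ?_ ?_)
      · simp only [hd', hab.1]
      · simp only [hd', hab.2]
      · rw [a3, b3, hj'])
    (fun a ha => by convert hg a ha) (fun a ha => by convert hf a ha)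
  have hsum' : 1 / 2 * ∑ a ∈ Gc ∩ swG Gr, prob (fun ω => Mc ω (ek u a).1 (ek u a).2) *
        prob (fun ω => Mr ω (dk u a).1 (dk u a).2) * x a ≤
      3 / 4 * ∑ a ∈ F, x a - ∑ a ∈ F, ∑ b ∈ F.filter (fun b => b ≠ a ∧ ek u b = ek u a), x a * x b -
          ∑ a ∈ F, ∑ b ∈ F.filter (fun b => b ≠ a ∧ dk u b = dk u a), x a * x b := by
    convert hsum
  clear hsum
  -- matched edges
  set ωc : ℕ → Om k q M := fun n => ω (Fin.ofNat (N + 1) n) with hωc
  set ωr : ℕ → Om k q M := fun n => ω' (Fin.ofNat (N + 1) n) with hωr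
  have hFm : ∀ a ∈ F, Matched u Gc Gr Mc Mr ωc ωr a := by
    intro a ha
    rw [hF, Finset.mem_filter, Finset.mem_inter] at ha
    exact ⟨ha.1, ha.2.1, ha.2.2⟩
  obtain ⟨I, hIF, hind, hIc⟩ := exists_indep
    (fun a b : Pt × Pt => (ek u a = ek u b ∨ dk u a = dk u b) ∨ (a.2 = b.1 ∨ a.1 = b.2))
    (by
      intro a b h
      rcases h with (h | h) | (h | h)
      · exact Or.inl (Or.inl h.symm)
      · exact Or.inl (Or.inr h.symm)
      · exact Or.inr (Or.inr h.symm)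
      · exact Or.inr (Or.inl h.symm)) x
    (fun a => ⟨(hx a).1, (hx a).2.trans (by norm_num)⟩) F
  refine ⟨I.card, twin_of_indep hu hk hq Sc Sr I (fun a ha => hFm a (hIF ha)) ?_, ?_⟩
  · intro a ha b hb hne
    have := hind a ha b hb hne
    push Not at this
    exact ⟨this.1.1, this.1.2, this.2.1, this.2.2⟩
  -- the conflicts
  have hconf : ∑ a ∈ F, ∑ b ∈ F.filter (fun b => b ≠ a ∧
      ((ek u a = ek u b ∨ dk u a = dk u b) ∨ (a.2 = b.1 ∨ a.1 = b.2))), x a * x b ≤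
      ∑ a ∈ F, ∑ b ∈ F.filter (fun b => b ≠ a ∧ ek u b = ek u a), x a * x b +
      ∑ a ∈ F, ∑ b ∈ F.filter (fun b => b ≠ a ∧ dk u b = dk u a), x a * x b +
      1 / 4 * ∑ a ∈ F, x a := by
    rw [Finset.mul_sum, ← Finset.sum_add_distrib, ← Finset.sum_add_distrib]
    refine Finset.sum_le_sum fun a ha => ?_
    have h1 : ∑ b ∈ F.filter (fun b => b.1 = a.2), x a * x b ≤ 1 / 8 * x a := by
      have hc1 : (F.filter fun b => b.1 = a.2).card ≤ 1 := by
        refine Finset.card_le_one.2 fun b hb b' hb' => ?_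
        rw [Finset.mem_filter] at hb hb'
        exact matched_inj1 hu hk hq hb1 Sc (hFm b hb.1) (hFm b' hb'.1) (hb.2.trans hb'.2.symm)
      calc ∑ b ∈ F.filter (fun b => b.1 = a.2), x a * x b ≤
          ∑ b ∈ F.filter (fun b => b.1 = a.2), x a * (1 / 8) :=
            Finset.sum_le_sum fun b _ => mul_le_mul_of_nonneg_left (hx b).2 (hx a).1
        _ = (F.filter fun b => b.1 = a.2).card * (x a * (1 / 8)) := by
            rw [Finset.sum_const, nsmul_eq_mul]
        _ ≤ 1 * (x a * (1 / 8)) := by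
            refine mul_le_mul_of_nonneg_right (by exact_mod_cast hc1) ?_
            exact mul_nonneg (hx a).1 (by norm_num)
        _ = 1 / 8 * x a := by ring
    have h2 : ∑ b ∈ F.filter (fun b => b.2 = a.1), x a * x b ≤ 1 / 8 * x a := by
      have hc1 : (F.filter fun b => b.2 = a.1).card ≤ 1 := by
        refine Finset.card_le_one.2 fun b hb b' hb' => ?_
        rw [Finset.mem_filter] at hb hb'
        exact matched_inj2 hu hk hq hb1 Sc (hFm b hb.1) (hFm b' hb'.1) (hb.2.trans hb'.2.symm)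
      calc ∑ b ∈ F.filter (fun b => b.2 = a.1), x a * x b ≤
          ∑ b ∈ F.filter (fun b => b.2 = a.1), x a * (1 / 8) :=
            Finset.sum_le_sum fun b _ => mul_le_mul_of_nonneg_left (hx b).2 (hx a).1
        _ = (F.filter fun b => b.2 = a.1).card * (x a * (1 / 8)) := by
            rw [Finset.sum_const, nsmul_eq_mul]
        _ ≤ 1 * (x a * (1 / 8)) := by
            refine mul_le_mul_of_nonneg_right (by exact_mod_cast hc1) ?_
            exact mul_nonneg (hx a).1 (by norm_num)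
        _ = 1 / 8 * x a := by ring
    have hnn : ∀ b, 0 ≤ x a * x b := fun b => mul_nonneg (hx a).1 (hx b).1
    have hsub : F.filter (fun b => b ≠ a ∧
        ((ek u a = ek u b ∨ dk u a = dk u b) ∨ (a.2 = b.1 ∨ a.1 = b.2))) ⊆
        ((F.filter (fun b => b ≠ a ∧ ek u b = ek u a) ∪ F.filter (fun b => b ≠ a ∧ dk u b = dk u a)) ∪
          F.filter (fun b => b.1 = a.2)) ∪ F.filter (fun b => b.2 = a.1) := by
      intro b hb
      simp only [Finset.mem_union, Finset.mem_filter] at hb ⊢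
      rcases hb with ⟨hbF, hba, (h | h) | (h | h)⟩
      · exact Or.inl (Or.inl (Or.inl ⟨hbF, hba, h.symm⟩))
      · exact Or.inl (Or.inl (Or.inr ⟨hbF, hba, h.symm⟩))
      · exact Or.inl (Or.inr ⟨hbF, h.symm⟩)
      · exact Or.inr ⟨hbF, h.symm⟩
    have hun : ∀ A B : Finset (Pt × Pt), ∑ b ∈ A ∪ B, x a * x b ≤
        ∑ b ∈ A, x a * x b + ∑ b ∈ B, x a * x b := by
      intro A B
      rw [← Finset.sum_union_inter]
      exact le_add_of_nonneg_right (Finset.sum_nonneg fun b _ => hnn b)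
    calc _ ≤ _ := Finset.sum_le_sum_of_subset_of_nonneg hsub fun b _ _ => hnn b
      _ ≤ _ := hun _ _
      _ ≤ ((∑ b ∈ F.filter (fun b => b ≠ a ∧ ek u b = ek u a), x a * x b +
          ∑ b ∈ F.filter (fun b => b ≠ a ∧ dk u b = dk u a), x a * x b) + 1 / 8 * x a) +
            1 / 8 * x a := by
          refine add_le_add ((hun _ _).trans (add_le_add (hun _ _) h1)) h2
      _ = _ := by ring
  have hE : ((Gc ∩ swG Gr).card : ℝ) *
      (1 / 8 * min (1 / (16 * ((k : ℝ) * q) ^ 2)) (1 / (4 * ((k : ℝ) * M)))) ≤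
      ∑ a ∈ Gc ∩ swG Gr, prob (fun ω => Mc ω (ek u a).1 (ek u a).2) *
        prob (fun ω => Mr ω (dk u a).1 (dk u a).2) * x a := by
    rw [← nsmul_eq_mul, ← Finset.sum_const]
    exact Finset.sum_le_sum hlow
  have hIc' : ∑ a ∈ F, x a - ∑ a ∈ F, ∑ b ∈ F.filter (fun b => b ≠ a ∧
      ((ek u a = ek u b ∨ dk u a = dk u b) ∨ (a.2 = b.1 ∨ a.1 = b.2))), x a * x b ≤ I.card := by
    convert hIc
  linarith

end Pool.Agent.Twin
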