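import Mathlib
import Pool.Agent.Twin.Defs
import Pool.Agent.Twin.Swap

/-!
# MODULE Twin/Conv  (MP_eb68d6_co)

From permutations to finite sets of points and back.

`ptsOf σ m` is the pattern of the first `m` values of `σ`: the points `(x, rank)`, where `rank` is the
number of the `x' < m` with `σ x' < σ x`.

Proofs.
* `ptsOf_card`, `ptsOf_isPP`, `ptsOf_lt`: `x ↦ rank x` is injective on `{x | x < m}` (if `σ x < σ y` then
  `rank x < rank y`: the set for `x` is contained in the set for `y`, which contains `x`), and `rank x < m`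
  (the set does not contain `x` itself).
* `twin_of_ptsOf`: let `Mf` be the finset of a twin with `k ≤ Mf.card`.  The map `a ↦ a.1.1` is injective on
  `Mf` (if `a.1.1 = b.1.1` then by the equivalences `a.2.1 = b.2.1`, and points of `ptsOf` with the same
  abscissa are equal).  List the abscissas `a.1.1` of `Mf` increasingly (`Finset.orderEmbOfFin` of
  `Mf.image (·.1.1)`, restricted to the first `k`), let `a_i ∈ Mf` be the corresponding element;
  `f i = a_i.1.1`, `g i = a_i.2.1` (as elements of `Fin n`, they are `< m ≤ n`).  `f` is increasing by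
  construction, `g` by the equivalence of the definition of `HasTwin`.  `σ x < σ y ↔ rank x < rank y` for
  `x, y < m`, so the last property is the second equivalence.  `f i ≠ g j`: otherwise `a_i.1 = a_j.2` (points
  with the same abscissa).
-/

set_option autoImplicit false

namespace Pool.Agent.Twin

open Classical in
/-- the pattern of the first `m` values of `σ` -/
noncomputable def ptsOf {n : ℕ} (σ : Equiv.Perm (Fin n)) (m : ℕ) : Finset Pt :=
  (Finset.univ.filter fun x : Fin n => (x : ℕ) < m).image fun x : Fin n =>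
    ((x : ℕ), (Finset.univ.filter fun x' : Fin n => (x' : ℕ) < m ∧ σ x' < σ x).card)

open Classical in
/-- the rank of the value at `x` among the first `m` values -/
noncomputable def convRank {n : ℕ} (σ : Equiv.Perm (Fin n)) (m : ℕ) (x : Fin n) : ℕ :=
  (Finset.univ.filter fun x' : Fin n => (x' : ℕ) < m ∧ σ x' < σ x).card

theorem convRank_lt_of_lt {n : ℕ} (σ : Equiv.Perm (Fin n)) {m : ℕ} {x y : Fin n} (hx : (x : ℕ) < m)
    (h : σ x < σ y) : convRank σ m x < convRank σ m y := by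
  classical
  unfold convRank
  apply Finset.card_lt_card
  rw [Finset.ssubset_iff_of_subset]
  · refine ⟨x, ?_, ?_⟩
    · simp [hx, h]
    · simp
  · intro z hz
    simp only [Finset.mem_filter, Finset.mem_univ, true_and] at hz ⊢
    exact ⟨hz.1, hz.2.trans h⟩

theorem convRank_lt_iff {n : ℕ} (σ : Equiv.Perm (Fin n)) {m : ℕ} {x y : Fin n} (hx : (x : ℕ) < m)
    (hy : (y : ℕ) < m) : convRank σ m x < convRank σ m y ↔ σ x < σ y := by
  constructor
  · intro h
    by_contra hcon
    rcases lt_trichotomy (σ x) (σ y) with h1 | h1 | h1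
    · exact hcon h1
    · have : x = y := σ.injective h1
      rw [this] at h
      exact lt_irrefl _ h
    · exact lt_asymm h (convRank_lt_of_lt σ hy h1)
  · exact convRank_lt_of_lt σ hx

theorem convRank_inj {n : ℕ} (σ : Equiv.Perm (Fin n)) {m : ℕ} {x y : Fin n} (hx : (x : ℕ) < m)
    (hy : (y : ℕ) < m) (h : convRank σ m x = convRank σ m y) : x = y := by
  have h1 := convRank_lt_iff σ hx hy
  have h2 := convRank_lt_iff σ hy hx
  rw [h] at h1 h2
  have h3 : ¬ σ x < σ y := fun h4 => lt_irrefl _ (h1.2 h4)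
  have h4 : ¬ σ y < σ x := fun h5 => lt_irrefl _ (h2.2 h5)
  exact σ.injective (le_antisymm (not_lt.1 h4) (not_lt.1 h3))

theorem conv_card {n m : ℕ} (hm : m ≤ n) :
    (Finset.univ.filter fun x : Fin n => (x : ℕ) < m).card = m := by
  have h : (Finset.univ.filter fun x : Fin n => (x : ℕ) < m).map Fin.valEmbedding = Finset.range m := by
    ext i
    simp only [Finset.mem_map, Finset.mem_filter, Finset.mem_univ, true_and, Finset.mem_range]
    constructor
    · rintro ⟨x, hx, rfl⟩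
      exact hx
    · intro hi
      exact ⟨⟨i, by omega⟩, hi, rfl⟩
  rw [← Finset.card_map Fin.valEmbedding, h, Finset.card_range]

theorem convRank_lt {n : ℕ} (σ : Equiv.Perm (Fin n)) {m : ℕ} (hm : m ≤ n) {x : Fin n}
    (hx : (x : ℕ) < m) : convRank σ m x < m := by
  classical
  have h1 : convRank σ m x < (Finset.univ.filter fun x : Fin n => (x : ℕ) < m).card := by
    unfold convRank
    apply Finset.card_lt_card
    rw [Finset.ssubset_iff_of_subset]
    · refine ⟨x, ?_, ?_⟩
      · simp [hx]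
      · simp
    · intro z hz
      simp only [Finset.mem_filter, Finset.mem_univ, true_and] at hz ⊢
      exact hz.1
  rwa [conv_card hm] at h1

theorem mem_ptsOf {n : ℕ} (σ : Equiv.Perm (Fin n)) (m : ℕ) (p : Pt) :
    p ∈ ptsOf σ m ↔ ∃ x : Fin n, (x : ℕ) < m ∧ p = ((x : ℕ), convRank σ m x) := by
  unfold ptsOf convRank
  simp only [Finset.mem_image, Finset.mem_filter, Finset.mem_univ, true_and]
  constructor
  · rintro ⟨x, hx, rfl⟩
    exact ⟨x, hx, rfl⟩
  · rintro ⟨x, hx, rfl⟩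
    exact ⟨x, hx, rfl⟩

theorem ptsOf_card {n : ℕ} (σ : Equiv.Perm (Fin n)) {m : ℕ} (hm : m ≤ n) :
    (ptsOf σ m).card = m := by
  unfold ptsOf
  rw [Finset.card_image_of_injective, conv_card hm]
  intro x y h
  have h1 := congrArg Prod.fst h
  exact Fin.ext h1

theorem ptsOf_isPP {n : ℕ} (σ : Equiv.Perm (Fin n)) (m : ℕ) : IsPP (ptsOf σ m) := by
  constructor
  · intro p hp q hq h
    obtain ⟨x, hx, rfl⟩ := (mem_ptsOf σ m p).1 hp
    obtain ⟨y, hy, rfl⟩ := (mem_ptsOf σ m q).1 hq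
    have h1 : x = y := Fin.ext h
    rw [h1]
  · intro p hp q hq h
    obtain ⟨x, hx, rfl⟩ := (mem_ptsOf σ m p).1 hp
    obtain ⟨y, hy, rfl⟩ := (mem_ptsOf σ m q).1 hq
    have h1 : x = y := convRank_inj σ hx hy h
    rw [h1]

theorem ptsOf_lt {n : ℕ} (σ : Equiv.Perm (Fin n)) (m : ℕ) (hm : m ≤ n) :
    ∀ p ∈ ptsOf σ m, p.1 < m ∧ p.2 < m := by
  intro p hp
  obtain ⟨x, hx, rfl⟩ := (mem_ptsOf σ m p).1 hp
  exact ⟨hx, convRank_lt σ hm hx⟩

theorem twin_of_ptsOf {n : ℕ} (σ : Equiv.Perm (Fin n)) {m k : ℕ} (hm : m ≤ n)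
    (h : HasTwin (ptsOf σ m) k) :
    ∃ f g : Fin k ↪o Fin n, (∀ i j, f i ≠ g j) ∧
      ∀ i j, (σ (f i) < σ (f j) ↔ σ (g i) < σ (g j)) := by
  classical
  obtain ⟨Mf, hk, hmem, hord, hne⟩ := h
  have hPP := ptsOf_isPP σ m
  have hinj : Set.InjOn (fun a : Pt × Pt => a.1.1) (Mf : Set (Pt × Pt)) := by
    intro a ha b hb hab
    have h1 : a.1 = b.1 := hPP.1 (hmem a ha).1 (hmem b hb).1 hab
    have h2 : a.2.1 = b.2.1 := by
      have h3 := (hord a ha b hb).1
      have h4 := (hord b hb a ha).1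
      have hab' : a.1.1 = b.1.1 := hab
      omega
    have h3 : a.2 = b.2 := hPP.1 (hmem a ha).2 (hmem b hb).2 h2
    exact Prod.ext h1 h3
  have hcard : (Mf.image fun a => a.1.1).card = Mf.card := Finset.card_image_of_injOn hinj
  set e := (Mf.image fun a => a.1.1).orderEmbOfFin hcard with he
  have hex : ∀ i : Fin k, ∃ a ∈ Mf, a.1.1 = e (Fin.castLE hk i) := by
    intro i
    have h1 := Finset.orderEmbOfFin_mem (Mf.image fun a => a.1.1) hcard (Fin.castLE hk i)
    obtain ⟨a, ha, h2⟩ := Finset.mem_image.1 h1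
    exact ⟨a, ha, h2⟩
  choose a haM hae using hex
  have h1 : ∀ p ∈ ptsOf σ m, p.1 < n := fun p hp => lt_of_lt_of_le (ptsOf_lt σ m hm p hp).1 hm
  have h2 : ∀ p (hp : p ∈ ptsOf σ m), p.2 = convRank σ m ⟨p.1, h1 p hp⟩ := by
    intro p hp
    obtain ⟨x, hx, rfl⟩ := (mem_ptsOf σ m p).1 hp
    rfl
  have hf : StrictMono (fun i : Fin k => (⟨(a i).1.1, h1 _ (hmem _ (haM i)).1⟩ : Fin n)) := by
    intro i j hij
    show (a i).1.1 < (a j).1.1
    rw [hae i, hae j]
    exact e.strictMono hij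
  have hg : StrictMono (fun i : Fin k => (⟨(a i).2.1, h1 _ (hmem _ (haM i)).2⟩ : Fin n)) := by
    intro i j hij
    show (a i).2.1 < (a j).2.1
    exact (hord _ (haM i) _ (haM j)).1.1 (hf hij)
  refine ⟨OrderEmbedding.ofStrictMono _ hf, OrderEmbedding.ofStrictMono _ hg, ?_, ?_⟩
  · intro i j h
    have h3 : (a i).1.1 = (a j).2.1 := congrArg Fin.val h
    exact hne _ (haM i) _ (haM j) (hPP.1 (hmem _ (haM i)).1 (hmem _ (haM j)).2 h3)
  · intro i j
    show σ (⟨(a i).1.1, h1 _ (hmem _ (haM i)).1⟩ : Fin n) < σ (⟨(a j).1.1, h1 _ (hmem _ (haM j)).1⟩ : Fin n)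
      ↔ σ (⟨(a i).2.1, h1 _ (hmem _ (haM i)).2⟩ : Fin n) < σ (⟨(a j).2.1, h1 _ (hmem _ (haM j)).2⟩ : Fin n)
    rw [← convRank_lt_iff σ (ptsOf_lt σ m hm _ (hmem _ (haM i)).1).1
        (ptsOf_lt σ m hm _ (hmem _ (haM j)).1).1,
      ← convRank_lt_iff σ (ptsOf_lt σ m hm _ (hmem _ (haM i)).2).1
        (ptsOf_lt σ m hm _ (hmem _ (haM j)).2).1,
      ← h2 _ (hmem _ (haM i)).1, ← h2 _ (hmem _ (haM j)).1, ← h2 _ (hmem _ (haM i)).2,
      ← h2 _ (hmem _ (haM j)).2]
    exact (hord _ (haM i) _ (haM j)).2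

end Pool.Agent.Twin
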