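import Mathlib
import Pool.Agent.Twin.Defs

/-!
# MODULE Twin/Reg  (MP_eb68d6_co)

Restriction to boxes with about the same number of points, and a maximal subset with at most one point
in every cell.

Proof of `regularize`.  For `m` let `b m` be the number of the points `p ∈ P` with
`2 ^ m ≤ (box h P p).card < 2 ^ (m + 1)`.  The points with `(box h P p).card < 2 ^ m0` are at most
`V * V * 2 ^ m0 ≤ P.card / 2` (at most `V * V` boxes).  So `∑_{m ≥ m0} b m ≥ P.card / 2`
(`m < P.card + 1` suffices, `(box h P p).card ≤ P.card < 2 ^ P.card`).  If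
`4 * 2 ^ (m - m0) * b m < P.card` for all `m ≥ m0`, then `∑ b m < ∑ P.card / (4 * 2 ^ (m - m0)) ≤
P.card / 2`, a contradiction (`P` is not empty; if `P = ∅` take `P' = ∅`).  So there is `m ≥ m0` with
`P.card ≤ 4 * 2 ^ (m - m0) * b m`; `P'` is the set of the points of this class.  For `p ∈ P'` the box of
`p` in `P'` is the same as in `P` (all points of a box have the same box).  Finally
`(pairs2 h P').card = ∑ p ∈ P', (box h P' p).card ≥ 2 ^ m * b m` and
`2 ^ m0 * P.card ≤ 4 * 2 ^ m * b m`.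

Proof of `greedy`: take `P'` of maximal cardinality among the subsets of `P` on which `κ1` and `κ2` are
injective; if `p ∈ P` had `κ1 p ∉ κ1 P'` and `κ2 p ∉ κ2 P'`, then `insert p P'` would be larger.
-/

set_option autoImplicit false

namespace Pool.Agent.Twin

theorem reg_small {h V m0 : ℕ} {P : Finset Pt}
    (hV : ∀ p ∈ P, p.1 / h < V ∧ p.2 / h < V) :
    (P.filter (fun p => (box h P p).card < 2 ^ m0)).card ≤ 2 ^ m0 * (V * V) := by
  have key := Finset.card_le_mul_card_image_of_maps_to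
    (s := P.filter (fun p => (box h P p).card < 2 ^ m0))
    (f := fun p => (p.1 / h, p.2 / h)) (t := Finset.range V ×ˢ Finset.range V) ?_ (2 ^ m0) ?_
  · rw [Finset.card_product, Finset.card_range] at key
    exact key
  · intro p hp
    have h1 := hV p (Finset.mem_filter.mp hp).1
    simp only [Finset.mem_product, Finset.mem_range]
    exact h1
  · rintro ⟨i, j⟩ _
    rcases ((P.filter (fun p => (box h P p).card < 2 ^ m0)).filter
      (fun p => (p.1 / h, p.2 / h) = (i, j))).eq_empty_or_nonempty with h0 | ⟨p, hp⟩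
    · rw [h0, Finset.card_empty]
      exact Nat.zero_le _
    · obtain ⟨hp1, hp2⟩ := Finset.mem_filter.mp hp
      obtain ⟨hp3, hp4⟩ := Finset.mem_filter.mp hp1
      refine le_trans (Finset.card_le_card ?_) hp4.le
      intro q hq
      obtain ⟨hq1, hq2⟩ := Finset.mem_filter.mp hq
      obtain ⟨hq3, hq4⟩ := Finset.mem_filter.mp hq1
      simp only [Prod.mk.injEq] at hp2 hq2
      refine Finset.mem_filter.mpr ⟨hq3, ?_, ?_⟩
      · rw [hq2.1, hp2.1]
      · rw [hq2.2, hp2.2]

theorem reg_geom (n : ℕ) : ∑ k ∈ Finset.range n, (1 / 2 : ℝ) ^ k < 2 := by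
  rw [geom_sum_eq (by norm_num)]
  have h1 : (0 : ℝ) < (1 / 2) ^ n := by positivity
  have e : ((1 / 2 : ℝ) ^ n - 1) / (1 / 2 - 1) = 2 * (1 - (1 / 2) ^ n) := by
    field_simp
    ring
  rw [e]
  linarith

theorem reg_pairs {h : ℕ} (Q : Finset Pt) :
    ∑ p ∈ Q, (box h Q p).card ≤ (pairs2 h Q).card := by
  have hm : ∀ a ∈ pairs2 h Q, a.1 ∈ Q := by
    intro a ha
    exact (Finset.mem_product.mp (Finset.mem_filter.mp ha).1).1
  rw [Finset.card_eq_sum_card_fiberwise hm]
  apply Finset.sum_le_sum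
  intro p hp
  refine Finset.card_le_card_of_injOn (fun q => (p, q)) ?_ ?_
  · intro q hq
    obtain ⟨h1, h2, h3⟩ := Finset.mem_filter.mp (Finset.mem_coe.mp hq)
    exact Finset.mem_coe.mpr (Finset.mem_filter.mpr
      ⟨Finset.mem_filter.mpr ⟨Finset.mem_product.mpr ⟨hp, h1⟩, h2, h3⟩, rfl⟩)
  · intro q _ q' _ hqq
    exact (Prod.mk.injEq _ _ _ _ ▸ hqq).2

theorem regularize {h V m0 : ℕ} (hh : 0 < h) {P : Finset Pt}
    (hV : ∀ p ∈ P, p.1 / h < V ∧ p.2 / h < V) (hm : 2 * (V * V * 2 ^ m0) ≤ P.card) :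
    ∃ P' ⊆ P, ∃ m, m0 ≤ m ∧
      (∀ p ∈ P', 2 ^ m ≤ (box h P' p).card ∧ (box h P' p).card < 2 * 2 ^ m) ∧
      2 ^ m0 * P.card ≤ 4 * (pairs2 h P').card := by
  rcases P.eq_empty_or_nonempty with h0 | hne
  · refine ⟨∅, Finset.empty_subset _, m0, le_rfl, fun p hp => absurd hp (Finset.notMem_empty p), ?_⟩
    rw [h0, Finset.card_empty, mul_zero]
    exact Nat.zero_le _
  have hcard : 0 < P.card := Finset.card_pos.mpr hne
  set cl : ℕ → Finset Pt := fun m =>
    P.filter (fun p => 2 ^ m ≤ (box h P p).card ∧ (box h P p).card < 2 * 2 ^ m) with hcl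
  have hsmall := reg_small (m0 := m0) hV
  have hcov : P ⊆ (P.filter (fun p => (box h P p).card < 2 ^ m0)) ∪
      (Finset.Ico m0 (P.card + 1)).biUnion cl := by
    intro p hp
    rw [Finset.mem_union]
    by_cases h1 : (box h P p).card < 2 ^ m0
    · exact Or.inl (Finset.mem_filter.mpr ⟨hp, h1⟩)
    · right
      push Not at h1
      have h2 : (box h P p).card ≠ 0 := by
        have : 0 < 2 ^ m0 := by positivity
        omega
      have h3 := Nat.pow_log_le_self 2 h2
      have h4 := Nat.lt_pow_succ_log_self (b := 2) (by norm_num) (box h P p).card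
      have h5 : m0 ≤ Nat.log 2 (box h P p).card :=
        (Nat.le_log_iff_pow_le (by norm_num) h2).mpr h1
      have h6 : (box h P p).card ≤ P.card := Finset.card_filter_le _ _
      have h7 : Nat.log 2 (box h P p).card < 2 ^ Nat.log 2 (box h P p).card :=
        Nat.lt_two_pow_self
      refine Finset.mem_biUnion.mpr ⟨Nat.log 2 (box h P p).card,
        Finset.mem_Ico.mpr ⟨h5, by omega⟩, Finset.mem_filter.mpr ⟨hp, h3, ?_⟩⟩
      rw [pow_succ] at h4
      omega
  have hsum : P.card ≤ 2 ^ m0 * (V * V) + ∑ m ∈ Finset.Ico m0 (P.card + 1), (cl m).card := by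
    refine (Finset.card_le_card hcov).trans ((Finset.card_union_le _ _).trans ?_)
    exact add_le_add hsmall Finset.card_biUnion_le
  have hsum2 : P.card ≤ 2 * ∑ m ∈ Finset.Ico m0 (P.card + 1), (cl m).card := by
    have e : V * V * 2 ^ m0 = 2 ^ m0 * (V * V) := mul_comm _ _
    omega
  have hex : ∃ m ∈ Finset.Ico m0 (P.card + 1), P.card ≤ 4 * 2 ^ (m - m0) * (cl m).card := by
    by_contra hcon
    push Not at hcon
    have hPr : (0 : ℝ) < P.card := by exact_mod_cast hcard
    have h1 : ∑ m ∈ Finset.Ico m0 (P.card + 1), ((cl m).card : ℝ) ≤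
        ∑ m ∈ Finset.Ico m0 (P.card + 1), (P.card : ℝ) / 4 * (1 / 2) ^ (m - m0) := by
      apply Finset.sum_le_sum
      intro m hmm
      have h2 := hcon m hmm
      have h3 : (4 * 2 ^ (m - m0) * ((cl m).card : ℝ)) ≤ P.card := by exact_mod_cast h2.le
      have h4 : (0 : ℝ) < 2 ^ (m - m0) := by positivity
      rw [one_div, inv_pow, ← div_eq_mul_inv, le_div_iff₀ h4]
      linarith
    rw [← Finset.mul_sum, Finset.sum_Ico_eq_sum_range (fun m => (1 / 2 : ℝ) ^ (m - m0))] at h1
    have h5 : ∑ k ∈ Finset.range (P.card + 1 - m0), (1 / 2 : ℝ) ^ (m0 + k - m0) < 2 := by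
      have h6 := reg_geom (P.card + 1 - m0)
      have e : ∀ k ∈ Finset.range (P.card + 1 - m0),
          (1 / 2 : ℝ) ^ (m0 + k - m0) = (1 / 2) ^ k := by
        intro k _
        rw [Nat.add_sub_cancel_left]
      rw [Finset.sum_congr rfl e]
      exact h6
    have h7 : (P.card : ℝ) ≤ 2 * ∑ m ∈ Finset.Ico m0 (P.card + 1), ((cl m).card : ℝ) := by
      exact_mod_cast hsum2
    have h8 : (P.card : ℝ) / 4 * ∑ k ∈ Finset.range (P.card + 1 - m0),
        (1 / 2 : ℝ) ^ (m0 + k - m0) < (P.card : ℝ) / 4 * 2 :=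
      mul_lt_mul_of_pos_left h5 (by positivity)
    linarith
  obtain ⟨m, hmm, hPm⟩ := hex
  have hm0 : m0 ≤ m := (Finset.mem_Ico.mp hmm).1
  have hbox : ∀ p ∈ cl m, box h (cl m) p = box h P p := by
    intro p hp
    obtain ⟨hp1, hp2, hp3⟩ := Finset.mem_filter.mp hp
    ext q
    constructor
    · intro hq
      obtain ⟨hq1, hq2⟩ := Finset.mem_filter.mp hq
      exact Finset.mem_filter.mpr ⟨(Finset.mem_filter.mp hq1).1, hq2⟩
    · intro hq
      obtain ⟨hq1, hq2, hq3⟩ := Finset.mem_filter.mp hq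
      have e : box h P q = box h P p := by
        unfold box
        rw [hq2, hq3]
      refine Finset.mem_filter.mpr ⟨Finset.mem_filter.mpr ⟨hq1, ?_, ?_⟩, hq2, hq3⟩
      · rw [e]
        exact hp2
      · rw [e]
        exact hp3
  refine ⟨cl m, Finset.filter_subset _ _, m, hm0, ?_, ?_⟩
  · intro p hp
    rw [hbox p hp]
    exact (Finset.mem_filter.mp hp).2
  · have h1 : 2 ^ m * (cl m).card ≤ (pairs2 h (cl m)).card := by
      refine le_trans ?_ (reg_pairs (cl m))
      have h2 : (cl m).card • 2 ^ m ≤ ∑ p ∈ cl m, (box h (cl m) p).card := by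
        apply Finset.card_nsmul_le_sum
        intro p hp
        rw [hbox p hp]
        exact (Finset.mem_filter.mp hp).2.1
      rw [smul_eq_mul] at h2
      linarith
    have e : 2 ^ m = 2 ^ m0 * 2 ^ (m - m0) := by
      rw [← pow_add]
      congr 1
      omega
    calc 2 ^ m0 * P.card ≤ 2 ^ m0 * (4 * 2 ^ (m - m0) * (cl m).card) :=
          Nat.mul_le_mul_left _ hPm
      _ = 4 * (2 ^ m * (cl m).card) := by rw [e]; ring
      _ ≤ _ := Nat.mul_le_mul_left _ h1

theorem greedy {α β γ : Type*} [DecidableEq α] [DecidableEq β] [DecidableEq γ] (P : Finset α)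
    (κ1 : α → β) (κ2 : α → γ) :
    ∃ P' ⊆ P, Set.InjOn κ1 (P' : Set α) ∧ Set.InjOn κ2 (P' : Set α) ∧
      ∀ p ∈ P, κ1 p ∈ P'.image κ1 ∨ κ2 p ∈ P'.image κ2 := by
  classical
  set S := P.powerset.filter (fun Q : Finset α => Set.InjOn κ1 (Q : Set α) ∧ Set.InjOn κ2 (Q : Set α)) with hS
  have hne : S.Nonempty := by
    refine ⟨∅, Finset.mem_filter.mpr ⟨Finset.empty_mem_powerset P, ?_, ?_⟩⟩
    · rw [Finset.coe_empty]
      exact Set.injOn_empty _
    · rw [Finset.coe_empty]
      exact Set.injOn_empty _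
  obtain ⟨P', hP', hmax⟩ := Finset.exists_max_image S Finset.card hne
  obtain ⟨h1, h2, h3⟩ := Finset.mem_filter.mp hP'
  refine ⟨P', Finset.mem_powerset.mp h1, h2, h3, ?_⟩
  intro p hp
  by_contra hcon
  push Not at hcon
  obtain ⟨hc1, hc2⟩ := hcon
  have hpn : p ∉ P' := fun h => hc1 (Finset.mem_image_of_mem κ1 h)
  have hins : insert p P' ∈ S := by
    refine Finset.mem_filter.mpr ⟨Finset.mem_powerset.mpr
      (Finset.insert_subset hp (Finset.mem_powerset.mp h1)), ?_, ?_⟩
    · rw [Finset.coe_insert, Set.injOn_insert (by exact_mod_cast hpn)]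
      refine ⟨h2, ?_⟩
      rintro ⟨q, hq, hqq⟩
      exact hc1 (Finset.mem_image.mpr ⟨q, Finset.mem_coe.mp hq, hqq⟩)
    · rw [Finset.coe_insert, Set.injOn_insert (by exact_mod_cast hpn)]
      refine ⟨h3, ?_⟩
      rintro ⟨q, hq, hqq⟩
      exact hc2 (Finset.mem_image.mpr ⟨q, Finset.mem_coe.mp hq, hqq⟩)
  have h5 := hmax _ hins
  rw [Finset.card_insert_of_notMem hpn] at h5
  omega

end Pool.Agent.Twin
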