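import Mathlib
import Pool.Agent.Twin.Defs

/-!
# MODULE Twin/Peel  (MP_eb68d6_co)

Peeling off longest chains.

Proof of `exists_peel_one`.  Recursion: `K 0, K 1, …`, where `K m` is a longest set with the property
`Ch` inside `J \ (K 0 ∪ … ∪ K (m-1))` (`Finset.exists_max_image` on the filtered powerset, which contains
`∅`).  The sets are disjoint and have property `Ch`.  If `C ⊆ J \ ⋃_{m < M} K m` has property `Ch`, then
`C` was a candidate at each step `m < M`, so `C.card ≤ (K m).card` for `m < M` and
`M * C.card ≤ ∑_{m < M} (K m).card ≤ J.card`.  (Or: induction on `M` with a statement that also gives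
`C.card ≤ (K m).card` for all `m < M`; for `m ≥ M` put `K m = ∅`.)

Proof of `exists_peeled`: `exists_peel_one` for each pair `(c, c')` and choice; `IsCh` passes to subsets.
-/

set_option autoImplicit false

namespace Pool.Agent.Twin

namespace PeelAux

open Classical in
theorem step {α : Type*} [DecidableEq α] (J : Finset α) (Ch : Finset α → Prop) (h0 : Ch ∅)
    (U : Finset α) : ∃ K : Finset α, K ⊆ J \ U ∧ Ch K ∧
      ∀ C : Finset α, C ⊆ J \ U → Ch C → C.card ≤ K.card := by
  obtain ⟨K, hK, hmax⟩ := Finset.exists_max_image ((J \ U).powerset.filter Ch) Finset.card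
    ⟨∅, Finset.mem_filter.2 ⟨Finset.empty_mem_powerset _, h0⟩⟩
  rw [Finset.mem_filter, Finset.mem_powerset] at hK
  exact ⟨K, hK.1, hK.2, fun C hC hCh =>
    hmax C (Finset.mem_filter.2 ⟨Finset.mem_powerset.2 hC, hCh⟩)⟩

end PeelAux

open PeelAux

theorem exists_peel_one {α : Type*} [DecidableEq α] (J : Finset α) (Ch : Finset α → Prop)
    (h0 : Ch ∅) (M : ℕ) :
    ∃ K : ℕ → Finset α, (∀ m, K m ⊆ J) ∧ (∀ m, Ch (K m)) ∧
      (∀ m m', m ≠ m' → Disjoint (K m) (K m')) ∧
      ∀ C : Finset α, C ⊆ J \ (Finset.range M).biUnion K → Ch C → M * C.card ≤ J.card := by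
  choose st h1 h2 h3 using step J Ch h0
  let acc : ℕ → Finset α := fun n => Nat.rec ∅ (fun _ U => U ∪ st U) n
  have hacc0 : acc 0 = ∅ := rfl
  have hacc : ∀ n, acc (n + 1) = acc n ∪ st (acc n) := fun _ => rfl
  have hmono : Monotone acc := monotone_nat_of_le_succ fun n => by
    rw [hacc]
    exact Finset.subset_union_left
  have hbi : ∀ n, (Finset.range n).biUnion (fun m => st (acc m)) = acc n := by
    intro n
    induction n with
    | zero => rfl
    | succ n ih =>
      rw [Finset.range_add_one, Finset.biUnion_insert, ih, hacc, Finset.union_comm]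
  have hJ : ∀ m, st (acc m) ⊆ J := fun m => (h1 _).trans Finset.sdiff_subset
  have hdis : ∀ m m', m < m' → Disjoint (st (acc m)) (st (acc m')) := by
    intro m m' h
    have h4 : st (acc m) ⊆ acc m' := by
      refine Finset.Subset.trans ?_ (hmono (Nat.succ_le_of_lt h))
      rw [hacc]
      exact Finset.subset_union_right
    rw [Finset.disjoint_left]
    intro a ha hb
    exact (Finset.mem_sdiff.1 (h1 _ hb)).2 (h4 ha)
  have hdis' : ∀ m m', m ≠ m' → Disjoint (st (acc m)) (st (acc m')) := by
    intro m m' h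
    rcases lt_or_gt_of_ne h with h | h
    · exact hdis m m' h
    · exact (hdis m' m h).symm
  refine ⟨fun m => st (acc m), hJ, fun m => h2 _, hdis', ?_⟩
  intro C hC hCh
  rw [hbi] at hC
  have h5 : ∀ m ∈ Finset.range M, C.card ≤ (st (acc m)).card := by
    intro m hm
    apply h3 _ C _ hCh
    intro a ha
    have h6 := Finset.mem_sdiff.1 (hC ha)
    exact Finset.mem_sdiff.2 ⟨h6.1, fun h => h6.2 (hmono (Finset.mem_range.1 hm).le h)⟩
  calc M * C.card = ∑ _m ∈ Finset.range M, C.card := by
        rw [Finset.sum_const, Finset.card_range, smul_eq_mul]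
    _ ≤ ∑ m ∈ Finset.range M, (st (acc m)).card := Finset.sum_le_sum h5
    _ = ((Finset.range M).biUnion fun m => st (acc m)).card := by
        rw [Finset.card_biUnion]
        intro m _ m' _ h
        exact hdis' m m' h
    _ ≤ J.card := Finset.card_le_card (Finset.biUnion_subset.2 fun m _ => hJ m)

theorem exists_peeled (h w u M : ℕ) (P : Finset Pt) :
    ∃ K : ℕ → ℕ → ℕ → Finset (Pt × Pt), Peeled h w u M P K := by
  have h0 : IsCh u ∅ := fun a ha => absurd ha (Finset.notMem_empty a)
  choose K h1 h2 h3 h4 using fun c c' => exists_peel_one (JJ h w P c c') (IsCh u) h0 M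
  exact ⟨K, h1, h2, h3, h4⟩

end Pool.Agent.Twin
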