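import Mathlib
import Pool.Agent.Twin.Defs

/-!
# MODULE Twin/Pop  (MP_eb68d6_co)

The matchings `Mat` of a peeled family: monotonicity and popularity.  Strips have width `q * u`, the
window has width `k * q * u`; the substrip of `p` is `p.1 / u`, its strip `p.1 / u / q = p.1 / (q * u)`,
its window `p.1 / u / (k * q) = p.1 / (k * q * u)` (`Nat.div_div_eq_div_mul`).

Proofs.
* `mat_win`: in the definition of `Fw`.
* `mat_mono`: both pairs have the same direction, so let both be `Fw`.  Shift mode: `e' = e + δ + 1`,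
  `f' = f + δ + 1`.  Chain mode: `e' / q = e / q + s`, `f' / q = f / q + s`; if `e / q ≠ f / q` the order of
  the strips decides (`Nat.div_le_div_right` and so on); if `e / q = f / q` both pairs come from the
  same chain `K c c' m` and `IsCh` says it.  For the direction `false` use `mat_win` (the images are in
  the same window too).
* `gd_mem`, `gd_symm`: definition; `a.1 ≠ a.2` because the strips are different.
* `pop1`: for `a` good with `a.1.1 / (q u) < a.2.1 / (q u)` all samples
  `(true, true, δ, σ, m)` with `δ + 1 = a.2.1 / u - a.1.1 / u` work (it is `≤ k q - 1` because the two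
  substrips are in the same window); these are `k * M` samples and `card (Om k q M) = 4 * (k q) * k * M`.
  If the strips are in the other order use direction `false`.
* `pop2`: again let `c = a.1.1 / (q u) < c' = a.2.1 / (q u)`.  Every `b` of the filtered set has
  `b.1.1 / (q u) = c` and `b.2.1 / (q u) = c'`, hence lies in `K c c' m` for some `m < M`; different `b`
  have different `m`, since `IsCh` makes `b` unique in `K c c' m` (first substrip given).  For each such
  `m` and every `δ` the sample `(true, false, δ, c' - c - 1, m)` works.  So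
  `card (filter b) * (k q) ≤ card (samples)` and multiply by `4 * k * M`.
-/

set_option autoImplicit false

namespace Pool.Agent.Twin

variable {k q u M : ℕ} {P : Finset Pt} {K : ℕ → ℕ → ℕ → Finset (Pt × Pt)}

theorem mat_win (ω : Om k q M) (e e' : ℕ) (h : Mat k q u M K ω e e') :
    e / (k * q) = e' / (k * q) := by
  rcases h with ⟨_, h⟩ | ⟨_, h⟩
  · exact h.1
  · exact h.1.symm

theorem fw_mono (hK : Peeled (k * q * u) (q * u) u M P K) (ω : Om k q M) (e e' f f' : ℕ)
    (h : Fw k q u M K ω e e') (h' : Fw k q u M K ω f f') : e < f ↔ e' < f' := by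
  have hdiv : ∀ x y : ℕ, x / q < y / q → x < y := by
    intro x y hxy
    by_contra hc
    exact absurd (Nat.div_le_div_right (c := q) (not_lt.1 hc)) (not_le.2 hxy)
  rcases h with ⟨_, ⟨hm, h⟩ | ⟨hm, h1, a, ha, ha1, ha2⟩⟩ <;>
    rcases h' with ⟨_, ⟨hm', h'⟩ | ⟨hm', h1', b, hb, hb1, hb2⟩⟩
  · omega
  · rw [hm] at hm'
    cases hm'
  · rw [hm] at hm'
    cases hm'
  · rcases lt_trichotomy (e / q) (f / q) with hlt | heq | hgt
    · have h2 := hdiv _ _ hlt
      have h3 : e' / q < f' / q := by omega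
      have h4 := hdiv _ _ h3
      exact ⟨fun _ => h4, fun _ => h2⟩
    · have h2 : e' / q = f' / q := by omega
      rw [← heq, ← h2] at hb
      have h3 := (hK.ch _ _ _ a ha b hb).1
      rw [ha1, hb1, ha2, hb2] at h3
      exact h3
    · have h2 := hdiv _ _ hgt
      have h3 : f' / q < e' / q := by omega
      have h4 := hdiv _ _ h3
      constructor <;> intro h5 <;> omega

theorem mat_mono (hu : 0 < u) (hk : 0 < k) (hq : 0 < q)
    (hK : Peeled (k * q * u) (q * u) u M P K) (ω : Om k q M) (e e' f f' : ℕ)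
    (hw : e / (k * q) = f / (k * q)) (h : Mat k q u M K ω e e') (h' : Mat k q u M K ω f f') :
    e < f ↔ e' < f' := by
  rcases h with ⟨hd, h⟩ | ⟨hd, h⟩ <;> rcases h' with ⟨hd', h'⟩ | ⟨hd', h'⟩
  · exact fw_mono hK ω _ _ _ _ h h'
  · rw [hd] at hd'
    cases hd'
  · rw [hd] at hd'
    cases hd'
  · exact (fw_mono hK ω _ _ _ _ h h').symm

theorem gd_mem (a : Pt × Pt) (ha : a ∈ Gd (k * q * u) (q * u) M P K) :
    a ∈ pairs2 (k * q * u) P ∧ a.1 ≠ a.2 := by
  unfold Gd at ha
  rw [Finset.mem_filter] at ha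
  refine ⟨ha.1, fun h => ?_⟩
  rcases ha.2 with h1 | h1
  · rw [h] at h1
    exact lt_irrefl _ h1.1
  · rw [h] at h1
    exact lt_irrefl _ h1.1

theorem gd_symm (a : Pt × Pt) (ha : a ∈ Gd (k * q * u) (q * u) M P K) :
    (a.2, a.1) ∈ Gd (k * q * u) (q * u) M P K := by
  unfold Gd at ha ⊢
  rw [Finset.mem_filter] at ha ⊢
  refine ⟨?_, ?_⟩
  · have h := ha.1
    unfold pairs2 at h ⊢
    rw [Finset.mem_filter, Finset.mem_product] at h ⊢
    exact ⟨⟨h.1.2, h.1.1⟩, h.2.1.symm, h.2.2.symm⟩
  · rcases ha.2 with h1 | h1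
    · exact Or.inr h1
    · exact Or.inl h1

/-- the windows and the strips of the two substrips of a good pair -/
theorem pair_div (a : Pt × Pt) (ha : a ∈ Gd (k * q * u) (q * u) M P K) :
    a.1.1 / u / (k * q) = a.2.1 / u / (k * q) ∧ a.1.1 / u / q / k = a.2.1 / u / q / k := by
  have h := (gd_mem a ha).1
  unfold pairs2 at h
  rw [Finset.mem_filter] at h
  have h2 := h.2.1
  constructor
  · rw [Nat.div_div_eq_div_mul, Nat.div_div_eq_div_mul, mul_comm u (k * q)]
    exact h2.symm
  · rw [Nat.div_div_eq_div_mul, Nat.div_div_eq_div_mul, Nat.div_div_eq_div_mul,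
      Nat.div_div_eq_div_mul]
    have e : u * (q * k) = k * q * u := by ring
    rw [e]
    exact h2.symm

theorem sub_lt {w e e' : ℕ} (hw : 0 < w) (h : e / w = e' / w) (hlt : e < e') : e' - e - 1 < w := by
  have h1 := Nat.div_add_mod e w
  have h2 := Nat.div_add_mod e' w
  have h3 := Nat.mod_lt e' hw
  rw [h] at h1
  omega

theorem card_om : Fintype.card (Om k q M) = 4 * (k * q) * (k * M) := by
  simp only [Om, Fintype.card_prod, Fintype.card_bool, Fintype.card_fin]
  ring

open Classical in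
theorem core1 (hk : 0 < k) (hq : 0 < q) (d : Bool) (a : Pt × Pt)
    (ha : a ∈ Gd (k * q * u) (q * u) M P K) (hlt : a.1.1 / (q * u) < a.2.1 / (q * u)) :
    k * M ≤ (Finset.univ.filter fun ω : Om k q M =>
      ω.1 = d ∧ Fw k q u M K ω (a.1.1 / u) (a.2.1 / u)).card := by
  have hw := (pair_div a ha).1
  have hlt1 : a.1.1 / u / q < a.2.1 / u / q := by
    rw [Nat.div_div_eq_div_mul, Nat.div_div_eq_div_mul, mul_comm u q]
    exact hlt
  have hlt2 : a.1.1 / u < a.2.1 / u := by
    by_contra hc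
    exact absurd (Nat.div_le_div_right (c := q) (not_lt.1 hc)) (not_le.2 hlt1)
  have hd := sub_lt (Nat.mul_pos hk hq) hw hlt2
  have h1 : (Finset.univ : Finset (Fin k × Fin M)).card = k * M := by
    rw [Finset.card_univ, Fintype.card_prod, Fintype.card_fin, Fintype.card_fin]
  rw [← h1]
  refine Finset.card_le_card_of_injOn
    (fun x => (d, true, ⟨a.2.1 / u - a.1.1 / u - 1, hd⟩, x.1, x.2)) ?_ ?_
  · intro x _
    rw [Finset.mem_coe, Finset.mem_filter]
    refine ⟨Finset.mem_univ _, rfl, hw, Or.inl ⟨rfl, ?_⟩⟩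
    show a.2.1 / u = a.1.1 / u + (a.2.1 / u - a.1.1 / u - 1) + 1
    omega
  · intro x _ y _ hxy
    simp only [Prod.mk.injEq, true_and] at hxy
    exact Prod.ext hxy.1 hxy.2

open Classical in
theorem core2 (hk : 0 < k) (hK : Peeled (k * q * u) (q * u) u M P K) (d : Bool)
    (a : Pt × Pt) (ha : a ∈ Gd (k * q * u) (q * u) M P K)
    (hlt : a.1.1 / (q * u) < a.2.1 / (q * u)) (S : Finset (Pt × Pt))
    (hS : ∀ b ∈ S, b ∈ Gd (k * q * u) (q * u) M P K ∧ b.1.1 / u = a.1.1 / u ∧
      b.2.1 / u = a.2.1 / u) :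
    S.card * (k * q) ≤ (Finset.univ.filter fun ω : Om k q M =>
      ω.1 = d ∧ Fw k q u M K ω (a.1.1 / u) (a.2.1 / u)).card := by
  obtain ⟨hw, hw2⟩ := pair_div a ha
  have hlt1 : a.1.1 / u / q < a.2.1 / u / q := by
    rw [Nat.div_div_eq_div_mul, Nat.div_div_eq_div_mul, mul_comm u q]
    exact hlt
  have hs := sub_lt hk hw2 hlt1
  have hex : ∀ b ∈ S, ∃ m : Fin M, b ∈ K (a.1.1 / u / q) (a.2.1 / u / q) m := by
    intro b hb
    obtain ⟨h1, h2, h3⟩ := hS b hb
    have e1 : b.1.1 / (q * u) = a.1.1 / u / q := by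
      rw [← h2, Nat.div_div_eq_div_mul, mul_comm q u]
    have e2 : b.2.1 / (q * u) = a.2.1 / u / q := by
      rw [← h3, Nat.div_div_eq_div_mul, mul_comm q u]
    unfold Gd at h1
    rw [Finset.mem_filter, e1, e2] at h1
    rcases h1.2 with h4 | h4
    · obtain ⟨m, hm, hbm⟩ := Finset.mem_biUnion.1 h4.2
      exact ⟨⟨m, Finset.mem_range.1 hm⟩, hbm⟩
    · exact absurd h4.1 (not_lt.2 hlt1.le)
  rcases Nat.eq_zero_or_pos M with hM | hM
  · have : S = ∅ := by
      rw [Finset.eq_empty_iff_forall_notMem]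
      intro b hb
      obtain ⟨m, _⟩ := hex b hb
      have := m.2
      omega
    rw [this]
    simp
  let mm : Pt × Pt → Fin M := fun b => if hb : b ∈ S then (hex b hb).choose else ⟨0, hM⟩
  have hmm : ∀ b ∈ S, b ∈ K (a.1.1 / u / q) (a.2.1 / u / q) (mm b) := by
    intro b hb
    have : mm b = (hex b hb).choose := dif_pos hb
    rw [this]
    exact (hex b hb).choose_spec
  have h1 : (S ×ˢ (Finset.univ : Finset (Fin (k * q)))).card = S.card * (k * q) := by
    rw [Finset.card_product, Finset.card_univ, Fintype.card_fin]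
  rw [← h1]
  refine Finset.card_le_card_of_injOn
    (fun x => (d, false, x.2, ⟨a.2.1 / u / q - a.1.1 / u / q - 1, hs⟩, mm x.1)) ?_ ?_
  · intro x hx
    have hx1 := (Finset.mem_product.1 (Finset.mem_coe.1 hx)).1
    rw [Finset.mem_coe, Finset.mem_filter]
    refine ⟨Finset.mem_univ _, rfl, hw, Or.inr ⟨rfl, ?_, x.1, hmm _ hx1, (hS _ hx1).2.1,
      (hS _ hx1).2.2⟩⟩
    show a.2.1 / u / q = a.1.1 / u / q + (a.2.1 / u / q - a.1.1 / u / q - 1) + 1
    omega
  · intro x hx y hy hxy
    have hx1 := (Finset.mem_product.1 (Finset.mem_coe.1 hx)).1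
    have hy1 := (Finset.mem_product.1 (Finset.mem_coe.1 hy)).1
    simp only [Prod.mk.injEq, true_and] at hxy
    refine Prod.ext ?_ hxy.1
    have h2 := hmm _ hx1
    have h3 := hmm _ hy1
    rw [← hxy.2] at h3
    refine (hK.ch _ _ _ _ h2 _ h3).2 ?_
    rw [(hS _ hx1).2.1, (hS _ hy1).2.1]

theorem gd_lt (a : Pt × Pt) (ha : a ∈ Gd (k * q * u) (q * u) M P K) :
    a.1.1 / (q * u) < a.2.1 / (q * u) ∨ a.2.1 / (q * u) < a.1.1 / (q * u) := by
  unfold Gd at ha
  rw [Finset.mem_filter] at ha
  rcases ha.2 with h | h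
  · exact Or.inl h.1
  · exact Or.inr h.1

open Classical in
theorem pop1 (hu : 0 < u) (hk : 0 < k) (hq : 0 < q) (hM : 0 < M)
    (hK : Peeled (k * q * u) (q * u) u M P K) (a : Pt × Pt)
    (ha : a ∈ Gd (k * q * u) (q * u) M P K) :
    Fintype.card (Om k q M) ≤ 4 * (k * q) *
      (Finset.univ.filter fun ω => Mat k q u M K ω (a.1.1 / u) (a.2.1 / u)).card := by
  rw [card_om]
  refine Nat.mul_le_mul_left _ ?_
  rcases gd_lt a ha with hlt | hlt
  · refine (core1 hk hq true a ha hlt).trans (Finset.card_le_card ?_)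
    intro ω hω
    rw [Finset.mem_filter] at hω ⊢
    exact ⟨hω.1, Or.inl hω.2⟩
  · refine (core1 hk hq false (a.2, a.1) (gd_symm a ha) hlt).trans (Finset.card_le_card ?_)
    intro ω hω
    rw [Finset.mem_filter] at hω ⊢
    exact ⟨hω.1, Or.inr hω.2⟩

open Classical in
theorem pop2 (hu : 0 < u) (hk : 0 < k) (hq : 0 < q) (hM : 0 < M)
    (hK : Peeled (k * q * u) (q * u) u M P K) (a : Pt × Pt)
    (ha : a ∈ Gd (k * q * u) (q * u) M P K) :
    Fintype.card (Om k q M) * ((Gd (k * q * u) (q * u) M P K).filter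
        fun b => b.1.1 / u = a.1.1 / u ∧ b.2.1 / u = a.2.1 / u).card ≤ 4 * (k * M) *
      (Finset.univ.filter fun ω => Mat k q u M K ω (a.1.1 / u) (a.2.1 / u)).card := by
  have key : ((Gd (k * q * u) (q * u) M P K).filter
        fun b => b.1.1 / u = a.1.1 / u ∧ b.2.1 / u = a.2.1 / u).card * (k * q) ≤
      (Finset.univ.filter fun ω => Mat k q u M K ω (a.1.1 / u) (a.2.1 / u)).card := by
    rcases gd_lt a ha with hlt | hlt
    · refine (core2 hk hK true a ha hlt _ ?_).trans (Finset.card_le_card ?_)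
      · intro b hb
        rw [Finset.mem_filter] at hb
        exact hb
      · intro ω hω
        rw [Finset.mem_filter] at hω ⊢
        exact ⟨hω.1, Or.inl hω.2⟩
    · have hinj : Function.Injective (fun b : Pt × Pt => (b.2, b.1)) := by
        intro x y hxy
        simp only [Prod.mk.injEq] at hxy
        exact Prod.ext hxy.2 hxy.1
      rw [← Finset.card_image_of_injective _ hinj]
      refine (core2 hk hK false (a.2, a.1) (gd_symm a ha) hlt _ ?_).trans (Finset.card_le_card ?_)
      · intro b hb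
        obtain ⟨c, hc, rfl⟩ := Finset.mem_image.1 hb
        rw [Finset.mem_filter] at hc
        exact ⟨gd_symm c hc.1, hc.2.2, hc.2.1⟩
      · intro ω hω
        rw [Finset.mem_filter] at hω ⊢
        exact ⟨hω.1, Or.inr hω.2⟩
  rw [card_om]
  calc 4 * (k * q) * (k * M) * _ = 4 * (k * M) * (_ * (k * q)) := by ring
    _ ≤ _ := Nat.mul_le_mul_left _ key

end Pool.Agent.Twin
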