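import Mathlib
import Pool.Agent.Twin.Defs
import Pool.Agent.Twin.Swap
import Pool.Agent.Twin.Es

/-!
# MODULE Twin/TripA  (MP_eb68d6_co)

The bad triples in three given strips.  `w` is the width of the strips, `u` of the substrips (`u ∣ w`).

Let `c1 < c2 < c3` and let `B` be the set of the bad triples `t = (t1, t2, t3)` with `t1.1 / w = c1`,
`t2.1 / w = c2`, `t3.1 / w = c3`.  Take a subset `K0 ⊆ B` of maximal cardinality among those on which the
three maps `t ↦ t_s.1 / u` are injective.  Every `t ∈ B` agrees with some `t' ∈ K0` in one of the three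
maps (else `insert t K0`; `t ∈ K0` is allowed); given `t'` and `s`, there are at most `u` triples
`t ∈ B` with `t_s.1 / u = t'_s.1 / u`: the abscissas `t_s.1` lie in an interval of length `u`
(`x / u = m ↔ m * u ≤ x < (m + 1) * u`) and `t` is determined by `t_s.1`: distinct abscissas (`hP`) give
`t_s`, and the other two points lie in a given strip and in the same row window as `t_s`, so `hbox`.
So `B.card ≤ 3 * u * K0.card`.
By `es3` with `α s t = t_s.1 / u`, `K0.card ≤ L01 * L02 * L12` with `L_{st} = (JJ h w P c_s c_t).card / M`: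
a set `C ⊆ K0` on which `α s` and `α t` increase together gives
`C.image (fun t => (t_s, t_t))` of the same size (injective on `C`, because `α s` is), which satisfies
`IsCh u` and is contained in `JJ c_s c_t \ ⋃ K`, since the pairs are not good and `c_s < c_t`;
`Peeled.rest` and `Nat.le_div_iff_mul_le`.  Finally `M * (J / M) ≤ J` three times.
-/

set_option autoImplicit false

namespace Pool.Agent.Twin

namespace TripAAux

/-- the three points of a triple -/
def pt (s : Fin 3) (t : Pt × Pt × Pt) : Pt := ![t.1, t.2.1, t.2.2] s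

theorem chain_le {h w u M : ℕ} (hM : 0 < M) {P : Finset Pt} {K : ℕ → ℕ → ℕ → Finset (Pt × Pt)}
    (hK : Peeled h w u M P K) {K0 : Finset (Pt × Pt × Pt)} {f g : Pt × Pt × Pt → Pt} {c c' : ℕ}
    (hB : ∀ t ∈ K0, (f t, g t) ∈ JJ h w P c c' \ (Finset.range M).biUnion (K c c'))
    (hinj : Set.InjOn (fun t => (f t).1 / u) (K0 : Set (Pt × Pt × Pt))) :
    ∀ C ⊆ K0, (∀ i ∈ C, ∀ j ∈ C, (f i).1 / u < (f j).1 / u ↔ (g i).1 / u < (g j).1 / u) →
      C.card ≤ (JJ h w P c c').card / M := by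
  intro C hC hch
  rw [Nat.le_div_iff_mul_le hM, mul_comm]
  have hcard : (C.image fun t => (f t, g t)).card = C.card := by
    apply Finset.card_image_of_injOn
    intro t ht t' ht' htt
    simp only [Prod.mk.injEq] at htt
    apply hinj (hC ht) (hC ht')
    simp only
    rw [htt.1]
  rw [← hcard]
  apply hK.rest
  · intro a ha
    obtain ⟨t, ht, rfl⟩ := Finset.mem_image.1 ha
    exact hB t (hC ht)
  · intro a ha b hb
    obtain ⟨t, ht, rfl⟩ := Finset.mem_image.1 ha
    obtain ⟨t', ht', rfl⟩ := Finset.mem_image.1 hb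
    refine ⟨hch t ht t' ht', fun hab => ?_⟩
    have : t = t' := hinj (hC ht) (hC ht') hab
    rw [this]

theorem fibre_le {u : ℕ} (hu : 0 < u) {B : Finset (Pt × Pt × Pt)} {f : Pt × Pt × Pt → Pt}
    (hf : ∀ t ∈ B, ∀ t' ∈ B, (f t).1 = (f t').1 → t = t') (m : ℕ) :
    (B.filter fun t => (f t).1 / u = m).card ≤ u := by
  have h : (B.filter fun t => (f t).1 / u = m).card ≤ (Finset.range u).card := by
    apply Finset.card_le_card_of_injOn (fun t => (f t).1 % u)
    · intro t _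
      simp only [Finset.coe_range, Set.mem_Iio]
      exact Nat.mod_lt _ hu
    · intro t ht t' ht' htt
      have ht1 := Finset.mem_filter.1 (Finset.mem_coe.1 ht)
      have ht2 := Finset.mem_filter.1 (Finset.mem_coe.1 ht')
      apply hf t ht1.1 t' ht2.1
      simp only at htt
      rw [← Nat.div_add_mod (f t).1 u, ← Nat.div_add_mod (f t').1 u, ht1.2, ht2.2, htt]
  rwa [Finset.card_range] at h

end TripAAux

open TripAAux

theorem bad_strips {h w u M : ℕ} (hu : 0 < u) (hM : 0 < M) {P : Finset Pt} (hP : IsPP P)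
    (huw : u ∣ w) (hwh : w ∣ h) (hw : 0 < w) (hh : 0 < h)
    (hbox : ∀ p ∈ P, ∀ p' ∈ P, p.1 / w = p'.1 / w → p.2 / h = p'.2 / h → p = p')
    {K : ℕ → ℕ → ℕ → Finset (Pt × Pt)} (hK : Peeled h w u M P K) {c1 c2 c3 : ℕ} (h12 : c1 < c2)
    (h23 : c2 < c3) :
    M ^ 3 * ((badT h P (Gd h w M P K)).filter fun t =>
        t.1.1 / w = c1 ∧ t.2.1.1 / w = c2 ∧ t.2.2.1 / w = c3).card ≤
      3 * u * ((JJ h w P c1 c2).card * (JJ h w P c1 c3).card * (JJ h w P c2 c3).card) := by
  classical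
  set B := (badT h P (Gd h w M P K)).filter fun t =>
        t.1.1 / w = c1 ∧ t.2.1.1 / w = c2 ∧ t.2.2.1 / w = c3 with hBdef
  -- the points of the triples
  have hmem : ∀ t ∈ B, ∀ s : Fin 3, pt s t ∈ P ∧ (pt s t).1 / w = ![c1, c2, c3] s ∧
      (pt s t).2 / h = t.1.2 / h := by
    intro t ht s
    rw [hBdef, Finset.mem_filter, mem_badT, mem_trip3] at ht
    obtain ⟨⟨⟨⟨m1, m2, m3⟩, ⟨a1, a2⟩, a3, a4⟩, -, -⟩, e1, e2, e3⟩ := ht
    fin_cases s
    · exact ⟨m1, e1, rfl⟩
    · exact ⟨m2, e2, a2⟩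
    · exact ⟨m3, e3, a4⟩
  have hdet : ∀ s : Fin 3, ∀ t ∈ B, ∀ t' ∈ B, (pt s t).1 = (pt s t').1 → t = t' := by
    intro s t ht t' ht' hs
    have h1 : pt s t = pt s t' := hP.1 (hmem t ht s).1 (hmem t' ht' s).1 hs
    have h2 : t.1.2 / h = t'.1.2 / h := by
      rw [← (hmem t ht s).2.2, ← (hmem t' ht' s).2.2, h1]
    have h3 : ∀ r : Fin 3, pt r t = pt r t' := by
      intro r
      apply hbox _ (hmem t ht r).1 _ (hmem t' ht' r).1
      · rw [(hmem t ht r).2.1, (hmem t' ht' r).2.1]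
      · rw [(hmem t ht r).2.2, (hmem t' ht' r).2.2, h2]
    exact Prod.ext (h3 0) (Prod.ext (h3 1) (h3 2))
  -- pairs are not peeled
  have hnot : ∀ {c c' : ℕ}, c < c' → ∀ p p' : Pt, (p, p') ∈ pairs2 h P → p.1 / w = c →
      p'.1 / w = c' → (p, p') ∉ Gd h w M P K →
      (p, p') ∈ JJ h w P c c' \ (Finset.range M).biUnion (K c c') := by
    intro c c' hcc p p' hpp hc hc' hG
    rw [Finset.mem_sdiff]
    refine ⟨?_, fun hk => hG ?_⟩
    · unfold JJ
      rw [Finset.mem_filter]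
      exact ⟨hpp, hc, hc'⟩
    · unfold Gd
      rw [Finset.mem_filter]
      refine ⟨hpp, Or.inl ?_⟩
      simp only
      rw [hc, hc']
      exact ⟨hcc, hk⟩
  have hpairs : ∀ t ∈ B, (t.1, t.2.1) ∈ JJ h w P c1 c2 \ (Finset.range M).biUnion (K c1 c2) ∧
      (t.1, t.2.2) ∈ JJ h w P c1 c3 \ (Finset.range M).biUnion (K c1 c3) ∧
      (t.2.1, t.2.2) ∈ JJ h w P c2 c3 \ (Finset.range M).biUnion (K c2 c3) := by
    intro t ht
    rw [hBdef, Finset.mem_filter, mem_badT, mem_trip3] at ht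
    obtain ⟨⟨⟨⟨m1, m2, m3⟩, ⟨a1, a2⟩, a3, a4⟩, -, g1, g2, g3⟩, e1, e2, e3⟩ := ht
    refine ⟨hnot h12 _ _ ?_ e1 e2 g1, hnot (h12.trans h23) _ _ ?_ e1 e3 g2,
      hnot h23 _ _ ?_ e2 e3 g3⟩
    · exact mem_pairs2.2 ⟨⟨m1, m2⟩, a1, a2⟩
    · exact mem_pairs2.2 ⟨⟨m1, m3⟩, a3, a4⟩
    · exact mem_pairs2.2 ⟨⟨m2, m3⟩, a3.trans a1.symm, a4.trans a2.symm⟩
  -- the maximal subset
  obtain ⟨K0, hK0, hmax⟩ := Finset.exists_max_image
    (B.powerset.filter fun K0 : Finset (Pt × Pt × Pt) => ∀ s : Fin 3,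
      Set.InjOn (fun t => (pt s t).1 / u) (K0 : Set (Pt × Pt × Pt))) Finset.card
    ⟨∅, by simp⟩
  rw [Finset.mem_filter, Finset.mem_powerset] at hK0
  obtain ⟨hK0B, hK0i⟩ := hK0
  have hcov : ∀ t ∈ B, ∃ t' ∈ K0, ∃ s : Fin 3, (pt s t).1 / u = (pt s t').1 / u := by
    intro t ht
    by_contra hcon
    push Not at hcon
    have htK : t ∉ K0 := fun h => hcon t h 0 rfl
    have h1 : insert t K0 ∈ B.powerset.filter fun K0 : Finset (Pt × Pt × Pt) => ∀ s : Fin 3,
        Set.InjOn (fun t => (pt s t).1 / u) (K0 : Set (Pt × Pt × Pt)) := by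
      rw [Finset.mem_filter, Finset.mem_powerset]
      refine ⟨Finset.insert_subset ht hK0B, fun s => ?_⟩
      rw [Finset.coe_insert, Set.injOn_insert (by exact_mod_cast htK)]
      refine ⟨hK0i s, ?_⟩
      rintro ⟨t', ht', he⟩
      exact hcon t' ht' s he.symm
    have h2 := hmax _ h1
    rw [Finset.card_insert_of_notMem htK] at h2
    omega
  have hBcard : B.card ≤ K0.card * (3 * u) := by
    have hsub : B ⊆ K0.biUnion fun t' => (Finset.univ : Finset (Fin 3)).biUnion fun s =>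
        B.filter fun t => (pt s t).1 / u = (pt s t').1 / u := by
      intro t ht
      obtain ⟨t', ht', s, hs⟩ := hcov t ht
      rw [Finset.mem_biUnion]
      refine ⟨t', ht', ?_⟩
      rw [Finset.mem_biUnion]
      exact ⟨s, Finset.mem_univ s, Finset.mem_filter.2 ⟨ht, hs⟩⟩
    refine (Finset.card_le_card hsub).trans (Finset.card_biUnion_le_card_mul _ _ _ ?_)
    intro t' _
    have h1 := Finset.card_biUnion_le_card_mul (Finset.univ : Finset (Fin 3))
      (fun s => B.filter fun t => (pt s t).1 / u = (pt s t').1 / u) u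
      (fun s _ => fibre_le hu (hdet s) _)
    simpa using h1
  have hes := es3 K0 (fun s t => (pt s t).1 / u) hK0i ((JJ h w P c1 c2).card / M)
    ((JJ h w P c1 c3).card / M) ((JJ h w P c2 c3).card / M)
    (chain_le (f := pt 0) (g := pt 1) hM hK (fun t ht => (hpairs t (hK0B ht)).1) (hK0i 0))
    (chain_le (f := pt 0) (g := pt 2) hM hK (fun t ht => (hpairs t (hK0B ht)).2.1) (hK0i 0))
    (chain_le (f := pt 1) (g := pt 2) hM hK (fun t ht => (hpairs t (hK0B ht)).2.2) (hK0i 1))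
  set a := (JJ h w P c1 c2).card
  set b := (JJ h w P c1 c3).card
  set c := (JJ h w P c2 c3).card
  have ha : M * (a / M) ≤ a := Nat.mul_div_le a M
  have hb : M * (b / M) ≤ b := Nat.mul_div_le b M
  have hc : M * (c / M) ≤ c := Nat.mul_div_le c M
  calc M ^ 3 * B.card ≤ M ^ 3 * (K0.card * (3 * u)) := Nat.mul_le_mul_left _ hBcard
    _ ≤ M ^ 3 * ((a / M * (b / M) * (c / M)) * (3 * u)) :=
        Nat.mul_le_mul_left _ (Nat.mul_le_mul_right _ hes)
    _ = 3 * u * ((M * (a / M)) * (M * (b / M)) * (M * (c / M))) := by ring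
    _ ≤ 3 * u * (a * b * c) :=
        Nat.mul_le_mul_left _ (Nat.mul_le_mul (Nat.mul_le_mul ha hb) hc)

end Pool.Agent.Twin
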