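import Mathlib
import Pool.Agent.Twin.Defs
import Pool.Agent.Twin.Swap

/-!
# MODULE Twin/TripB  (MP_eb68d6_co)

Proof.  `(JJ h w P c2 c3).card ≤ w` for all `c2, c3`: a pair `a` is determined by the abscissa of its first
point (`hP`; the second point is in the strip `c3` and in the row window of the first one, `hbox`), which
lies in an interval of length `w`.  Hence the sum is at most `w * ∑ c1 ∈ Cs, (∑ c ∈ Cs, (JJ c1 c).card)^2`.
`∑ c ∈ Cs, (JJ h w P c1 c).card ≤ ∑ p ∈ P.filter (p.1 / w = c1), (box h P p).card` (the pairs `a` with first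
point `p` and arbitrary second point in the box of `p`; the sets for different `c` are disjoint).  The
strip has at most `w` points; Cauchy–Schwarz (`sq_sum_le_card_mul_sum_sq`): the square is at most
`w * ∑ p ∈ P.filter (p.1 / w = c1), (box h P p).card ^ 2`, and summing over `c1 ∈ Cs` (disjoint strips) at
most `w * ∑ p ∈ P, (box h P p).card ^ 2 = w * (trip3 h P).card` (the triples with first point `p` are
`{p} × box × box`).
-/

set_option autoImplicit false

namespace Pool.Agent.Twin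

theorem strip_card {w : ℕ} {P : Finset Pt} (hP : IsPP P) (hw : 0 < w) (c : ℕ) :
    (P.filter fun p => p.1 / w = c).card ≤ w := by
  have h1 : (P.filter fun p => p.1 / w = c).card ≤ (Finset.Ico (c * w) (c * w + w)).card := by
    apply Finset.card_le_card_of_injOn (fun p => p.1)
    · intro p hp
      have hp' := Finset.mem_coe.1 hp
      rw [Finset.mem_filter] at hp'
      have h2 := Nat.div_add_mod p.1 w
      have h3 := Nat.mod_lt p.1 hw
      rw [hp'.2] at h2
      have : w * c = c * w := Nat.mul_comm _ _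
      simp only [Finset.coe_Ico, Set.mem_Ico]
      constructor <;> omega
    · intro p hp q hq hpq
      have hp' := Finset.mem_filter.1 (Finset.mem_coe.1 hp)
      have hq' := Finset.mem_filter.1 (Finset.mem_coe.1 hq)
      exact hP.1 (Finset.mem_coe.2 hp'.1) (Finset.mem_coe.2 hq'.1) hpq
  simpa using h1

theorem JJ_card_le {h w : ℕ} {P : Finset Pt} (hP : IsPP P) (hw : 0 < w)
    (hbox : ∀ p ∈ P, ∀ p' ∈ P, p.1 / w = p'.1 / w → p.2 / h = p'.2 / h → p = p')
    (c c' : ℕ) : (JJ h w P c c').card ≤ w := by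
  refine le_trans ?_ (strip_card hP hw c)
  apply Finset.card_le_card_of_injOn (fun a => a.1)
  · intro a ha
    have ha' := Finset.mem_filter.1 (Finset.mem_coe.1 ha)
    have h1 := Finset.mem_filter.1 ha'.1
    exact Finset.mem_coe.2 (Finset.mem_filter.2 ⟨(Finset.mem_product.1 h1.1).1, ha'.2.1⟩)
  · intro a ha b hb hab
    have ha' := Finset.mem_filter.1 (Finset.mem_coe.1 ha)
    have h1 := Finset.mem_filter.1 ha'.1
    have hb' := Finset.mem_filter.1 (Finset.mem_coe.1 hb)
    have h2 := Finset.mem_filter.1 hb'.1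
    have hab' : a.1 = b.1 := hab
    have e : a.2 = b.2 := by
      apply hbox _ (Finset.mem_product.1 h1.1).2 _ (Finset.mem_product.1 h2.1).2
      · rw [ha'.2.2, hb'.2.2]
      · rw [h1.2.2, h2.2.2, hab']
    exact Prod.ext hab' e

theorem sum_JJ_le {h w : ℕ} {P : Finset Pt} (Cs : Finset ℕ) (c1 : ℕ) :
    ∑ c ∈ Cs, (JJ h w P c1 c).card ≤ ∑ p ∈ P.filter (fun p => p.1 / w = c1), (box h P p).card := by
  have h1 : ∑ c ∈ Cs, (JJ h w P c1 c).card =
      (Cs.biUnion fun c => JJ h w P c1 c).card := by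
    rw [Finset.card_biUnion]
    intro c _ c' _ hcc
    rw [Function.onFun, Finset.disjoint_left]
    intro a ha hb
    exact hcc ((Finset.mem_filter.1 ha).2.2.symm.trans (Finset.mem_filter.1 hb).2.2)
  rw [h1, ← Finset.card_sigma]
  apply Finset.card_le_card_of_injOn (fun a => (⟨a.1, a.2⟩ : Σ _ : Pt, Pt))
  · intro a ha
    obtain ⟨c, hc, ha'⟩ := Finset.mem_biUnion.1 (Finset.mem_coe.1 ha)
    have ha'' := Finset.mem_filter.1 ha'
    have h2 := Finset.mem_filter.1 ha''.1
    refine Finset.mem_coe.2 (Finset.mem_sigma.2 ⟨?_, ?_⟩)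
    · exact Finset.mem_filter.2 ⟨(Finset.mem_product.1 h2.1).1, ha''.2.1⟩
    · exact Finset.mem_filter.2 ⟨(Finset.mem_product.1 h2.1).2, h2.2⟩
  · intro a _ b _ hab
    have hab' : (⟨a.1, a.2⟩ : Σ _ : Pt, Pt) = ⟨b.1, b.2⟩ := hab
    have e1 : a.1 = b.1 := congrArg Sigma.fst hab'
    have e2 : a.2 = b.2 := by
      have := congrArg (fun s : (Σ _ : Pt, Pt) => s.2) hab'
      exact this
    exact Prod.ext e1 e2

theorem sum_box_sq (h : ℕ) (P : Finset Pt) :
    ∑ p ∈ P, (box h P p).card ^ 2 = (trip3 h P).card := by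
  have h1 : ∑ p ∈ P, (box h P p).card ^ 2 =
      (P.sigma fun p => (box h P p) ×ˢ (box h P p)).card := by
    rw [Finset.card_sigma]
    apply Finset.sum_congr rfl
    intro p _
    rw [Finset.card_product, sq]
  rw [h1]
  apply Finset.card_bij (fun s _ => (s.1, s.2.1, s.2.2))
  · intro s hs
    have hs' := Finset.mem_sigma.1 hs
    have h2 := Finset.mem_product.1 hs'.2
    have h3 := Finset.mem_filter.1 h2.1
    have h4 := Finset.mem_filter.1 h2.2
    refine Finset.mem_filter.2 ⟨?_, h3.2, h4.2⟩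
    exact Finset.mem_product.2 ⟨hs'.1, Finset.mem_product.2 ⟨h3.1, h4.1⟩⟩
  · rintro ⟨a, b, c⟩ _ ⟨a', b', c'⟩ _ hab
    simp only [Prod.mk.injEq] at hab
    obtain ⟨e1, e2, e3⟩ := hab
    subst e1; subst e2; subst e3
    rfl
  · rintro ⟨a, b, c⟩ ht
    have ht' := Finset.mem_filter.1 ht
    have h2 := Finset.mem_product.1 ht'.1
    have h3 := Finset.mem_product.1 h2.2
    refine ⟨⟨a, b, c⟩, ?_, rfl⟩
    refine Finset.mem_sigma.2 ⟨h2.1, Finset.mem_product.2 ⟨?_, ?_⟩⟩
    · exact Finset.mem_filter.2 ⟨h3.1, ht'.2.1⟩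
    · exact Finset.mem_filter.2 ⟨h3.2, ht'.2.2⟩

theorem sum_strips {h w : ℕ} {P : Finset Pt} (hP : IsPP P) (hw : 0 < w)
    (hbox : ∀ p ∈ P, ∀ p' ∈ P, p.1 / w = p'.1 / w → p.2 / h = p'.2 / h → p = p')
    (Cs : Finset ℕ) :
    ∑ c1 ∈ Cs, ∑ c2 ∈ Cs, ∑ c3 ∈ Cs,
      (JJ h w P c1 c2).card * (JJ h w P c1 c3).card * (JJ h w P c2 c3).card ≤
        w ^ 2 * (trip3 h P).card := by
  set S : ℕ → ℕ := fun c1 => ∑ p ∈ P.filter (fun p => p.1 / w = c1), (box h P p).card with hS
  have step1 : ∀ c1 ∈ Cs, ∑ c2 ∈ Cs, ∑ c3 ∈ Cs,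
      (JJ h w P c1 c2).card * (JJ h w P c1 c3).card * (JJ h w P c2 c3).card ≤
        w * (w * ∑ p ∈ P.filter (fun p => p.1 / w = c1), (box h P p).card ^ 2) := by
    intro c1 _
    calc ∑ c2 ∈ Cs, ∑ c3 ∈ Cs,
          (JJ h w P c1 c2).card * (JJ h w P c1 c3).card * (JJ h w P c2 c3).card
        ≤ ∑ c2 ∈ Cs, ∑ c3 ∈ Cs, (JJ h w P c1 c2).card * (JJ h w P c1 c3).card * w := by
          apply Finset.sum_le_sum
          intro c2 _
          apply Finset.sum_le_sum
          intro c3 _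
          exact Nat.mul_le_mul_left _ (JJ_card_le hP hw hbox c2 c3)
      _ = w * ((∑ c ∈ Cs, (JJ h w P c1 c).card) * (∑ c ∈ Cs, (JJ h w P c1 c).card)) := by
          rw [Finset.sum_mul_sum, Finset.mul_sum]
          apply Finset.sum_congr rfl
          intro c2 _
          rw [Finset.mul_sum]
          apply Finset.sum_congr rfl
          intro c3 _
          ring
      _ ≤ w * (S c1 * S c1) :=
          Nat.mul_le_mul_left _ (Nat.mul_le_mul (sum_JJ_le Cs c1) (sum_JJ_le Cs c1))
      _ = w * (S c1) ^ 2 := by rw [sq]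
      _ ≤ w * (w * ∑ p ∈ P.filter (fun p => p.1 / w = c1), (box h P p).card ^ 2) := by
          apply Nat.mul_le_mul_left
          refine le_trans (sq_sum_le_card_mul_sum_sq) ?_
          exact Nat.mul_le_mul_right _ (strip_card hP hw c1)
  calc ∑ c1 ∈ Cs, ∑ c2 ∈ Cs, ∑ c3 ∈ Cs,
        (JJ h w P c1 c2).card * (JJ h w P c1 c3).card * (JJ h w P c2 c3).card
      ≤ ∑ c1 ∈ Cs, w * (w * ∑ p ∈ P.filter (fun p => p.1 / w = c1), (box h P p).card ^ 2) :=
        Finset.sum_le_sum step1
    _ = w ^ 2 * ∑ c1 ∈ Cs, ∑ p ∈ P.filter (fun p => p.1 / w = c1), (box h P p).card ^ 2 := by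
        rw [Finset.mul_sum]
        apply Finset.sum_congr rfl
        intro c1 _
        ring
    _ ≤ w ^ 2 * ∑ p ∈ P, (box h P p).card ^ 2 := by
        apply Nat.mul_le_mul_left
        have h2 : ∑ c1 ∈ Cs, ∑ p ∈ P.filter (fun p => p.1 / w = c1), (box h P p).card ^ 2 =
            ∑ p ∈ P.filter (fun p => p.1 / w ∈ Cs), (box h P p).card ^ 2 := by
          rw [← Finset.sum_fiberwise_of_maps_to (s := P.filter (fun p => p.1 / w ∈ Cs)) (t := Cs)
            (g := fun p => p.1 / w) (fun p hp => (Finset.mem_filter.1 hp).2)]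
          apply Finset.sum_congr rfl
          intro c1 hc1
          apply Finset.sum_congr _ (fun _ _ => rfl)
          ext p
          simp only [Finset.mem_filter]
          constructor
          · rintro ⟨a, b⟩
            exact ⟨⟨a, b ▸ hc1⟩, b⟩
          · rintro ⟨⟨a, _⟩, b⟩
            exact ⟨a, b⟩
        rw [h2]
        exact Finset.sum_le_sum_of_subset (Finset.filter_subset _ _)
    _ = w ^ 2 * (trip3 h P).card := by rw [sum_box_sq]

end Pool.Agent.Twin
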