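import Mathlib
import Pool.Agent.Twin.Defs
import Pool.Agent.Twin.Swap
import Pool.Agent.Twin.TripA
import Pool.Agent.Twin.TripB

/-!
# MODULE Twin/Trip  (MP_eb68d6_co)

Few triples of points are bad.

Proof.  Let `T = badT h P (Gd h w M P K)` and let `T'` be the set of the `t ∈ T` whose three strips
`t.1.1 / w < t.2.1.1 / w < t.2.2.1 / w` are increasing.  The strips of the points of `t ∈ T` are distinct
(the points are distinct and in the same row window, `hbox`), and `T` is invariant under the six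
permutations of the entries (the set `Gd` is symmetric: `(p, p') ∈ Gd → (p', p) ∈ Gd`, directly from
the definition; the conditions of `trip3` are symmetric).  So `T` is contained in the union of the six
images of `T'` under the permutations and `T.card ≤ 6 * T'.card`.  With `Cs = P.image (p ↦ p.1 / w)`, `T'` is
the union over `c1 < c2 < c3` in `Cs` of the sets of `bad_strips`, so
`M ^ 3 * T'.card ≤ ∑_{c1 < c2 < c3} 3 * u * (..) ≤ 3 * u * ∑_{c1, c2, c3 ∈ Cs} (..) ≤ 3 * u * w ^ 2 * card (trip3)`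
by `bad_strips` and `sum_strips`.
-/

set_option autoImplicit false

namespace Pool.Agent.Twin

namespace TripAux

/-- exchange of the first two points -/
def s1 (t : Pt × Pt × Pt) : Pt × Pt × Pt := (t.2.1, t.1, t.2.2)

/-- exchange of the last two points -/
def s2 (t : Pt × Pt × Pt) : Pt × Pt × Pt := (t.1, t.2.2, t.2.1)

theorem Gd_symm {h w M : ℕ} {P : Finset Pt} {K : ℕ → ℕ → ℕ → Finset (Pt × Pt)} {p p' : Pt}
    (hp : (p, p') ∈ Gd h w M P K) : (p', p) ∈ Gd h w M P K := by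
  unfold Gd at hp ⊢
  rw [Finset.mem_filter, mem_pairs2] at hp ⊢
  obtain ⟨⟨⟨h1, h2⟩, h3, h4⟩, h5⟩ := hp
  exact ⟨⟨⟨h2, h1⟩, h3.symm, h4.symm⟩, h5.symm⟩

theorem s1_mem {h : ℕ} {P : Finset Pt} {G : Finset (Pt × Pt)}
    (hG : ∀ p p', (p, p') ∈ G → (p', p) ∈ G) {t : Pt × Pt × Pt} (ht : t ∈ badT h P G) :
    s1 t ∈ badT h P G := by
  rw [mem_badT, mem_trip3] at ht ⊢
  obtain ⟨⟨⟨m1, m2, m3⟩, ⟨a1, a2⟩, a3, a4⟩, ⟨n1, n2, n3⟩, g1, g2, g3⟩ := ht
  exact ⟨⟨⟨m2, m1, m3⟩, ⟨a1.symm, a2.symm⟩, a3.trans a1.symm, a4.trans a2.symm⟩,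
    ⟨n1.symm, n3, n2⟩, fun hh => g1 (hG _ _ hh), g3, g2⟩

theorem s2_mem {h : ℕ} {P : Finset Pt} {G : Finset (Pt × Pt)}
    (hG : ∀ p p', (p, p') ∈ G → (p', p) ∈ G) {t : Pt × Pt × Pt} (ht : t ∈ badT h P G) :
    s2 t ∈ badT h P G := by
  rw [mem_badT, mem_trip3] at ht ⊢
  obtain ⟨⟨⟨m1, m2, m3⟩, ⟨a1, a2⟩, a3, a4⟩, ⟨n1, n2, n3⟩, g1, g2, g3⟩ := ht
  exact ⟨⟨⟨m1, m3, m2⟩, ⟨a3, a4⟩, a1, a2⟩, ⟨n2, n1, n3.symm⟩, g2, g1, fun hh => g3 (hG _ _ hh)⟩

end TripAux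

open TripAux

theorem bad_triples {h w u M : ℕ} (hu : 0 < u) (hM : 0 < M) {P : Finset Pt} (hP : IsPP P)
    (huw : u ∣ w) (hwh : w ∣ h) (hw : 0 < w) (hh : 0 < h)
    (hbox : ∀ p ∈ P, ∀ p' ∈ P, p.1 / w = p'.1 / w → p.2 / h = p'.2 / h → p = p')
    {K : ℕ → ℕ → ℕ → Finset (Pt × Pt)} (hK : Peeled h w u M P K) :
    M ^ 3 * (badT h P (Gd h w M P K)).card ≤ 18 * u * w ^ 2 * (trip3 h P).card := by
  classical
  set G := Gd h w M P K with hGdef
  have hG : ∀ p p', (p, p') ∈ G → (p', p) ∈ G := fun p p' hp => Gd_symm hp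
  set T := badT h P G with hTdef
  set T' := T.filter fun t => t.1.1 / w < t.2.1.1 / w ∧ t.2.1.1 / w < t.2.2.1 / w with hT'def
  -- the six permutations
  have hT' : ∀ {t : Pt × Pt × Pt}, t ∈ T → t.1.1 / w < t.2.1.1 / w → t.2.1.1 / w < t.2.2.1 / w →
      t ∈ T' := fun ht h1 h2 => Finset.mem_filter.2 ⟨ht, h1, h2⟩
  have hm1 : ∀ {t : Pt × Pt × Pt}, t ∈ T → s1 t ∈ T := fun ht => s1_mem hG ht
  have hm2 : ∀ {t : Pt × Pt × Pt}, t ∈ T → s2 t ∈ T := fun ht => s2_mem hG ht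
  have hsub : T ⊆ (Finset.univ : Finset (Fin 6)).biUnion fun i =>
      T'.image (![id, s1, s2, s1 ∘ s2, s2 ∘ s1, s1 ∘ s2 ∘ s1] i) := by
    intro t ht
    have ht0 := ht
    rw [hTdef, mem_badT, mem_trip3] at ht0
    obtain ⟨⟨⟨m1, m2, m3⟩, ⟨a1, a2⟩, a3, a4⟩, ⟨n1, n2, n3⟩, -⟩ := ht0
    have d1 : t.1.1 / w ≠ t.2.1.1 / w := fun he => n1 (hbox _ m1 _ m2 he a2.symm)
    have d2 : t.1.1 / w ≠ t.2.2.1 / w := fun he => n2 (hbox _ m1 _ m3 he a4.symm)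
    have d3 : t.2.1.1 / w ≠ t.2.2.1 / w := fun he => n3 (hbox _ m2 _ m3 he (a2.trans a4.symm))
    rw [Finset.mem_biUnion]
    rcases lt_or_gt_of_ne d1 with c1 | c1 <;> rcases lt_or_gt_of_ne d2 with c2 | c2 <;>
      rcases lt_or_gt_of_ne d3 with c3 | c3
    · exact ⟨0, Finset.mem_univ _, Finset.mem_image.2 ⟨t, hT' ht c1 c3, rfl⟩⟩
    · exact ⟨2, Finset.mem_univ _, Finset.mem_image.2 ⟨s2 t, hT' (hm2 ht) c2 c3, rfl⟩⟩
    · omega
    · exact ⟨4, Finset.mem_univ _, Finset.mem_image.2 ⟨s1 (s2 t), hT' (hm1 (hm2 ht)) c2 c1, rfl⟩⟩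
    · exact ⟨1, Finset.mem_univ _, Finset.mem_image.2 ⟨s1 t, hT' (hm1 ht) c1 c2, rfl⟩⟩
    · omega
    · exact ⟨3, Finset.mem_univ _, Finset.mem_image.2 ⟨s2 (s1 t), hT' (hm2 (hm1 ht)) c3 c2, rfl⟩⟩
    · exact ⟨5, Finset.mem_univ _,
        Finset.mem_image.2 ⟨s1 (s2 (s1 t)), hT' (hm1 (hm2 (hm1 ht))) c3 c1, rfl⟩⟩
  have hcard : T.card ≤ 6 * T'.card := by
    refine (Finset.card_le_card hsub).trans ?_
    have h1 := Finset.card_biUnion_le_card_mul (Finset.univ : Finset (Fin 6))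
      (fun i => T'.image (![id, s1, s2, s1 ∘ s2, s2 ∘ s1, s1 ∘ s2 ∘ s1] i)) T'.card
      (fun i _ => Finset.card_image_le)
    simpa using h1
  -- the strips
  set Cs := P.image fun p => p.1 / w with hCs
  have hcov : T' ⊆ Cs.biUnion fun c1 => Cs.biUnion fun c2 => Cs.biUnion fun c3 =>
      T'.filter fun t => t.1.1 / w = c1 ∧ t.2.1.1 / w = c2 ∧ t.2.2.1 / w = c3 := by
    intro t ht
    have ht0 := (Finset.mem_filter.1 ht).1
    rw [hTdef, mem_badT, mem_trip3] at ht0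
    obtain ⟨⟨⟨m1, m2, m3⟩, -⟩, -⟩ := ht0
    rw [Finset.mem_biUnion]
    refine ⟨t.1.1 / w, Finset.mem_image_of_mem (fun p : Pt => p.1 / w) m1, ?_⟩
    rw [Finset.mem_biUnion]
    refine ⟨t.2.1.1 / w, Finset.mem_image_of_mem (fun p : Pt => p.1 / w) m2, ?_⟩
    rw [Finset.mem_biUnion]
    exact ⟨t.2.2.1 / w, Finset.mem_image_of_mem (fun p : Pt => p.1 / w) m3,
      Finset.mem_filter.2 ⟨ht, rfl, rfl, rfl⟩⟩
  have hstrip : ∀ c1 c2 c3 : ℕ, M ^ 3 *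
      (T'.filter fun t => t.1.1 / w = c1 ∧ t.2.1.1 / w = c2 ∧ t.2.2.1 / w = c3).card ≤
      3 * u * ((JJ h w P c1 c2).card * (JJ h w P c1 c3).card * (JJ h w P c2 c3).card) := by
    intro c1 c2 c3
    by_cases hc : c1 < c2 ∧ c2 < c3
    · refine le_trans (Nat.mul_le_mul_left _ (Finset.card_le_card ?_))
        (bad_strips hu hM hP huw hwh hw hh hbox hK hc.1 hc.2)
      exact Finset.filter_subset_filter _ (Finset.filter_subset _ _)
    · have he : (T'.filter fun t => t.1.1 / w = c1 ∧ t.2.1.1 / w = c2 ∧ t.2.2.1 / w = c3) = ∅ := by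
        rw [Finset.filter_eq_empty_iff]
        rintro t ht ⟨e1, e2, e3⟩
        have h1 := (Finset.mem_filter.1 ht).2
        apply hc
        rw [← e1, ← e2, ← e3]
        exact h1
      rw [he]
      simp
  have hT'card : M ^ 3 * T'.card ≤ 3 * u * (w ^ 2 * (trip3 h P).card) := by
    calc M ^ 3 * T'.card
        ≤ M ^ 3 * ∑ c1 ∈ Cs, ∑ c2 ∈ Cs, ∑ c3 ∈ Cs,
          (T'.filter fun t => t.1.1 / w = c1 ∧ t.2.1.1 / w = c2 ∧ t.2.2.1 / w = c3).card := by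
          refine Nat.mul_le_mul_left _ ((Finset.card_le_card hcov).trans ?_)
          refine Finset.card_biUnion_le.trans (Finset.sum_le_sum fun c1 _ => ?_)
          refine Finset.card_biUnion_le.trans (Finset.sum_le_sum fun c2 _ => ?_)
          exact Finset.card_biUnion_le
      _ = ∑ c1 ∈ Cs, ∑ c2 ∈ Cs, ∑ c3 ∈ Cs, M ^ 3 *
          (T'.filter fun t => t.1.1 / w = c1 ∧ t.2.1.1 / w = c2 ∧ t.2.2.1 / w = c3).card := by
          simp only [Finset.mul_sum]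
      _ ≤ ∑ c1 ∈ Cs, ∑ c2 ∈ Cs, ∑ c3 ∈ Cs, 3 * u *
          ((JJ h w P c1 c2).card * (JJ h w P c1 c3).card * (JJ h w P c2 c3).card) :=
          Finset.sum_le_sum fun c1 _ => Finset.sum_le_sum fun c2 _ => Finset.sum_le_sum fun c3 _ =>
            hstrip c1 c2 c3
      _ = 3 * u * ∑ c1 ∈ Cs, ∑ c2 ∈ Cs, ∑ c3 ∈ Cs,
          (JJ h w P c1 c2).card * (JJ h w P c1 c3).card * (JJ h w P c2 c3).card := by
          simp only [Finset.mul_sum]
      _ ≤ 3 * u * (w ^ 2 * (trip3 h P).card) :=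
          Nat.mul_le_mul_left _ (sum_strips hP hw hbox Cs)
  calc M ^ 3 * T.card ≤ M ^ 3 * (6 * T'.card) := Nat.mul_le_mul_left _ hcard
    _ = 6 * (M ^ 3 * T'.card) := by ring
    _ ≤ 6 * (3 * u * (w ^ 2 * (trip3 h P).card)) := Nat.mul_le_mul_left _ hT'card
    _ = 18 * u * w ^ 2 * (trip3 h P).card := by ring

end Pool.Agent.Twin
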