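import Mathlib
import Pool.Agent.Twin.Defs
import Pool.Agent.Twin.Peel
import Pool.Agent.Twin.Trip
import Pool.Agent.Twin.Pop

/-!
# Existence of the structure `Side`
-/

set_option autoImplicit false

namespace Pool.Agent.Twin

theorem exists_side {k q u M : ℕ} (hu : 0 < u) (hk : 0 < k) (hq : 0 < q) (hM : 0 < M)
    {P : Finset Pt} (hP : IsPP P)
    (hbox : ∀ p ∈ P, ∀ p' ∈ P, p.1 / (q * u) = p'.1 / (q * u) →
      p.2 / (k * q * u) = p'.2 / (k * q * u) → p = p') :
    ∃ (G : Finset (Pt × Pt)) (Mt : Om k q M → ℕ → ℕ → Prop), Side (k * q * u) u k q M P G Mt := by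
  obtain ⟨K, hK⟩ := exists_peeled (k * q * u) (q * u) u M P
  refine ⟨Gd (k * q * u) (q * u) M P K, Mat k q u M K, ?_⟩
  refine ⟨gd_mem, gd_symm, mat_win, mat_mono hu hk hq hK, pop1 hu hk hq hM hK,
    pop2 hu hk hq hM hK, ?_⟩
  refine bad_triples hu hM hP (Dvd.intro_left q rfl) ⟨k, by ring⟩ (by positivity) (by positivity)
    hbox hK

end Pool.Agent.Twin
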