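import Mathlib
import Pool.Agent.Twin.Defs
import Pool.Agent.Twin.Swap
import Pool.Agent.Twin.SideEx
import Pool.Agent.Twin.Comb
import Pool.Agent.Twin.Cnt
import Pool.Agent.Twin.Reg
import Pool.Agent.Twin.Br

/-!
# The twin theorem for permutations of length `2 ^ (36 * a + 45)`
-/

set_option autoImplicit false

namespace Pool.Agent.Twin

theorem two_pow_congr {x y : ℕ} (h : x = y) : (2 : ℕ) ^ x = 2 ^ y := h ▸ rfl

/-- the regular case, general parameters -/
theorem main_reg {k q u M V m0 : ℕ} (hk : 0 < k) (hq : 0 < q) (hu : 0 < u) (hM : 0 < M)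
    (h24 : 24 ≤ 2 ^ m0) (hMM : 1152 * u * (q * u) ^ 2 ≤ M ^ 3) {P : Finset Pt} (hP : IsPP P)
    (hV : ∀ p ∈ P, p.1 / (k * q * u) < V ∧ p.2 / (k * q * u) < V)
    (h1 : ∀ p ∈ P, ∀ p' ∈ P, p.1 / (q * u) = p'.1 / (q * u) →
      p.2 / (k * q * u) = p'.2 / (k * q * u) → p = p')
    (h2 : ∀ p ∈ P, ∀ p' ∈ P, p.2 / (q * u) = p'.2 / (q * u) →
      p.1 / (k * q * u) = p'.1 / (k * q * u) → p = p')
    (hm : 2 * (V * V * 2 ^ m0) ≤ P.card) :
    ∃ T, HasTwin P T ∧ (2 : ℝ) ^ m0 * P.card *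
      min (1 / (16 * ((k : ℝ) * q) ^ 2)) (1 / (4 * ((k : ℝ) * M))) ≤ 3072 * T := by
  obtain ⟨P', hP'P, m, hm0, hN, hpairs⟩ := regularize (by positivity) hV hm
  have hPP' := hP.subset hP'P
  have h1' : ∀ p ∈ P', ∀ p' ∈ P', p.1 / (q * u) = p'.1 / (q * u) →
      p.2 / (k * q * u) = p'.2 / (k * q * u) → p = p' :=
    fun p hp p' hp' => h1 p (hP'P hp) p' (hP'P hp')
  have h2' : ∀ p ∈ P', ∀ p' ∈ P', p.2 / (q * u) = p'.2 / (q * u) →
      p.1 / (k * q * u) = p'.1 / (k * q * u) → p = p' :=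
    fun p hp p' hp' => h2 p (hP'P hp) p' (hP'P hp')
  obtain ⟨Gc, Mc, Sc⟩ := exists_side (M := M) hu hk hq hM hPP' h1'
  obtain ⟨Gr, Mr, Sr⟩ := exists_side (M := M) hu hk hq hM hPP'.sw (by
    intro p hp p' hp' e1 e2
    have := h2' _ (mem_sw.1 hp) _ (mem_sw.1 hp') e1 e2
    exact Prod.swap_injective this)
  obtain ⟨T, hT, hTc⟩ := comb hu hk hq hM h1' h2' Sc Sr
  refine ⟨T, hT.mono hP'P le_rfl, ?_⟩
  have hcnt : (pairs2 (k * q * u) P').card ≤ 48 * (Gc ∩ swG Gr).card := by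
    refine count_good (M := M) (u := u) (w := q * u) (N0 := 2 ^ m) hM Sc.mem Sc.symm
      (swG_mem Sr.mem) (swG_symm Sr.symm) ?_ hN Sc.trip ?_ hMM
    · exact h24.trans (Nat.pow_le_pow_right (by norm_num) hm0)
    · have := Sr.trip
      rwa [card_badT_sw, card_trip3_sw] at this
  have hE : 2 ^ m0 * P.card ≤ 192 * (Gc ∩ swG Gr).card := by
    calc _ ≤ 4 * (pairs2 (k * q * u) P').card := hpairs
      _ ≤ 4 * (48 * (Gc ∩ swG Gr).card) := Nat.mul_le_mul_left _ hcnt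
      _ = _ := by ring
  have hE' : (2 : ℝ) ^ m0 * P.card ≤ 192 * ((Gc ∩ swG Gr).card : ℝ) := by exact_mod_cast hE
  have hmin : 0 ≤ min (1 / (16 * ((k : ℝ) * q) ^ 2)) (1 / (4 * ((k : ℝ) * M))) :=
    le_min (by positivity) (by positivity)
  calc (2 : ℝ) ^ m0 * P.card * min (1 / (16 * ((k : ℝ) * q) ^ 2)) (1 / (4 * ((k : ℝ) * M))) ≤
        192 * ((Gc ∩ swG Gr).card : ℝ) *
          min (1 / (16 * ((k : ℝ) * q) ^ 2)) (1 / (4 * ((k : ℝ) * M))) :=
        mul_le_mul_of_nonneg_right hE' hmin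
    _ = 192 * (((Gc ∩ swG Gr).card : ℝ) *
          min (1 / (16 * ((k : ℝ) * q) ^ 2)) (1 / (4 * ((k : ℝ) * M)))) := by ring
    _ ≤ 192 * (16 * T) := by gcongr
    _ = 3072 * T := by ring

/-- the covering argument, general parameters -/
theorem main_split {B n w h : ℕ} (hw : w = 4 ^ B) (hh : h = 8 ^ B) {P : Finset Pt} (hP : IsPP P)
    (hcard : P.card = n) :
    (∃ T, HasTwin P T ∧ n ≤ 128 * B * w * T) ∨
    ∃ P0 ⊆ P, n < 8 * P0.card ∧
      (∀ p ∈ P0, ∀ p' ∈ P0, p.1 / w = p'.1 / w → p.2 / h = p'.2 / h → p = p') ∧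
      (∀ p ∈ P0, ∀ p' ∈ P0, p.2 / w = p'.2 / w → p.1 / h = p'.1 / h → p = p') := by
  obtain ⟨P0, hP0, hi1, hi2, hcov⟩ := greedy P (fun p => (p.1 / w, p.2 / h))
    (fun p => (p.2 / w, p.1 / h))
  by_cases hc : n < 8 * P0.card
  · right
    exact ⟨P0, hP0, hc, fun p hp p' hp' e1 e2 => hi1 hp hp' (by simp only [e1, e2]),
      fun p hp p' hp' e1 e2 => hi2 hp hp' (by simp only [e1, e2])⟩
  · left
    push Not at hc
    classical
    set Q1 := P.filter fun p => (p.1 / w, p.2 / h) ∈ P0.image fun p => (p.1 / w, p.2 / h) with hQ1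
    set Q2 := P.filter fun p => (p.2 / w, p.1 / h) ∈ P0.image fun p => (p.2 / w, p.1 / h) with hQ2
    have hsum : P.card ≤ Q1.card + Q2.card := by
      refine (Finset.card_le_card ?_).trans (Finset.card_union_le _ _)
      intro p hp
      rw [Finset.mem_union, hQ1, hQ2, Finset.mem_filter, Finset.mem_filter]
      rcases hcov p hp with h | h
      · exact Or.inl ⟨hp, h⟩
      · exact Or.inr ⟨hp, h⟩
    rcases (by omega : P.card ≤ 2 * Q1.card ∨ P.card ≤ 2 * Q2.card) with h' | h'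
    · rw [hw]
      refine br_twin (B := B) (n := n) hP (Finset.filter_subset _ _ : Q1 ⊆ P)
        (by rw [← hcard]; exact h') ?_
      rw [← hw, ← hh]
      rw [← hQ1]
      have : (Q1.image fun p => (p.1 / w, p.2 / h)).card ≤ P0.card := by
        refine (Finset.card_le_card ?_).trans
          (Finset.card_image_le (s := P0) (f := fun p => (p.1 / w, p.2 / h)))
        intro x hx
        obtain ⟨p, hp, rfl⟩ := Finset.mem_image.1 hx
        exact (Finset.mem_filter.1 hp).2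
      omega
    · have hQs : sw Q2 ⊆ sw P := by
        intro p hp
        rw [mem_sw] at hp ⊢
        exact (Finset.mem_filter.1 hp).1
      obtain ⟨T, hT, hT2⟩ := br_twin (B := B) (n := n) hP.sw hQs
        (by rw [card_sw, ← hcard]; exact h') (by
          rw [← hw, ← hh]
          have : ((sw Q2).image fun p => (p.1 / w, p.2 / h)).card ≤ P0.card := by
            refine (Finset.card_le_card ?_).trans
              (Finset.card_image_le (s := P0) (f := fun p => (p.2 / w, p.1 / h)))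
            intro x hx
            obtain ⟨p, hp, rfl⟩ := Finset.mem_image.1 hx
            exact (Finset.mem_filter.1 (mem_sw.1 hp)).2
          omega)
      exact ⟨T, hT.sw, by rw [hw]; exact hT2⟩

/-- arithmetic of the parameters -/
theorem arith (a : ℕ) :
    (1 : ℝ) / 2 ^ (20 * a + 33) ≤
      min (1 / (16 * ((((2 ^ (7 * a + 9) : ℕ) : ℝ)) * ((2 ^ (3 * a) : ℕ) : ℝ)) ^ 2))
        (1 / (4 * ((((2 ^ (7 * a + 9) : ℕ) : ℝ)) * ((2 ^ (13 * a + 22) : ℕ) : ℝ)))) := by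
  refine le_min ?_ ?_
  · refine one_div_le_one_div_of_le (by positivity) ?_
    push_cast
    have : (16 : ℝ) * ((2 : ℝ) ^ (7 * a + 9) * 2 ^ (3 * a)) ^ 2 = 2 ^ (20 * a + 22) := by
      rw [← pow_add, ← pow_mul]
      have h16 : (16 : ℝ) = 2 ^ 4 := by norm_num
      rw [h16, ← pow_add]; congr 1; ring
    rw [this]
    exact pow_le_pow_right₀ (by norm_num) (by omega)
  · refine one_div_le_one_div_of_le (by positivity) ?_
    push_cast
    have : (4 : ℝ) * ((2 : ℝ) ^ (7 * a + 9) * 2 ^ (13 * a + 22)) = 2 ^ (20 * a + 33) := by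
      rw [← pow_add]
      have h16 : (4 : ℝ) = 2 ^ 2 := by norm_num
      rw [h16, ← pow_add]; congr 1; ring
    rw [this]

theorem arith2 (a : ℕ) {c X T : ℝ} (hc : (2 : ℝ) ^ (36 * a + 42) ≤ c)
    (hX : (1 : ℝ) / 2 ^ (20 * a + 33) ≤ X) (hT : (2 : ℝ) ^ (6 * a + 5) * c * X ≤ T) :
    (2 : ℝ) ^ (22 * a + 14) ≤ T := by
  refine le_trans ?_ hT
  have e : (2 : ℝ) ^ (22 * a + 14) =
      2 ^ (6 * a + 5) * 2 ^ (36 * a + 42) * (1 / 2 ^ (20 * a + 33)) := by
    rw [mul_one_div, eq_div_iff (by positivity), ← pow_add, ← pow_add]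
    exact congrArg (fun n : ℕ => (2 : ℝ) ^ n) (by ring)
  rw [e]
  refine mul_le_mul ?_ hX (by positivity) ?_
  · exact mul_le_mul_of_nonneg_left hc (by positivity)
  · exact mul_nonneg (by positivity) (le_trans (by positivity) hc)

theorem arith3 (a T : ℕ) (h : (2 : ℝ) ^ (22 * a + 14) ≤ 3072 * (T : ℝ)) :
    2 ^ (22 * a) ≤ T := by
  have h4 : 2 ^ (22 * a + 14) ≤ 3072 * T := by exact_mod_cast h
  rw [pow_add] at h4
  generalize 2 ^ (22 * a) = X at h4 ⊢
  omega

theorem main_pow (a : ℕ) {P : Finset Pt} (hP : IsPP P)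
    (hlt : ∀ p ∈ P, p.1 < 2 ^ (36 * a + 45) ∧ p.2 < 2 ^ (36 * a + 45))
    (hcard : P.card = 2 ^ (36 * a + 45)) :
    ∃ T, HasTwin P T ∧ 2 ^ (22 * a) ≤ (7 * a + 9) * T := by
  have hw : 2 ^ (3 * a) * 2 ^ (11 * a + 18) = 4 ^ (7 * a + 9) := by
    rw [show (4 : ℕ) = 2 ^ 2 by norm_num, ← pow_add, ← pow_mul]
    exact two_pow_congr (by ring)
  have hh : 2 ^ (7 * a + 9) * 2 ^ (3 * a) * 2 ^ (11 * a + 18) = 8 ^ (7 * a + 9) := by
    rw [show (8 : ℕ) = 2 ^ 3 by norm_num, ← pow_add, ← pow_add, ← pow_mul]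
    exact two_pow_congr (by ring)
  rcases main_split hw hh hP hcard with ⟨T, hT, hT2⟩ | ⟨P0, hP0, hc, h1, h2⟩
  · refine ⟨T, hT, ?_⟩
    have e : 2 ^ (36 * a + 45) = 2 ^ 20 * 2 ^ (22 * a) *
        (128 * (2 ^ (3 * a) * 2 ^ (11 * a + 18))) := by
      rw [show (128 : ℕ) = 2 ^ 7 by norm_num, ← pow_add, ← pow_add, ← pow_add, ← pow_add]
      exact two_pow_congr (by ring)
    have e' : 128 * (7 * a + 9) * (2 ^ (3 * a) * 2 ^ (11 * a + 18)) * T =
        (7 * a + 9) * T * (128 * (2 ^ (3 * a) * 2 ^ (11 * a + 18))) := by ring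
    rw [e, e'] at hT2
    have h3 := Nat.le_of_mul_le_mul_right hT2 (by positivity)
    exact (Nat.le_mul_of_pos_left _ (by positivity)).trans h3
  · have hcard0 : 2 ^ (36 * a + 42) ≤ P0.card := by
      rw [show 36 * a + 45 = (36 * a + 42) + 3 by ring, pow_add] at hc
      generalize 2 ^ (36 * a + 42) = X at hc ⊢
      omega
    obtain ⟨T, hT, hT2⟩ := main_reg (k := 2 ^ (7 * a + 9)) (q := 2 ^ (3 * a))
      (u := 2 ^ (11 * a + 18)) (M := 2 ^ (13 * a + 22)) (V := 2 ^ (15 * a + 18))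
      (m0 := 6 * a + 5) (by positivity) (by positivity) (by positivity) (by positivity)
      (by
        calc 24 ≤ 2 ^ 5 := by norm_num
          _ ≤ 2 ^ (6 * a + 5) := Nat.pow_le_pow_right (by norm_num) (by omega))
      (by
        have e : 1152 * 2 ^ (11 * a + 18) * (2 ^ (3 * a) * 2 ^ (11 * a + 18)) ^ 2 =
            1152 * 2 ^ (39 * a + 54) := by
          rw [← pow_add, ← pow_mul, mul_assoc, ← pow_add]
          exact congrArg (1152 * ·) (two_pow_congr (by ring))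
        have e2 : (2 ^ (13 * a + 22)) ^ 3 = 2 ^ 12 * 2 ^ (39 * a + 54) := by
          rw [← pow_mul, ← pow_add]
          exact two_pow_congr (by ring)
        rw [e, e2]
        exact Nat.mul_le_mul_right _ (by norm_num))
      (hP.subset hP0)
      (by
        intro p hp
        have e : (2 : ℕ) ^ (36 * a + 45) =
            2 ^ (15 * a + 18) * (2 ^ (7 * a + 9) * 2 ^ (3 * a) * 2 ^ (11 * a + 18)) := by
          rw [← pow_add, ← pow_add, ← pow_add]
          exact two_pow_congr (by ring)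
        have h3 := hlt p (hP0 hp)
        rw [e] at h3
        exact ⟨(Nat.div_lt_iff_lt_mul (by positivity)).2 h3.1,
          (Nat.div_lt_iff_lt_mul (by positivity)).2 h3.2⟩)
      h1 h2
      (by
        refine le_trans (le_of_eq ?_) hcard0
        rw [← pow_add, ← pow_add, ← pow_succ']
        exact two_pow_congr (by ring))
    refine ⟨T, hT.mono hP0 le_rfl, ?_⟩
    have hc' : (2 : ℝ) ^ (36 * a + 42) ≤ (P0.card : ℝ) := by exact_mod_cast hcard0
    have h5 : 2 ^ (22 * a) ≤ T := arith3 a T (arith2 a hc' (arith a) hT2)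
    have h7 : T ≤ (7 * a + 9) * T := by
      have := Nat.mul_le_mul_right T (show 1 ≤ 7 * a + 9 by omega)
      rwa [one_mul] at this
    exact h5.trans h7

end Pool.Agent.Twin
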