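import Mathlib
import Pool.Agent.Twin.Main
import Pool.Agent.Twin.Conv

/-!
# Every permutation of length `n` has a twin of length `c * n ^ (11/18) / log n`
-/

set_option autoImplicit false

namespace Pool.Agent.Twin

theorem final_aux {n : ℕ} (hn : 2 ^ 45 ≤ n) :
    ∃ a : ℕ, 2 ^ (36 * a + 45) ≤ n ∧ n < 2 ^ (36 * a + 81) := by
  classical
  have hex : ∃ a : ℕ, n < 2 ^ (36 * a + 81) := by
    refine ⟨n, ?_⟩
    calc n < 2 ^ n := Nat.lt_two_pow_self
      _ ≤ 2 ^ (36 * n + 81) := Nat.pow_le_pow_right (by norm_num) (by omega)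
  refine ⟨Nat.find hex, ?_, Nat.find_spec hex⟩
  rcases Nat.eq_zero_or_pos (Nat.find hex) with h | h
  · rw [h]
    simpa using hn
  · have h1 := Nat.find_min hex (Nat.sub_lt h Nat.one_pos)
    push Not at h1
    refine le_trans (le_of_eq ?_) h1
    congr 1
    omega

theorem final_log {a n : ℕ} (h : 2 ^ (36 * a + 45) ≤ n) : (7 * a + 9 : ℝ) ≤ Real.log n := by
  have h3 : (2 : ℝ) ^ (36 * a + 45) ≤ n := by exact_mod_cast h
  have h4 := Real.log_le_log (pow_pos two_pos _) h3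
  rw [Real.log_pow] at h4
  refine le_trans ?_ h4
  clear h3 h4 h
  have h5 : (1 : ℝ) / 2 ≤ Real.log 2 := by
    have := Real.log_two_gt_d9
    linarith
  have ha0 : (0 : ℝ) ≤ a := Nat.cast_nonneg a
  have h6 : ((36 * a + 45 : ℕ) : ℝ) * (1 / 2) ≤ ((36 * a + 45 : ℕ) : ℝ) * Real.log 2 :=
    mul_le_mul_of_nonneg_left h5 (Nat.cast_nonneg _)
  refine le_trans ?_ h6
  push_cast
  linarith

theorem final_pow {a n : ℕ} (h : n < 2 ^ (36 * a + 81)) :
    (n : ℝ) ^ ((11 : ℝ) / 18) ≤ 2 ^ (22 * a) * 2 ^ 50 := by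
  have h3 : (n : ℝ) ≤ (2 : ℝ) ^ (36 * a + 81) := by exact_mod_cast h.le
  calc (n : ℝ) ^ ((11 : ℝ) / 18) ≤ ((2 : ℝ) ^ (36 * a + 81)) ^ ((11 : ℝ) / 18) :=
        Real.rpow_le_rpow (Nat.cast_nonneg n) h3 (by norm_num)
    _ = (2 : ℝ) ^ (((36 * a + 81 : ℕ) : ℝ) * (11 / 18)) := by
        rw [Real.rpow_mul (by norm_num), Real.rpow_natCast]
    _ ≤ (2 : ℝ) ^ (((22 * a + 50 : ℕ) : ℝ)) := by
        refine Real.rpow_le_rpow_of_exponent_le (by norm_num) ?_
        push_cast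
        linarith
    _ = 2 ^ (22 * a) * 2 ^ 50 := by
        rw [Real.rpow_natCast, pow_add]

theorem final_calc {x y z t L : ℝ} (hx : x ≤ y * 2 ^ 50) (hy : y ≤ z * t) (hz : z ≤ L)
    (ht : 0 ≤ t) : 1 / 2 ^ 50 * x ≤ t * L := by
  calc 1 / 2 ^ 50 * x ≤ 1 / 2 ^ 50 * (y * 2 ^ 50) := by gcongr
    _ = y := by field_simp
    _ ≤ z * t := hy
    _ ≤ L * t := mul_le_mul_of_nonneg_right hz ht
    _ = t * L := mul_comm _ _

theorem final : ∃ c : ℝ, 0 < c ∧ ∃ N : ℕ, ∀ n : ℕ, N ≤ n → ∀ σ : Equiv.Perm (Fin n),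
    ∃ k : ℕ, c * (n : ℝ) ^ ((11 : ℝ) / 18) / Real.log n ≤ (k : ℝ) ∧
      ∃ f g : Fin k ↪o Fin n, (∀ i j, f i ≠ g j) ∧
        ∀ i j, (σ (f i) < σ (f j) ↔ σ (g i) < σ (g j)) := by
  refine ⟨1 / 2 ^ 50, by positivity, 2 ^ 45, fun n hn σ => ?_⟩
  obtain ⟨a, ha1, ha2⟩ := final_aux hn
  obtain ⟨T, hT, hT2⟩ := main_pow a (ptsOf_isPP σ (2 ^ (36 * a + 45))) (ptsOf_lt σ _ ha1)
    (ptsOf_card σ ha1)
  obtain ⟨f, g, h1, h2⟩ := twin_of_ptsOf σ ha1 hT
  refine ⟨T, ?_, f, g, h1, h2⟩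
  have hn1 : (1 : ℝ) < n := by
    have : 1 < n := lt_of_lt_of_le (by norm_num) hn
    exact_mod_cast this
  have hlog : 0 < Real.log n := Real.log_pos hn1
  rw [div_le_iff₀ hlog]
  have hT3 : (2 : ℝ) ^ (22 * a) ≤ (7 * a + 9) * T := by exact_mod_cast hT2
  exact final_calc (final_pow ha2) hT3 (final_log ha1) (Nat.cast_nonneg T)

/-- the same for all `n ≥ 2` -/
theorem final_all : ∃ c : ℝ, 0 < c ∧ ∀ n : ℕ, 2 ≤ n → ∀ σ : Equiv.Perm (Fin n),
    ∃ k : ℕ, c * (n : ℝ) ^ ((11 : ℝ) / 18) / Real.log n ≤ (k : ℝ) ∧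
      ∃ f g : Fin k ↪o Fin n, (∀ i j, f i ≠ g j) ∧
        ∀ i j, (σ (f i) < σ (f j) ↔ σ (g i) < σ (g j)) := by
  obtain ⟨c, hc, N, hN⟩ := final
  refine ⟨min c (1 / (2 * (N + 1))), lt_min hc (by positivity), fun n hn σ => ?_⟩
  have hn1 : (1 : ℝ) < n := by
    have : 1 < n := hn
    exact_mod_cast this
  have hlog : 0 < Real.log n := Real.log_pos hn1
  by_cases hnN : N ≤ n
  · obtain ⟨k, hk, h⟩ := hN n hnN σ
    refine ⟨k, le_trans ?_ hk, h⟩
    have h1 : min c (1 / (2 * (N + 1))) ≤ c := min_le_left _ _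
    have h2 : (0 : ℝ) ≤ (n : ℝ) ^ ((11 : ℝ) / 18) := Real.rpow_nonneg (Nat.cast_nonneg n) _
    exact div_le_div_of_nonneg_right (mul_le_mul_of_nonneg_right h1 h2) hlog.le
  · push Not at hnN
    have hn0 : 0 < n := by omega
    let f0 : Fin 1 ↪o Fin n := OrderEmbedding.ofStrictMono (fun _ => ⟨0, hn0⟩) (by
      intro i j hij
      exact absurd hij (by rw [Subsingleton.elim i j]; exact lt_irrefl _))
    let g0 : Fin 1 ↪o Fin n := OrderEmbedding.ofStrictMono (fun _ => ⟨1, hn⟩) (by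
      intro i j hij
      exact absurd hij (by rw [Subsingleton.elim i j]; exact lt_irrefl _))
    refine ⟨1, ?_, f0, g0, ?_, ?_⟩
    · rw [div_le_iff₀ hlog]
      have h1 : (n : ℝ) ^ ((11 : ℝ) / 18) ≤ n := by
        calc (n : ℝ) ^ ((11 : ℝ) / 18) ≤ (n : ℝ) ^ (1 : ℝ) :=
              Real.rpow_le_rpow_of_exponent_le hn1.le (by norm_num)
          _ = n := Real.rpow_one _
      have h2 : (n : ℝ) ≤ N + 1 := by
        have : n ≤ N + 1 := by omega
        exact_mod_cast this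
      have h3 : (1 : ℝ) / 2 ≤ Real.log n := by
        have h4 : Real.log 2 ≤ Real.log n :=
          Real.log_le_log two_pos (by exact_mod_cast hn)
        have := Real.log_two_gt_d9
        linarith
      calc min c (1 / (2 * (N + 1))) * (n : ℝ) ^ ((11 : ℝ) / 18) ≤
          1 / (2 * (N + 1)) * (N + 1) := by
            refine mul_le_mul (min_le_right _ _) (h1.trans h2)
              (Real.rpow_nonneg (Nat.cast_nonneg n) _) (by positivity)
        _ = 1 / 2 := by field_simp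
        _ ≤ Real.log n := h3
        _ = ((1 : ℕ) : ℝ) * Real.log n := by simp
    · intro i j h
      have := congrArg Fin.val h
      simp [f0, g0] at this
    · intro i j
      rw [Subsingleton.elim i j]
      simp

end Pool.Agent.Twin
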